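import Pool.Agent.Lib.MP_a1cc03_ag.FL.Base

/-! Row fer-A1. Polarisation of the Fermat form on an isotropic subspace.

`polar`: induction on `l`. For `x :: l`: for every `t : K` the induction hypothesis at `w + t • x` gives
`∑ i (w i + t * x i) ^ (n + 1) * P i = 0`, `n + 1 = d - l.length`, `P i = (l.map (· i)).prod`. So the polynomial
`∑ i (C (w i) + C (x i) * X) ^ (n + 1) * C (P i)` has all values 0, hence is 0 (`Polynomial.funext`, `K` is infinite
since it has characteristic 0); its derivative at 0 is `(n + 1) ∑ i w i ^ n * x i * P i`. Divide by `n + 1`.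
-/

namespace Pool.Agent.FermatLin

open Polynomial in
theorem polar {ι K : Type} [Fintype ι] [Field K] [CharZero K] (d : ℕ) (W : Submodule K (ι → K))
    (hW : ∀ x ∈ W, ∑ i, x i ^ d = 0) (l : List (ι → K)) (hl : ∀ x ∈ l, x ∈ W) (hlen : l.length ≤ d)
    (w : ι → K) (hw : w ∈ W) : ∑ i, w i ^ (d - l.length) * (l.map fun x => x i).prod = 0 := by
  induction l generalizing w with
  | nil => simpa using hW w hw
  | cons x l ih =>
    have hx : x ∈ W := hl x (List.mem_cons_self ..)
    have hl' : ∀ y ∈ l, y ∈ W := fun y hy => hl y (List.mem_cons_of_mem _ hy)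
    rw [List.length_cons] at hlen
    obtain ⟨n, hn⟩ : ∃ n, d - l.length = n + 1 := ⟨d - l.length - 1, by omega⟩
    have hn' : d - (x :: l).length = n := by rw [List.length_cons]; omega
    have hp : (∑ i, (C (w i) + C (x i) * X) ^ (n + 1) * C ((l.map fun x => x i).prod) : K[X]) = 0 := by
      apply Polynomial.funext
      intro t
      have h := ih hl' (by omega) (w + t • x) (W.add_mem hw (W.smul_mem t hx))
      rw [hn] at h
      rw [eval_zero, eval_finsetSum, ← h]
      refine Finset.sum_congr rfl fun i _ => ?_
      simp only [eval_mul, eval_pow, eval_add, eval_C, eval_X, Pi.add_apply, Pi.smul_apply, smul_eq_mul]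
      ring
    have h2 := congrArg (fun p : K[X] => eval 0 (derivative p)) hp
    simp only [derivative_zero, eval_zero, derivative_sum, eval_finsetSum, derivative_mul, derivative_C,
      mul_zero, add_zero, derivative_pow, derivative_add, derivative_X, zero_add, mul_one, eval_mul, eval_pow,
      eval_add, eval_C, eval_X, Nat.add_sub_cancel, zero_mul, map_natCast, eval_natCast] at h2
    have h3 : ((n + 1 : ℕ) : K) * ∑ i, w i ^ n * ((x :: l).map fun x => x i).prod = 0 := by
      rw [← h2, Finset.mul_sum]
      refine Finset.sum_congr rfl fun i _ => ?_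
      rw [List.map_cons, List.prod_cons]
      push_cast
      ring
    rw [hn']
    rcases mul_eq_zero.1 h3 with h | h
    · exact absurd h (Nat.cast_ne_zero.2 (Nat.succ_ne_zero n))
    · exact h

end Pool.Agent.FermatLin
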