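import Pool.Agent.Lib.MP_a1cc03_ag.FL.Base

/-! Row fer-A2. A vector of `W` in general position, and a dimension count.

`exists_generic`: the subspaces `{x ∈ W : x i = 0}` of `W`, for the `i` such that the coordinate `i` does not
vanish on `W`, are proper, and a vector space over an infinite field is not a finite union of proper subspaces
(`Subspace.biUnion_ne_univ_of_top_notMem` or similar).

`finrank_add_le`: let `D : (ι → K) →ₗ (ι → K)` be multiplication by `c`. It is injective on `P`, and `D P` is
orthogonal to `Q` for the form `∑ i x i * y i`, so `finrank P ≤ finrank Q.dualAnnihilator` (the map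
`P → Q.dualAnnihilator`, `f ↦ (g ↦ ∑ i c i * f i * g i)`, is injective: `dotProduct` with the basis vectors), and
`finrank Q + finrank Q.dualAnnihilator = card ι` (`Subspace.finrank_add_finrank_dualAnnihilator_eq`).
-/

namespace Pool.Agent.FermatLin

theorem exists_generic {ι K : Type} [Fintype ι] [Field K] [Infinite K] (W : Submodule K (ι → K)) :
    ∃ w ∈ W, ∀ i, w i = 0 → ∀ x ∈ W, x i = 0 := by
  classical
  let s : Finset (Submodule K W) :=
    (Finset.univ.filter (fun i : ι => ∃ x ∈ W, x i ≠ 0)).image
      (fun i => LinearMap.ker ((LinearMap.proj i : (ι → K) →ₗ[K] K) ∘ₗ W.subtype))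
  have hs : (⊤ : Submodule K W) ∉ s := by
    intro h
    simp only [s, Finset.mem_image, Finset.mem_filter, Finset.mem_univ, true_and] at h
    obtain ⟨i, ⟨x, hx, hxi⟩, hk⟩ := h
    have : (⟨x, hx⟩ : W) ∈ (⊤ : Submodule K W) := Submodule.mem_top
    rw [← hk] at this
    simp only [LinearMap.mem_ker, LinearMap.comp_apply, Submodule.subtype_apply, LinearMap.proj_apply] at this
    exact hxi this
  have h := Subspace.biUnion_ne_univ_of_top_notMem hs
  rw [Set.ne_univ_iff_exists_notMem] at h
  obtain ⟨w, hw⟩ := h
  refine ⟨w, w.2, fun i hi x hx => ?_⟩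
  by_contra hne
  apply hw
  simp only [Set.mem_iUnion]
  refine ⟨LinearMap.ker ((LinearMap.proj i : (ι → K) →ₗ[K] K) ∘ₗ W.subtype), ?_, ?_⟩
  · simp only [s, Finset.mem_image, Finset.mem_filter, Finset.mem_univ, true_and]
    exact ⟨i, ⟨x, hx, hne⟩, rfl⟩
  · simp only [SetLike.mem_coe, LinearMap.mem_ker, LinearMap.comp_apply, Submodule.subtype_apply,
      LinearMap.proj_apply]
    exact hi

/-- The map `f ↦ (g ↦ ∑ i c i * f i * g i)`. -/
def A2_form {ι K : Type} [Fintype ι] [Field K] (c : ι → K) : (ι → K) →ₗ[K] Module.Dual K (ι → K) :=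
  LinearMap.mk₂ K (fun f g => ∑ i, c i * f i * g i)
    (fun f f' g => by
      simp only [Pi.add_apply, mul_add, add_mul, Finset.sum_add_distrib])
    (fun a f g => by
      simp only [Pi.smul_apply, smul_eq_mul, Finset.mul_sum]
      exact Finset.sum_congr rfl fun i _ => by ring)
    (fun f g g' => by
      simp only [Pi.add_apply, mul_add, Finset.sum_add_distrib])
    (fun a f g => by
      simp only [Pi.smul_apply, smul_eq_mul, Finset.mul_sum]
      exact Finset.sum_congr rfl fun i _ => by ring)

theorem finrank_add_le {ι K : Type} [Fintype ι] [Field K] (c : ι → K) (P Q : Submodule K (ι → K))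
    (hc : ∀ f ∈ P, ∀ i, c i = 0 → f i = 0) (h : ∀ f ∈ P, ∀ g ∈ Q, ∑ i, c i * f i * g i = 0) :
    Module.finrank K P + Module.finrank K Q ≤ Fintype.card ι := by
  classical
  have hmem : ∀ f : P, (A2_form c ∘ₗ P.subtype) f ∈ Submodule.dualAnnihilator Q := by
    intro f
    rw [Submodule.mem_dualAnnihilator]
    intro g hg
    exact h f f.2 g hg
  let T : P →ₗ[K] Submodule.dualAnnihilator Q := LinearMap.codRestrict _ (A2_form c ∘ₗ P.subtype) hmem
  have hT : Function.Injective T := by
    rw [injective_iff_map_eq_zero]
    intro f hf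
    have hf' : A2_form c (f : ι → K) = 0 := by
      have := congrArg Subtype.val hf
      exact this
    ext i
    by_cases hci : c i = 0
    · exact hc f f.2 i hci
    · have h1 : A2_form c (f : ι → K) (Pi.single i 1) = 0 := by rw [hf']; rfl
      have h2 : A2_form c (f : ι → K) (Pi.single i 1) = c i * (f : ι → K) i := by
        change ∑ j, c j * (f : ι → K) j * (Pi.single i (1 : K) : ι → K) j = _
        rw [Finset.sum_eq_single i]
        · rw [Pi.single_eq_same, mul_one]
        · intro j _ hj
          rw [Pi.single_eq_of_ne hj, mul_zero]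
        · intro hi
          exact absurd (Finset.mem_univ i) hi
      rw [h2] at h1
      rcases mul_eq_zero.mp h1 with h3 | h3
      · exact absurd h3 hci
      · exact h3
  have h1 := LinearMap.finrank_le_finrank_of_injective hT
  have h2 := Subspace.finrank_add_finrank_dualAnnihilator_eq Q
  rw [Module.finrank_fintype_fun_eq_card] at h2
  omega

end Pool.Agent.FermatLin
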