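import Pool.Agent.Lib.MP_a1cc03_ag.FL.A1
import Pool.Agent.Lib.MP_a1cc03_ag.FL.A2

/-! Row fer-A3. An isotropic subspace has dimension at most `card ι / 2`.

`exists_generic` gives `w`; `polar` with `l = [x, y]`: `∑ i w i ^ (d - 2) * (x i * y i) = 0` for `x, y ∈ W`; apply
`finrank_add_le` with `c = w ^ (d - 2)`, `P = Q = W` (if `c i = 0` then `w i = 0`, so `f i = 0`).

`isotropic_hyp`: if `v = vec i j r ∈ W` then `polar` with the vector `w := v` and `l = [x]` gives
`v i ^ (d-1) x i + v j ^ (d-1) x j = 0` (the other coordinates of `v` are 0, `d - 1 ≥ 1`), that is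
`x i + r ^ (d-1) x j = 0`; multiply by `r`: `r x i = x j`.
-/

namespace Pool.Agent.FermatLin

theorem isotropic_bound {ι K : Type} [Fintype ι] [Field K] [CharZero K] (d : ℕ) (hd : 2 ≤ d)
    (W : Submodule K (ι → K)) (hW : ∀ x ∈ W, ∑ i, x i ^ d = 0) : 2 * Module.finrank K W ≤ Fintype.card ι := by
  obtain ⟨w, hw, hgen⟩ := exists_generic W
  have h := finrank_add_le (fun i => w i ^ (d - 2)) W W (by
    intro f hf i hi
    exact hgen i (pow_eq_zero_iff (by
      intro h0
      simp only [h0, pow_zero] at hi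
      exact one_ne_zero hi) |>.mp hi) f hf) (by
    intro f hf g hg
    have := polar d W hW [f, g] (by simp [hf, hg]) (by simpa using hd) w hw
    simpa [mul_assoc] using this)
  omega

theorem isotropic_hyp {ι K : Type} [Fintype ι] [DecidableEq ι] [Field K] [CharZero K] (d : ℕ) (hd : 2 ≤ d)
    (W : Submodule K (ι → K)) (hW : ∀ x ∈ W, ∑ i, x i ^ d = 0) (i j : ι) (hij : i ≠ j) (r : K) (hr : r ^ d = -1)
    (hv : vec i j r ∈ W) (x : ι → K) (hx : x ∈ W) : x j = r * x i := by
  have h := polar d W hW [x] (by simp [hx]) (by simp; omega) (vec i j r) hv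
  simp only [List.length_singleton, List.map_cons, List.map_nil, List.prod_singleton] at h
  have hd1 : d - 1 ≠ 0 := by omega
  rw [Fintype.sum_eq_add i j hij (fun k hk => by
    simp [vec, Pi.single_eq_of_ne hk.1, Pi.single_eq_of_ne hk.2, hd1])] at h
  simp only [vec, Pi.add_apply, Pi.single_eq_same, Pi.single_eq_of_ne hij, Pi.single_eq_of_ne hij.symm, add_zero,
    zero_add, one_pow, one_mul] at h
  have e : r ^ d = r ^ (d - 1) * r := by
    rw [← pow_succ]; congr 1; omega
  have h2 : r * x i + (r ^ (d - 1) * r) * x j = 0 := by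
    have := congrArg (fun t => r * t) h
    simp only [mul_add, mul_zero] at this
    rw [← this]; ring
  rw [← e, hr] at h2
  have h3 : r * x i - x j = 0 := by rw [← h2]; ring
  exact (sub_eq_zero.mp h3).symm

end Pool.Agent.FermatLin
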