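import Pool.Agent.Lib.MP_a1cc03_ag.FL.A3

/-! Row fer-B1. `link [(i, j, r)]` maps linear subspaces of `X` of dimension `m - 1` to such subspaces.

Notation `v = vec i j r`, `H = spineHyp [(i, j, r)] = {x : x j = r * x i}`, `spineSpan [(i, j, r)] = K ∙ v`.
Isotropy: for `x ∈ H` and `t : K`, `∑ k (x k + t * v k) ^ d = ∑ k x k ^ d`: only `k = i, j` change, and
`(x i + t) ^ d + (r * x i + t * r) ^ d = (1 + r ^ d) (x i + t) ^ d = 0 = x i ^ d + (r * x i) ^ d`.
Dimension: if `v ∈ W` then `W ≤ H` (`isotropic_hyp`), so `link [(i,j,r)] W = W`. If `v ∉ W`: `W ≤ H` is impossible, since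
otherwise `W ⊔ K ∙ v` would be isotropic of dimension `m + 1` and `2 (m + 1) ≤ card ι` by `isotropic_bound`. So
`finrank (W ⊓ H) = m - 1` (`H` is the kernel of a linear form which is not 0 on `W`), and `v ∉ W ⊓ H`.
-/

namespace Pool.Agent.FermatLin

theorem spineSpan_singleton {ι K : Type} [Fintype ι] [DecidableEq ι] [Field K] (i j : ι) (r : K) :
    spineSpan [(i, j, r)] = Submodule.span K {vec i j r} := by
  unfold spineSpan
  congr 1
  ext v
  simp

theorem B1_vec_i {ι K : Type} [DecidableEq ι] [Field K] {i j : ι} (hij : i ≠ j) (r : K) :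
    vec i j r i = 1 := by
  simp [vec, hij]

theorem B1_vec_j {ι K : Type} [DecidableEq ι] [Field K] {i j : ι} (hij : i ≠ j) (r : K) :
    vec i j r j = r := by
  simp [vec, hij.symm]

theorem B1_vec_k {ι K : Type} [DecidableEq ι] [Field K] {i j k : ι} (hi : k ≠ i) (hj : k ≠ j) (r : K) :
    vec i j r k = 0 := by
  simp [vec, hi, hj]

theorem B1_vec_ne {ι K : Type} [DecidableEq ι] [Field K] {i j : ι} (hij : i ≠ j) (r : K) :
    vec i j r ≠ 0 := by
  intro h
  have := congrFun h i
  rw [B1_vec_i hij] at this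
  exact one_ne_zero this

theorem B1_mem_hyp {ι K : Type} [Fintype ι] [DecidableEq ι] [Field K] (i j : ι) (r : K) (x : ι → K) :
    x ∈ spineHyp [(i, j, r)] ↔ x j = r * x i := by
  constructor
  · intro h
    exact h (i, j, r) (by simp)
  · intro h p hp
    rw [List.mem_singleton] at hp
    subst hp
    exact h

theorem B1_sum {ι K : Type} [Fintype ι] [DecidableEq ι] [Field K] (d : ℕ) {i j : ι} (hij : i ≠ j)
    (r : K) (hr : r ^ d = -1) (x : ι → K) (hx : x j = r * x i) (t : K) :
    ∑ k, (x + t • vec i j r) k ^ d = ∑ k, x k ^ d := by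
  rw [← sub_eq_zero, ← Finset.sum_sub_distrib, Fintype.sum_eq_add i j hij]
  · simp only [Pi.add_apply, Pi.smul_apply, smul_eq_mul]
    rw [B1_vec_i hij, B1_vec_j hij, hx, show r * x i + t * r = r * (x i + t) by ring, mul_pow, mul_pow, hr]
    ring
  · intro k hk
    simp only [Pi.add_apply, Pi.smul_apply, smul_eq_mul]
    rw [B1_vec_k hk.1 hk.2]
    simp

theorem B1_iso {ι K : Type} [Fintype ι] [DecidableEq ι] [Field K] (d : ℕ) {i j : ι} (hij : i ≠ j)
    (r : K) (hr : r ^ d = -1) (P : Submodule K (ι → K)) (hP : ∀ x ∈ P, ∑ k, x k ^ d = 0)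
    (hH : ∀ x ∈ P, x j = r * x i) (x : ι → K) (hx : x ∈ P ⊔ Submodule.span K {vec i j r}) :
    ∑ k, x k ^ d = 0 := by
  obtain ⟨y, hy, v, hv, rfl⟩ := Submodule.mem_sup.mp hx
  obtain ⟨t, rfl⟩ := Submodule.mem_span_singleton.mp hv
  rw [B1_sum d hij r hr y (hH y hy) t]
  exact hP y hy

theorem B1_finrank {ι K : Type} [Fintype ι] [DecidableEq ι] [Field K] {i j : ι} (hij : i ≠ j)
    (r : K) (P : Submodule K (ι → K)) (hv : vec i j r ∉ P) :
    Module.finrank K ↥(P ⊔ Submodule.span K {vec i j r}) = Module.finrank K P + 1 := by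
  have h1 := Submodule.finrank_sup_add_finrank_inf_eq P (Submodule.span K {vec i j r})
  have h2 : P ⊓ Submodule.span K {vec i j r} = ⊥ :=
    disjoint_iff.mp ((Submodule.disjoint_span_singleton' (B1_vec_ne hij r)).mpr hv)
  rw [h2, finrank_bot, finrank_span_singleton (B1_vec_ne hij r)] at h1
  exact h1

/-- `W ≤ H` implies `v ∈ W` (otherwise `W ⊔ K ∙ v` is isotropic of dimension `m + 1`) -/
theorem vec_mem_of_le {ι K : Type} [Fintype ι] [DecidableEq ι] [Field K] [CharZero K] (d m : ℕ) (hd : 2 ≤ d)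
    (hcard : Fintype.card ι ≤ 2 * m + 1) (W : Submodule K (ι → K)) (hW : IsLin d m W) (i j : ι) (hij : i ≠ j)
    (r : K) (hr : r ^ d = -1) (h : ∀ x ∈ W, x j = r * x i) : vec i j r ∈ W := by
  by_contra hv
  have h1 := isotropic_bound d hd _ (B1_iso d hij r hr W hW.2 h)
  rw [B1_finrank hij r W hv, hW.1] at h1
  omega

theorem finrank_link_inf {ι K : Type} [Fintype ι] [DecidableEq ι] [Field K] [CharZero K] (d m : ℕ) (hd : 2 ≤ d)
    (hcard : Fintype.card ι ≤ 2 * m + 1) (W : Submodule K (ι → K)) (hW : IsLin d m W) (i j : ι) (hij : i ≠ j)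
    (r : K) (hr : r ^ d = -1) :
    (vec i j r ∈ W → link [(i, j, r)] W = W) ∧
    (vec i j r ∉ W → Module.finrank K ↥(W ⊓ spineHyp [(i, j, r)]) + 1 = m) := by
  constructor
  · intro hv
    have h1 : W ≤ spineHyp [(i, j, r)] := fun x hx => by
      rw [B1_mem_hyp]
      exact isotropic_hyp d hd W hW.2 i j hij r hr hv x hx
    rw [link, spineSpan_singleton, inf_eq_left.mpr h1, sup_eq_left, Submodule.span_singleton_le_iff_mem]
    exact hv
  · intro hv
    let f : (ι → K) →ₗ[K] K := LinearMap.proj j - r • LinearMap.proj i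
    have hf : LinearMap.ker f = spineHyp [(i, j, r)] := by
      ext x
      rw [LinearMap.mem_ker, B1_mem_hyp]
      simp only [f, LinearMap.sub_apply, LinearMap.smul_apply, LinearMap.proj_apply, smul_eq_mul]
      exact sub_eq_zero
    have hne : ∃ x ∈ W, f x ≠ 0 := by
      by_contra hcon
      push Not at hcon
      refine hv (vec_mem_of_le d m hd hcard W hW i j hij r hr fun x hx => ?_)
      rw [← B1_mem_hyp, ← hf, LinearMap.mem_ker]
      exact hcon x hx
    have h1 := LinearMap.finrank_range_add_finrank_ker (f.domRestrict W)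
    have h2 : LinearMap.range (f.domRestrict W) = ⊤ := by
      obtain ⟨x, hx, hfx⟩ := hne
      rw [eq_top_iff]
      intro c _
      refine ⟨(c / f x) • ⟨x, hx⟩, ?_⟩
      rw [map_smul, LinearMap.domRestrict_apply, smul_eq_mul]
      exact div_mul_cancel₀ _ hfx
    have h3 : Module.finrank K (LinearMap.ker (f.domRestrict W)) =
        Module.finrank K ↥(W ⊓ spineHyp [(i, j, r)]) := by
      have h4 : (LinearMap.ker (f.domRestrict W)).map W.subtype = W ⊓ spineHyp [(i, j, r)] := by
        rw [← hf]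
        ext x
        simp only [Submodule.mem_map, LinearMap.mem_ker, LinearMap.domRestrict_apply, Submodule.subtype_apply,
          Subtype.exists, Submodule.mem_inf, exists_and_left, exists_prop]
        constructor
        · rintro ⟨y, hy, hyW, rfl⟩
          exact ⟨hyW, hy⟩
        · rintro ⟨h5, h6⟩
          exact ⟨x, h6, h5, rfl⟩
      rw [← h4, Submodule.finrank_map_subtype_eq]
    rw [h2, finrank_top, Module.finrank_self, hW.1, h3] at h1
    omega

theorem isLin_link {ι K : Type} [Fintype ι] [DecidableEq ι] [Field K] [CharZero K] (d m : ℕ) (hd : 2 ≤ d)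
    (hcard : Fintype.card ι ≤ 2 * m + 1) (W : Submodule K (ι → K)) (hW : IsLin d m W) (i j : ι) (hij : i ≠ j)
    (r : K) (hr : r ^ d = -1) : IsLin d m (link [(i, j, r)] W) := by
  obtain ⟨h1, h2⟩ := finrank_link_inf d m hd hcard W hW i j hij r hr
  by_cases hv : vec i j r ∈ W
  · rw [h1 hv]; exact hW
  · have h3 := h2 hv
    constructor
    · rw [link, spineSpan_singleton, B1_finrank hij r (W ⊓ spineHyp [(i, j, r)]) (fun h => hv h.1), h3]
    · intro x hx
      rw [link, spineSpan_singleton] at hx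
      exact B1_iso d hij r hr (W ⊓ spineHyp [(i, j, r)]) (fun y hy => hW.2 y hy.1)
        (fun y hy => (B1_mem_hyp i j r y).mp hy.2) x hx

end Pool.Agent.FermatLin
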