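import Pool.Agent.Lib.MP_a1cc03_ag.FL.Base

/-! Row fer-B2. `link` and `proj` for a list are iterations (pure linear algebra, no isotropy).

`p = (i, j, r)`, `v = vec i j r`, `M = spineSpan l`, `H = spineHyp l`, `H_v = spineHyp [p]`. Since the pairs are disjoint,
`v ∈ H` (the coordinates of `v` used by `l` are 0), `v ∈ H_v`, `M ≤ H_v`, and `v ∉ M` (the coordinate `i` vanishes on `M`).
`spineSpan (p :: l) = K ∙ v ⊔ M`, `spineHyp (p :: l) = H_v ⊓ H`.

`link_cons`: `link l (link [p] W) = (((W ⊓ H_v) ⊔ K∙v) ⊓ H) ⊔ M = ((W ⊓ H_v ⊓ H) ⊔ K∙v) ⊔ M` by the modular law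
(`K∙v ≤ H`: `sup_inf_assoc_of_le` or `IsModularLattice`).

`finrank_cons`: put `W' = W ⊓ H_v`. `W ⊓ (K∙v ⊔ M) = W' ⊓ (K∙v ⊔ M)` because `K∙v ⊔ M ≤ H_v`. By the modular law
`(W' ⊓ (K∙v ⊔ M)) ⊔ K∙v = (W' ⊔ K∙v) ⊓ (K∙v ⊔ M) = ((W' ⊔ K∙v) ⊓ M) ⊔ K∙v`. Dimensions: the left side has dimension
`finrank (W' ⊓ (K∙v ⊔ M)) + [v ∉ W']`, the right side `finrank ((W' ⊔ K∙v) ⊓ M) + 1` (`v ∉ M`). And `v ∈ W'` iff `v ∈ W`
(`v ∈ H_v`), `finrank (W ⊓ spineSpan [p]) = [v ∈ W]` (`v ≠ 0`).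

`proj_cons`: write both sides as sums over `z`; the exponents add by `finrank_cons`. (`proj_add`, `proj_single` first.)
-/

namespace Pool.Agent.FermatLin

variable {ι K : Type} [Fintype ι] [DecidableEq ι] [Field K]

theorem proj_zero (d : ℕ) (l : List (ι × ι × K)) : proj d l (0 : Cyc ι K) = 0 := by
  unfold proj
  exact Finsupp.sum_zero_index

theorem proj_add (d : ℕ) (l : List (ι × ι × K)) (y z : Cyc ι K) : proj d l (y + z) = proj d l y + proj d l z := by
  unfold proj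
  apply Finsupp.sum_add_index'
  · intro W; simp
  · intro W a b; rw [add_mul, Finsupp.single_add]

theorem proj_single (d : ℕ) (l : List (ι × ι × K)) (W : Submodule K (ι → K)) (c : ℤ) :
    proj d l (Finsupp.single W c) =
      Finsupp.single (link l W) (c * (1 - (d : ℤ)) ^ Module.finrank K ↥(W ⊓ spineSpan l)) := by
  unfold proj
  rw [Finsupp.sum_single_index]
  simp

theorem B2_span_single (p : ι × ι × K) : spineSpan [p] = Submodule.span K {vec p.1 p.2.1 p.2.2} := by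
  unfold spineSpan
  congr 1
  ext v
  simp

theorem B2_span_cons (p : ι × ι × K) (l : List (ι × ι × K)) :
    spineSpan (p :: l) = Submodule.span K {vec p.1 p.2.1 p.2.2} ⊔ spineSpan l := by
  unfold spineSpan
  rw [← Submodule.span_union]
  congr 1
  ext v
  simp

theorem B2_hyp_cons (p : ι × ι × K) (l : List (ι × ι × K)) :
    (spineHyp (p :: l) : Submodule K (ι → K)) = spineHyp [p] ⊓ spineHyp l := by
  ext x
  simp [spineHyp, Submodule.mem_inf]

theorem B2_vec_fst (p : ι × ι × K) (hij : p.1 ≠ p.2.1) : vec p.1 p.2.1 p.2.2 p.1 = 1 := by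
  simp [vec, hij]

theorem B2_vec_snd (p : ι × ι × K) (hij : p.1 ≠ p.2.1) : vec p.1 p.2.1 p.2.2 p.2.1 = p.2.2 := by
  simp [vec, hij.symm]

theorem B2_vec_other (p : ι × ι × K) (k : ι) (h1 : p.1 ≠ k) (h2 : p.2.1 ≠ k) : vec p.1 p.2.1 p.2.2 k = 0 := by
  simp [vec, h1.symm, h2.symm]

theorem B2_vec_mem_hyp_self (p : ι × ι × K) (hij : p.1 ≠ p.2.1) :
    vec p.1 p.2.1 p.2.2 ∈ (spineHyp [p] : Submodule K (ι → K)) := by
  intro q hq
  rw [List.mem_singleton] at hq
  subst hq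
  rw [B2_vec_fst q hij, B2_vec_snd q hij, mul_one]

theorem B2_vec_mem_hyp (d : ℕ) (p : ι × ι × K) (l : List (ι × ι × K)) (hs : IsSpine d (p :: l)) :
    vec p.1 p.2.1 p.2.2 ∈ (spineHyp l : Submodule K (ι → K)) := by
  intro q hq
  have h := (List.pairwise_cons.mp hs.2).1 q hq
  rw [B2_vec_other p q.2.1 h.2.1 h.2.2.2, B2_vec_other p q.1 h.1 h.2.2.1, mul_zero]

/-- coordinates of the elements of the span of l -/
theorem B2_span_coord (l : List (ι × ι × K)) (k : ι) (hk : ∀ q ∈ l, q.1 ≠ k ∧ q.2.1 ≠ k) (x : ι → K)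
    (hx : x ∈ spineSpan l) : x k = 0 := by
  unfold spineSpan at hx
  induction hx using Submodule.span_induction with
  | mem x h =>
    obtain ⟨q, hq, rfl⟩ := h
    exact B2_vec_other q k (hk q hq).1 (hk q hq).2
  | zero => rfl
  | add x y _ _ h1 h2 => rw [Pi.add_apply, h1, h2, add_zero]
  | smul a x _ h => rw [Pi.smul_apply, h, smul_zero]

theorem B2_span_fst (d : ℕ) (p : ι × ι × K) (l : List (ι × ι × K)) (hs : IsSpine d (p :: l)) (x : ι → K)
    (hx : x ∈ spineSpan l) : x p.1 = 0 ∧ x p.2.1 = 0 := by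
  have h := (List.pairwise_cons.mp hs.2).1
  exact ⟨B2_span_coord l p.1 (fun q hq => ⟨(h q hq).1.symm, (h q hq).2.1.symm⟩) x hx,
    B2_span_coord l p.2.1 (fun q hq => ⟨(h q hq).2.2.1.symm, (h q hq).2.2.2.symm⟩) x hx⟩

theorem B2_span_le_hyp (d : ℕ) (p : ι × ι × K) (l : List (ι × ι × K)) (hs : IsSpine d (p :: l)) :
    (spineSpan l : Submodule K (ι → K)) ≤ spineHyp [p] := by
  intro x hx q hq
  rw [List.mem_singleton] at hq
  subst hq
  have h := B2_span_fst d q l hs x hx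
  rw [h.1, h.2, mul_zero]

theorem B2_vec_not_mem (d : ℕ) (p : ι × ι × K) (l : List (ι × ι × K)) (hs : IsSpine d (p :: l)) :
    vec p.1 p.2.1 p.2.2 ∉ (spineSpan l : Submodule K (ι → K)) := by
  intro hx
  have h := (B2_span_fst d p l hs _ hx).1
  rw [B2_vec_fst p (hs.1 p (by simp)).1] at h
  exact one_ne_zero h

theorem B2_vec_ne_zero (p : ι × ι × K) (hij : p.1 ≠ p.2.1) : vec p.1 p.2.1 p.2.2 ≠ (0 : ι → K) := by
  intro h
  have := congrFun h p.1
  rw [B2_vec_fst p hij] at this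
  exact one_ne_zero this

theorem B2_inf_bot (d : ℕ) (p : ι × ι × K) (l : List (ι × ι × K)) (hs : IsSpine d (p :: l))
    (Y : Submodule K (ι → K)) (hY : Y ≤ spineSpan l) :
    Submodule.span K {vec p.1 p.2.1 p.2.2} ⊓ Y = ⊥ := by
  rw [eq_bot_iff]
  intro x hx
  rw [Submodule.mem_inf, Submodule.mem_span_singleton] at hx
  obtain ⟨⟨a, rfl⟩, hx2⟩ := hx
  rw [Submodule.mem_bot]
  by_cases ha : a = 0
  · rw [ha, zero_smul]
  · exfalso
    have := (Submodule.smul_mem_iff _ ha).mp (hY hx2)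
    exact B2_vec_not_mem d p l hs this

theorem link_cons (d : ℕ) (p : ι × ι × K) (l : List (ι × ι × K)) (hs : IsSpine d (p :: l))
    (W : Submodule K (ι → K)) : link (p :: l) W = link l (link [p] W) := by
  unfold link
  rw [B2_span_cons, B2_hyp_cons, B2_span_single]
  have h1 : Submodule.span K {vec p.1 p.2.1 p.2.2} ≤ (spineHyp l : Submodule K (ι → K)) := by
    rw [Submodule.span_singleton_le_iff_mem]
    exact B2_vec_mem_hyp d p l hs
  have h2 : (W ⊓ spineHyp [p] ⊔ Submodule.span K {vec p.1 p.2.1 p.2.2}) ⊓ spineHyp l =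
      Submodule.span K {vec p.1 p.2.1 p.2.2} ⊔ (W ⊓ spineHyp [p]) ⊓ spineHyp l := by
    rw [sup_comm (W ⊓ spineHyp [p]), sup_inf_assoc_of_le _ h1]
  rw [h2, inf_assoc, sup_comm (Submodule.span K {vec p.1 p.2.1 p.2.2}) (W ⊓ _), sup_assoc]

theorem finrank_cons (d : ℕ) (p : ι × ι × K) (l : List (ι × ι × K)) (hs : IsSpine d (p :: l))
    (W : Submodule K (ι → K)) : Module.finrank K ↥(W ⊓ spineSpan (p :: l)) =
      Module.finrank K ↥(link [p] W ⊓ spineSpan l) + Module.finrank K ↥(W ⊓ spineSpan [p]) := by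
  have hij : p.1 ≠ p.2.1 := (hs.1 p (by simp)).1
  unfold link
  rw [B2_span_cons, B2_span_single]
  set V : Submodule K (ι → K) := Submodule.span K {vec p.1 p.2.1 p.2.2} with hV
  set M : Submodule K (ι → K) := spineSpan l with hM
  set H : Submodule K (ι → K) := spineHyp [p] with hH
  have hVH : V ≤ H := by
    rw [hV, Submodule.span_singleton_le_iff_mem]
    exact B2_vec_mem_hyp_self p hij
  have hMH : M ≤ H := B2_span_le_hyp d p l hs
  have e1 : W ⊓ (V ⊔ M) = (W ⊓ H) ⊓ (V ⊔ M) := by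
    rw [inf_assoc, inf_eq_right.mpr (sup_le hVH hMH)]
  have e2 : V ⊔ (W ⊓ H) ⊓ (V ⊔ M) = V ⊔ (W ⊓ H ⊔ V) ⊓ M := by
    rw [← sup_inf_assoc_of_le _ (le_sup_left : V ≤ V ⊔ M), inf_comm, sup_inf_assoc_of_le _ (le_sup_left : V ≤ V ⊔ W ⊓ H),
      inf_comm M, sup_comm V (W ⊓ H)]
  have e3 : V ⊓ ((W ⊓ H) ⊓ (V ⊔ M)) = W ⊓ V := by
    rw [← e1, ← inf_assoc, inf_comm V W, inf_assoc, inf_eq_left.mpr (le_sup_left : V ≤ V ⊔ M)]
  have e4 : V ⊓ ((W ⊓ H ⊔ V) ⊓ M) = ⊥ := B2_inf_bot d p l hs _ inf_le_right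
  have f1 := Submodule.finrank_sup_add_finrank_inf_eq V ((W ⊓ H) ⊓ (V ⊔ M))
  have f2 := Submodule.finrank_sup_add_finrank_inf_eq V ((W ⊓ H ⊔ V) ⊓ M)
  rw [e3, e2] at f1
  rw [e4, finrank_bot] at f2
  rw [e1]
  omega

theorem proj_cons (d : ℕ) (p : ι × ι × K) (l : List (ι × ι × K)) (hs : IsSpine d (p :: l)) (z : Cyc ι K) :
    proj d (p :: l) z = proj d l (proj d [p] z) := by
  induction z using Finsupp.induction_linear with
  | zero => rw [proj_zero, proj_zero, proj_zero]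
  | add y z hy hz => rw [proj_add, proj_add, proj_add, hy, hz]
  | single W c =>
    rw [proj_single, proj_single, proj_single, link_cons d p l hs, finrank_cons d p l hs, pow_add]
    congr 1
    ring

/-- the spine vectors are linearly independent and span an isotropic space -/
theorem isLin_spineSpan (d : ℕ) (hd : 0 < d) (l : List (ι × ι × K)) (hs : IsSpine d l) :
    IsLin d l.length (spineSpan l) := by
  induction l with
  | nil =>
    have h : spineSpan ([] : List (ι × ι × K)) = ⊥ := by simp [spineSpan]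
    rw [h]
    refine ⟨by simp, ?_⟩
    intro x hx
    rw [Submodule.mem_bot] at hx
    subst hx
    simp [hd.ne']
  | cons p l ih =>
    have hs' : IsSpine d l := ⟨fun q hq => hs.1 q (List.mem_cons_of_mem _ hq), (List.pairwise_cons.mp hs.2).2⟩
    have hp := hs.1 p (by simp)
    obtain ⟨ih1, ih2⟩ := ih hs'
    rw [B2_span_cons]
    constructor
    · have f := Submodule.finrank_sup_add_finrank_inf_eq (Submodule.span K {vec p.1 p.2.1 p.2.2}) (spineSpan l)
      rw [B2_inf_bot d p l hs _ le_rfl, finrank_bot, finrank_span_singleton (B2_vec_ne_zero p hp.1), ih1] at f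
      rw [List.length_cons]
      omega
    · intro x hx
      rw [Submodule.mem_sup] at hx
      obtain ⟨y, hy, z, hz, rfl⟩ := hx
      rw [Submodule.mem_span_singleton] at hy
      obtain ⟨t, rfl⟩ := hy
      have hz0 := B2_span_fst d p l hs z hz
      have key : ∀ k, (t • vec p.1 p.2.1 p.2.2 + z) k ^ d = (t * vec p.1 p.2.1 p.2.2 k) ^ d + z k ^ d := by
        intro k
        by_cases h1 : p.1 = k
        · rw [← h1]; simp [hz0.1, hd.ne']
        · by_cases h2 : p.2.1 = k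
          · rw [← h2]; simp [hz0.2, hd.ne']
          · simp [B2_vec_other p k h1 h2, hd.ne']
      rw [Finset.sum_congr rfl (fun k _ => key k), Finset.sum_add_distrib, ih2 z hz, add_zero]
      have h3 : ∀ k ∈ Finset.univ, k ∉ ({p.1, p.2.1} : Finset ι) → (t * vec p.1 p.2.1 p.2.2 k) ^ d = 0 := by
        intro k _ hk
        simp only [Finset.mem_insert, Finset.mem_singleton, not_or] at hk
        rw [B2_vec_other p k (Ne.symm hk.1) (Ne.symm hk.2), mul_zero, zero_pow hd.ne']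
      rw [← Finset.sum_subset (Finset.subset_univ ({p.1, p.2.1} : Finset ι)) h3, Finset.sum_pair hp.1,
        B2_vec_fst p hp.1, B2_vec_snd p hp.1, mul_one, mul_pow, hp.2]
      ring

end Pool.Agent.FermatLin
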