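import Pool.Agent.Lib.MP_a1cc03_ag.FL.Defs

/-! Auxiliary definitions (not in the statement of the theorem). -/

noncomputable section

namespace Pool.Agent.FermatLin

variable {ι K : Type} [Fintype ι] [Field K]

/-- the group generated by the complete intersections and the family relations -/
def Big (ι K : Type) [Fintype ι] [Field K] (d m : ℕ) : AddSubgroup (Cyc ι K) :=
  AddSubgroup.closure ({z | ∃ a S, IsCI d m a S ∧ z = cyc S} ∪ {z | IsFamRel d m z})

/-- the action of a diagonal matrix on cycles -/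
def act (c : ι → K) (z : Cyc ι K) : Cyc ι K :=
  z.mapDomain fun W => W.map (LinearMap.mulLeft K c)

variable [DecidableEq ι]

/-- the diagonal matrix with entries g at i and j and 1 elsewhere -/
def pairScale (i j : ι) (g : K) : ι → K := fun k => if k = i ∨ k = j then g else 1

/-- sum over the d-th roots of unity g of the translates by pairScale i j g -/
def dsum (d : ℕ) (i j : ι) (z : Cyc ι K) : Cyc ι K :=
  ∑ g ∈ Polynomial.nthRootsFinset d (1 : K), act (pairScale i j g) z

/-- sum over the d-th roots r of -1 of proj d [(i, j, r)] -/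
def tsum_ (d : ℕ) (i j : ι) (z : Cyc ι K) : Cyc ι K :=
  ∑ r ∈ Polynomial.nthRootsFinset d (-1 : K), proj d [(i, j, r)] z

def dlist (d : ℕ) : List (ι × ι) → Cyc ι K → Cyc ι K
  | [], z => z
  | e :: l, z => dlist d l (dsum d e.1 e.2 z)

def tlist (d : ℕ) : List (ι × ι) → Cyc ι K → Cyc ι K
  | [], z => z
  | e :: l, z => tlist d l (tsum_ d e.1 e.2 z)

/-- list of disjoint pairs -/
def IsPairs (l : List (ι × ι)) : Prop :=
  (∀ e ∈ l, e.1 ≠ e.2) ∧ l.Pairwise fun p q => p.1 ≠ q.1 ∧ p.1 ≠ q.2 ∧ p.2 ≠ q.1 ∧ p.2 ≠ q.2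

end Pool.Agent.FermatLin
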