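import Pool.Agent.Lib.MP_a1cc03_ag.FL.Base

/-! Row fer-C1. The plane sections.

`card_nthRoots`: `X ^ d - C c` has `d` distinct roots (`K` algebraically closed of characteristic 0, `c ≠ 0`, `0 < d`).

`isCI_one`: put `U r = O ⊔ span {a + r • b}`, `S` = image of `nthRootsFinset d (-1)` under `U` (classical decidability),
`Λ = O ⊔ span {a, b}`, `k = 0` (no polynomials, empty product 1). `Λ` has dimension `finrank O + 2`.
`U` is injective on the roots: if `U r = U r'` and `r ≠ r'`, then `U r` contains `(r - r') • b`, so `b`, `a` and hence `Λ`,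
but `finrank (U r) ≤ finrank O + 1 = m`. For the same reason `finrank (U r) = m` (`Λ = U r ⊔ span {b}` has dimension
`m + 1`). Every `x ∈ Λ` is `s • a + t • b + o`; it is isotropic iff `s ^ d + t ^ d = 0` (`hF`, `c ≠ 0`): if `s ≠ 0`
then `r = t / s` is a root of `-1` and `x ∈ U r`; if `s = 0` then `t = 0` and `x = o ∈ U r` for every root `r` (there
is one).
-/

namespace Pool.Agent.FermatLin

theorem card_nthRoots {K : Type} [Field K] [IsAlgClosed K] [CharZero K] (d : ℕ) (hd : 0 < d) (c : K)
    (hc : c ≠ 0) : (Polynomial.nthRootsFinset d c).card = d := by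
  classical
  rw [Polynomial.nthRootsFinset_def, Polynomial.nthRoots]
  have hsep : (Polynomial.X ^ d - Polynomial.C c : Polynomial K).Separable :=
    Polynomial.separable_X_pow_sub_C c (by exact_mod_cast hd.ne') hc
  rw [Multiset.toFinset_card_of_nodup (Polynomial.nodup_roots hsep)]
  rw [← (IsAlgClosed.splits (Polynomial.X ^ d - Polynomial.C c : Polynomial K)).natDegree_eq_card_roots]
  exact Polynomial.natDegree_X_pow_sub_C

theorem C1_finrank_span_le {ι K : Type} [Fintype ι] [Field K] (v : ι → K) :
    Module.finrank K ↥(Submodule.span K {v}) ≤ 1 := by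
  by_cases hv : v = 0
  · subst hv
    rw [Submodule.span_zero_singleton, finrank_bot]
    exact Nat.zero_le _
  · rw [finrank_span_singleton hv]

theorem C1_finrank_sup_le {ι K : Type} [Fintype ι] [Field K] (O : Submodule K (ι → K)) (v : ι → K) :
    Module.finrank K ↥(O ⊔ Submodule.span K {v}) ≤ Module.finrank K O + 1 :=
  (Submodule.finrank_add_le_finrank_add_finrank _ _).trans (Nat.add_le_add_left (C1_finrank_span_le v) _)

theorem isCI_one {ι K : Type} [Fintype ι] [Field K] [IsAlgClosed K] [CharZero K] (d m : ℕ) (hd : 0 < d)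
    (O : Submodule K (ι → K)) (a b : ι → K) (hO : Module.finrank K O + 1 = m)
    (hdim : Module.finrank K ↥(O ⊔ Submodule.span K {a, b}) = m + 1) (c : K) (hc : c ≠ 0)
    (hF : ∀ o ∈ O, ∀ s t : K, ∑ i, (s • a + t • b + o) i ^ d = c * (s ^ d + t ^ d)) :
    ∃ S, IsCI d m 1 S ∧ cyc S =
      ∑ r ∈ Polynomial.nthRootsFinset d (-1 : K), Finsupp.single (O ⊔ Submodule.span K {a + r • b}) 1 := by
  classical
  have hle : ∀ r : K, Module.finrank K ↥(O ⊔ Submodule.span K {a + r • b}) ≤ m := fun r => by
    rw [← hO]; exact C1_finrank_sup_le O _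
  have hvU : ∀ r : K, a + r • b ∈ O ⊔ Submodule.span K {a + r • b} := fun r =>
    Submodule.mem_sup_right (Submodule.mem_span_singleton_self _)
  -- a subspace containing O, a and b has dimension at least m + 1
  have hbig : ∀ V : Submodule K (ι → K), O ≤ V → a ∈ V → b ∈ V → m + 1 ≤ Module.finrank K V := by
    intro V h1 h2 h3
    rw [← hdim]
    apply Submodule.finrank_mono
    refine sup_le h1 (Submodule.span_le.mpr ?_)
    rintro x (rfl | rfl)
    · exact h2
    · exact h3
  have heq : ∀ r : K, Module.finrank K ↥(O ⊔ Submodule.span K {a + r • b}) = m := by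
    intro r
    apply le_antisymm (hle r)
    have h1 := hbig ((O ⊔ Submodule.span K {a + r • b}) ⊔ Submodule.span K {b})
      (le_sup_left.trans le_sup_left) ?_ (Submodule.mem_sup_right (Submodule.mem_span_singleton_self _))
    · have h2 := C1_finrank_sup_le (O ⊔ Submodule.span K {a + r • b}) b
      omega
    · have h3 : (a + r • b) + (-r) • b = a := by rw [neg_smul]; abel
      have h4 : (a + r • b) + (-r) • b ∈ (O ⊔ Submodule.span K {a + r • b}) ⊔ Submodule.span K {b} :=
        Submodule.add_mem _ (Submodule.mem_sup_left (hvU r))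
          (Submodule.smul_mem _ _ (Submodule.mem_sup_right (Submodule.mem_span_singleton_self _)))
      rwa [h3] at h4
  have hinj : ∀ r r' : K, O ⊔ Submodule.span K {a + r • b} = O ⊔ Submodule.span K {a + r' • b} → r = r' := by
    intro r r' h
    by_contra hne
    have h1 := hvU r
    have h2 := hvU r'
    rw [← h] at h2
    have hb : b ∈ O ⊔ Submodule.span K {a + r • b} := by
      have h3 : (r - r') • b ∈ O ⊔ Submodule.span K {a + r • b} := by
        have := Submodule.sub_mem _ h1 h2
        have e : (a + r • b) - (a + r' • b) = (r - r') • b := by rw [sub_smul]; abel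
        rwa [e] at this
      have h4 := Submodule.smul_mem _ (r - r')⁻¹ h3
      rwa [smul_smul, inv_mul_cancel₀ (sub_ne_zero.mpr hne), one_smul] at h4
    have ha : a ∈ O ⊔ Submodule.span K {a + r • b} := by
      have := Submodule.sub_mem _ h1 (Submodule.smul_mem _ r hb)
      rwa [add_sub_cancel_right] at this
    have := hbig _ le_sup_left ha hb
    have := hle r
    omega
  have hroot : ∀ r ∈ Polynomial.nthRootsFinset d (-1 : K), r ^ d = -1 := fun r hr =>
    (Polynomial.mem_nthRootsFinset hd _).mp hr
  have hiso : ∀ r ∈ Polynomial.nthRootsFinset d (-1 : K), ∀ x ∈ O ⊔ Submodule.span K {a + r • b},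
      ∑ i, x i ^ d = 0 := by
    intro r hr x hx
    obtain ⟨o, ho, y, hy, rfl⟩ := Submodule.mem_sup.mp hx
    obtain ⟨s, rfl⟩ := Submodule.mem_span_singleton.mp hy
    have e : o + s • (a + r • b) = s • a + (s * r) • b + o := by rw [smul_add, smul_smul]; abel
    rw [e, hF o ho, mul_pow, hroot r hr]
    ring
  refine ⟨(Polynomial.nthRootsFinset d (-1 : K)).image fun r => O ⊔ Submodule.span K {a + r • b}, ⟨?_, ?_, ?_⟩, ?_⟩
  · intro W hW
    obtain ⟨r, hr, rfl⟩ := Finset.mem_image.mp hW
    exact ⟨heq r, hiso r hr⟩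
  · rw [Finset.card_image_of_injective _ (fun r r' h => hinj r r' h), mul_one]
    exact card_nthRoots d hd (-1) (neg_ne_zero.mpr one_ne_zero)
  · refine ⟨0, O ⊔ Submodule.span K {a, b}, Fin.elim0, Fin.elim0, by rw [hdim], fun t => t.elim0, by simp, ?_⟩
    intro x
    constructor
    · rintro ⟨hx, h0, -⟩
      obtain ⟨o, ho, y, hy, rfl⟩ := Submodule.mem_sup.mp hx
      obtain ⟨s, t, rfl⟩ := Submodule.mem_span_pair.mp hy
      have e : o + (s • a + t • b) = s • a + t • b + o := by abel
      rw [e, hF o ho] at h0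
      have h1 : s ^ d + t ^ d = 0 := (mul_eq_zero.mp h0).resolve_left hc
      by_cases hs : s = 0
      · subst hs
        rw [zero_pow hd.ne', zero_add] at h1
        have ht : t = 0 := pow_eq_zero_iff hd.ne' |>.mp h1
        subst ht
        have hne : (Polynomial.nthRootsFinset d (-1 : K)).Nonempty := by
          rw [← Finset.card_pos, card_nthRoots d hd (-1) (neg_ne_zero.mpr one_ne_zero)]
          exact hd
        obtain ⟨r, hr⟩ := hne
        refine ⟨_, Finset.mem_image_of_mem _ hr, ?_⟩
        simp only [zero_smul, add_zero]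
        exact Submodule.mem_sup_left ho
      · have hr : t / s ∈ Polynomial.nthRootsFinset d (-1 : K) := by
          rw [Polynomial.mem_nthRootsFinset hd, div_pow, div_eq_iff (pow_ne_zero _ hs)]
          linear_combination h1
        refine ⟨_, Finset.mem_image_of_mem _ hr, ?_⟩
        refine Submodule.add_mem _ (Submodule.mem_sup_left ho) (Submodule.mem_sup_right ?_)
        refine Submodule.mem_span_singleton.mpr ⟨s, ?_⟩
        rw [smul_add, smul_smul, mul_div_cancel₀ t hs]
    · rintro ⟨W, hW, hx⟩
      obtain ⟨r, hr, rfl⟩ := Finset.mem_image.mp hW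
      refine ⟨?_, hiso r hr x hx, fun t => t.elim0⟩
      refine (sup_le le_sup_left ?_ : O ⊔ Submodule.span K {a + r • b} ≤ O ⊔ Submodule.span K {a, b}) hx
      rw [Submodule.span_singleton_le_iff_mem]
      exact Submodule.mem_sup_right (Submodule.mem_span_pair.mpr ⟨1, r, by rw [one_smul]⟩)
  · unfold cyc
    rw [Finset.sum_image (fun r _ r' _ h => hinj r r' h)]

end Pool.Agent.FermatLin
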