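import Pool.Agent.Lib.MP_a1cc03_ag.FL.C1

/-! Row fer-C2. The quadric sections.

`exists_forms`: dual forms. (`O ⊔ span {a, a', b, b'}` has dimension `finrank O + 4`, so the classes of the four vectors
in `V / O` are linearly independent; extend the dual family from their span to `V / O` and pull back to `V`.)

`poly_of_form`: `∑ i, C (φ (Pi.single i 1)) * X i`.

`isCI_two`: put `P g = O ⊔ span {g • a + a', g • b + b'}` for `g ^ d = 1`, `Q r = O ⊔ span {a + r • b, a' + r • b'}` for
`r ^ d = -1`, `Λ = O ⊔ span {a, a', b, b'}`, `k = 1`, `A = φ_a * φ_b' - φ_a' * φ_b` (homogeneous of degree 2), so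
`A (s•a + s'•a' + t•b + t'•b' + o) = s * t' - s' * t`. Every `x ∈ Λ` is `s•a + s'•a' + t•b + t'•b' + o`; it is isotropic iff
`s^d + t^d = s'^d + t'^d`. If moreover `s t' = s' t`: if `s' ≠ 0`, put `g = s / s'`, then `t = g t'` and
`g^d (s'^d + t'^d) = s'^d + t'^d`: either `g^d = 1` and `x ∈ P g`, or `s'^d + t'^d = 0`, `t' = r s'`, `r^d = -1`,
`t = g t' = r s` and `x ∈ Q r`. If `s' = 0` and `s ≠ 0`: `t' = 0`, `s^d + t^d = 0`, `x ∈ Q r` with `r = t / s`. If `s = s' = 0`:
`t^d = t'^d`, `t = g t'` with `g^d = 1` (`g = 1` if `t' = 0`), `x ∈ P g`. Conversely the elements of `P g`, `Q r` satisfy the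
equations. The `2 d` spaces have dimension `m` and are different: use the forms `φ` to see it (`P g ∩ span {a, b, ..}`:
e.g. the element `g • a + a'` of `P g` lies in `P g'` iff `g = g'`, and in no `Q r`: its coordinates are
`(s, s', t, t') = (g, 1, 0, 0)` and on `Q r` one has `t = r s`, `r ≠ 0`; `a + r • b ∈ Q r'` iff `r = r'`). So
`S` = image of the `P g` ∪ image of the `Q r` has `2 d` elements (`card_nthRoots`).
-/

namespace Pool.Agent.FermatLin

theorem C2_finrank_pair {ι K : Type} [Fintype ι] [Field K] (u v : ι → K) :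
    Module.finrank K ↥(Submodule.span K {u, v}) ≤ 2 := by
  classical
  have h := finrank_span_finset_le_card (R := K) ({u, v} : Finset (ι → K))
  have h2 : (({u, v} : Finset (ι → K)) : Set (ι → K)) = {u, v} := by simp
  rw [h2] at h
  exact h.trans Finset.card_le_two

theorem C2_finrank_sup {ι K : Type} [Fintype ι] [Field K] (V : Submodule K (ι → K)) (u v : ι → K) :
    Module.finrank K ↥(V ⊔ Submodule.span K {u, v}) ≤ Module.finrank K V + 2 :=
  (Submodule.finrank_add_le_finrank_add_finrank _ _).trans (Nat.add_le_add_left (C2_finrank_pair u v) _)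

theorem C2_finrank_map {ι K : Type} [Fintype ι] [Field K] (O U : Submodule K (ι → K)) (h : O ≤ U) :
    Module.finrank K ↥(U.map O.mkQ) + Module.finrank K O = Module.finrank K U := by
  have h1 := LinearMap.finrank_range_add_finrank_ker (O.mkQ.domRestrict U)
  rw [LinearMap.range_domRestrict] at h1
  have h2 : Module.finrank K ↥(LinearMap.ker (O.mkQ.domRestrict U)) = Module.finrank K O := by
    rw [LinearMap.ker_domRestrict, Submodule.ker_mkQ]
    exact (Submodule.submoduleOfEquivOfLe h).finrank_eq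
  rw [h2] at h1
  exact h1

theorem exists_forms {ι K : Type} [Fintype ι] [Field K] (O : Submodule K (ι → K)) (a a' b b' : ι → K)
    (hdim : Module.finrank K ↥(O ⊔ Submodule.span K {a, a', b, b'}) = Module.finrank K O + 4) :
    ∃ f f' g g' : (ι → K) →ₗ[K] K,
      (∀ o ∈ O, f o = 0 ∧ f' o = 0 ∧ g o = 0 ∧ g' o = 0) ∧
      (f a = 1 ∧ f a' = 0 ∧ f b = 0 ∧ f b' = 0) ∧ (f' a = 0 ∧ f' a' = 1 ∧ f' b = 0 ∧ f' b' = 0) ∧
      (g a = 0 ∧ g a' = 0 ∧ g b = 1 ∧ g b' = 0) ∧ (g' a = 0 ∧ g' a' = 0 ∧ g' b = 0 ∧ g' b' = 1) := by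
  classical
  set w : Fin 4 → ((ι → K) ⧸ O) := ![O.mkQ a, O.mkQ a', O.mkQ b, O.mkQ b'] with hw
  have hrange : Submodule.span K (Set.range w) =
      (O ⊔ Submodule.span K {a, a', b, b'}).map O.mkQ := by
    rw [Submodule.map_sup, Submodule.map_span]
    have h0 : O.map O.mkQ = ⊥ := by
      rw [eq_bot_iff]
      rintro _ ⟨x, hx, rfl⟩
      rw [Submodule.mem_bot, Submodule.mkQ_apply, Submodule.Quotient.mk_eq_zero]
      exact hx
    rw [h0, bot_sup_eq]
    congr 1
    ext y
    simp only [hw, Set.mem_range, Set.mem_image, Set.mem_insert_iff, Set.mem_singleton_iff]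
    constructor
    · rintro ⟨i, rfl⟩
      fin_cases i
      · exact ⟨a, Or.inl rfl, rfl⟩
      · exact ⟨a', Or.inr (Or.inl rfl), rfl⟩
      · exact ⟨b, Or.inr (Or.inr (Or.inl rfl)), rfl⟩
      · exact ⟨b', Or.inr (Or.inr (Or.inr rfl)), rfl⟩
    · rintro ⟨x, (rfl | rfl | rfl | rfl), rfl⟩
      · exact ⟨0, rfl⟩
      · exact ⟨1, rfl⟩
      · exact ⟨2, rfl⟩
      · exact ⟨3, rfl⟩
  have hli : LinearIndependent K w := by
    rw [linearIndependent_iff_card_eq_finrank_span, Fintype.card_fin]
    unfold Set.finrank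
    rw [hrange]
    have := C2_finrank_map O (O ⊔ Submodule.span K {a, a', b, b'}) le_sup_left
    omega
  have hex : ∀ i : Fin 4, ∃ F : ((ι → K) ⧸ O) →ₗ[K] K, ∀ j, F (w j) = if j = i then 1 else 0 := by
    intro i
    obtain ⟨F, hF⟩ := LinearMap.exists_extend ((Module.Basis.span hli).coord i)
    refine ⟨F, fun j => ?_⟩
    have h1 := LinearMap.congr_fun hF (Module.Basis.span hli j)
    have h2 : ((Module.Basis.span hli j : ↥(Submodule.span K (Set.range w))) : (ι → K) ⧸ O) = w j :=
      congrArg Subtype.val (Module.Basis.span_apply hli j)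
    have h3 : F (w j) = (Module.Basis.span hli).coord i (Module.Basis.span hli j) := by
      rw [← h2]; exact h1
    rw [h3, Module.Basis.coord_apply, Module.Basis.repr_self, Finsupp.single_apply]
  obtain ⟨F0, h0⟩ := hex 0
  obtain ⟨F1, h1⟩ := hex 1
  obtain ⟨F2, h2⟩ := hex 2
  obtain ⟨F3, h3⟩ := hex 3
  have hz : ∀ (F : ((ι → K) ⧸ O) →ₗ[K] K), ∀ o ∈ O, (F.comp O.mkQ) o = 0 := by
    intro F o ho
    have : O.mkQ o = 0 := by
      rw [Submodule.mkQ_apply, Submodule.Quotient.mk_eq_zero]; exact ho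
    rw [LinearMap.comp_apply, this, map_zero]
  refine ⟨F0.comp O.mkQ, F1.comp O.mkQ, F2.comp O.mkQ, F3.comp O.mkQ,
    fun o ho => ⟨hz _ o ho, hz _ o ho, hz _ o ho, hz _ o ho⟩, ⟨?_, ?_, ?_, ?_⟩, ⟨?_, ?_, ?_, ?_⟩,
    ⟨?_, ?_, ?_, ?_⟩, ⟨?_, ?_, ?_, ?_⟩⟩
  · exact (h0 0).trans (by simp)
  · exact (h0 1).trans (by simp)
  · exact (h0 2).trans (by simp)
  · exact (h0 3).trans (by simp)
  · exact (h1 0).trans (by simp)
  · exact (h1 1).trans (by simp)
  · exact (h1 2).trans (by simp)
  · exact (h1 3).trans (by simp)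
  · exact (h2 0).trans (by simp)
  · exact (h2 1).trans (by simp)
  · exact (h2 2).trans (by simp)
  · exact (h2 3).trans (by simp)
  · exact (h3 0).trans (by simp)
  · exact (h3 1).trans (by simp)
  · exact (h3 2).trans (by simp)
  · exact (h3 3).trans (by simp)

theorem poly_of_form {ι K : Type} [Fintype ι] [Field K] (f : (ι → K) →ₗ[K] K) :
    ∃ A : MvPolynomial ι K, A.IsHomogeneous 1 ∧ ∀ x, MvPolynomial.eval x A = f x := by
  classical
  refine ⟨∑ i, MvPolynomial.C (f (Pi.single i 1)) * MvPolynomial.X i, ?_, ?_⟩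
  · apply MvPolynomial.IsHomogeneous.sum
    intro i _
    have := (MvPolynomial.isHomogeneous_C ι (f (Pi.single i 1))).mul (MvPolynomial.isHomogeneous_X K i)
    rwa [zero_add] at this
  · intro x
    rw [map_sum]
    have h1 : x = ∑ i, x i • (Pi.single i (1 : K) : ι → K) := by
      funext j
      simp [Finset.sum_apply, Pi.single_apply]
    conv_rhs => rw [h1]
    rw [map_sum]
    refine Finset.sum_congr rfl fun i _ => ?_
    rw [map_mul, MvPolynomial.eval_C, MvPolynomial.eval_X, map_smul, smul_eq_mul, mul_comm]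

theorem isCI_two {ι K : Type} [Fintype ι] [Field K] [IsAlgClosed K] [CharZero K] (d m : ℕ) (hd : 0 < d)
    (O : Submodule K (ι → K)) (a a' b b' : ι → K) (hO : Module.finrank K O + 2 = m)
    (hdim : Module.finrank K ↥(O ⊔ Submodule.span K {a, a', b, b'}) = m + 2)
    (hF : ∀ o ∈ O, ∀ s s' t t' : K,
      ∑ i, (s • a + s' • a' + t • b + t' • b' + o) i ^ d = s ^ d - s' ^ d + t ^ d - t' ^ d) :
    ∃ S, IsCI d m 2 S ∧ cyc S =
      ∑ g ∈ Polynomial.nthRootsFinset d (1 : K),
        Finsupp.single (O ⊔ Submodule.span K {g • a + a', g • b + b'}) 1 +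
      ∑ r ∈ Polynomial.nthRootsFinset d (-1 : K),
        Finsupp.single (O ⊔ Submodule.span K {a + r • b, a' + r • b'}) 1 := by
  classical
  obtain ⟨f, f', g, g', hfO, ⟨fa, fa', fb, fb'⟩, ⟨f'a, f'a', f'b, f'b'⟩, ⟨ga, ga', gb, gb'⟩,
    ⟨g'a, g'a', g'b, g'b'⟩⟩ := exists_forms O a a' b b' (by omega)
  set P : K → Submodule K (ι → K) := fun c => O ⊔ Submodule.span K {c • a + a', c • b + b'} with hP
  set Q : K → Submodule K (ι → K) := fun r => O ⊔ Submodule.span K {a + r • b, a' + r • b'} with hQ
  set Λ : Submodule K (ι → K) := O ⊔ Submodule.span K {a, a', b, b'} with hΛ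
  have haΛ : a ∈ Λ := Submodule.mem_sup_right (Submodule.subset_span (by simp))
  have ha'Λ : a' ∈ Λ := Submodule.mem_sup_right (Submodule.subset_span (by simp))
  have hbΛ : b ∈ Λ := Submodule.mem_sup_right (Submodule.subset_span (by simp))
  have hb'Λ : b' ∈ Λ := Submodule.mem_sup_right (Submodule.subset_span (by simp))
  -- coordinates
  have hcoord : ∀ x ∈ Λ, ∃ o ∈ O, x = f x • a + f' x • a' + g x • b + g' x • b' + o := by
    intro x hx
    obtain ⟨o, ho, y, hy, rfl⟩ := Submodule.mem_sup.mp hx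
    obtain ⟨s, y1, hy1, rfl⟩ := Submodule.mem_span_insert.mp hy
    obtain ⟨s', y2, hy2, rfl⟩ := Submodule.mem_span_insert.mp hy1
    obtain ⟨t, t', rfl⟩ := Submodule.mem_span_pair.mp hy2
    obtain ⟨z1, z2, z3, z4⟩ := hfO o ho
    refine ⟨o, ho, ?_⟩
    simp only [map_add, map_smul, smul_eq_mul, z1, z2, z3, z4, fa, fa', fb, fb', f'a, f'a', f'b, f'b',
      ga, ga', gb, gb', g'a, g'a', g'b, g'b', mul_one, mul_zero, add_zero, zero_add]
    abel
  have hPc : ∀ c x, x ∈ P c → f x = c * f' x ∧ g x = c * g' x := by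
    intro c x hx
    obtain ⟨o, ho, y, hy, rfl⟩ := Submodule.mem_sup.mp hx
    obtain ⟨s, t, rfl⟩ := Submodule.mem_span_pair.mp hy
    obtain ⟨z1, z2, z3, z4⟩ := hfO o ho
    simp only [map_add, map_smul, smul_eq_mul, z1, z2, z3, z4, fa, fa', fb, fb', f'a, f'a', f'b, f'b',
      ga, ga', gb, gb', g'a, g'a', g'b, g'b', mul_one, mul_zero, add_zero, zero_add]
    exact ⟨mul_comm _ _, mul_comm _ _⟩
  have hQc : ∀ r x, x ∈ Q r → g x = r * f x ∧ g' x = r * f' x := by
    intro c x hx
    obtain ⟨o, ho, y, hy, rfl⟩ := Submodule.mem_sup.mp hx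
    obtain ⟨s, t, rfl⟩ := Submodule.mem_span_pair.mp hy
    obtain ⟨z1, z2, z3, z4⟩ := hfO o ho
    simp only [map_add, map_smul, smul_eq_mul, z1, z2, z3, z4, fa, fa', fb, fb', f'a, f'a', f'b, f'b',
      ga, ga', gb, gb', g'a, g'a', g'b, g'b', mul_one, mul_zero, add_zero, zero_add]
    exact ⟨mul_comm _ _, mul_comm _ _⟩
  have hPΛ : ∀ c, P c ≤ Λ := by
    intro c
    refine sup_le le_sup_left (Submodule.span_le.mpr ?_)
    rintro x (rfl | rfl)
    · exact Λ.add_mem (Λ.smul_mem _ haΛ) ha'Λ
    · exact Λ.add_mem (Λ.smul_mem _ hbΛ) hb'Λ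
  have hQΛ : ∀ r, Q r ≤ Λ := by
    intro r
    refine sup_le le_sup_left (Submodule.span_le.mpr ?_)
    rintro x (rfl | rfl)
    · exact Λ.add_mem haΛ (Λ.smul_mem _ hbΛ)
    · exact Λ.add_mem ha'Λ (Λ.smul_mem _ hb'Λ)
  have hPmem : ∀ c x, x ∈ Λ → f x = c * f' x → g x = c * g' x → x ∈ P c := by
    intro c x hx h1 h2
    obtain ⟨o, ho, e⟩ := hcoord x hx
    rw [e, h1, h2]
    have e2 : (c * f' x) • a + f' x • a' + (c * g' x) • b + g' x • b' + o =
        o + (f' x • (c • a + a') + g' x • (c • b + b')) := by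
      simp only [smul_add, smul_smul, mul_comm c]; abel
    rw [e2]
    exact Submodule.add_mem _ (Submodule.mem_sup_left ho) (Submodule.mem_sup_right
      (Submodule.mem_span_pair.mpr ⟨_, _, rfl⟩))
  have hQmem : ∀ r x, x ∈ Λ → g x = r * f x → g' x = r * f' x → x ∈ Q r := by
    intro r x hx h1 h2
    obtain ⟨o, ho, e⟩ := hcoord x hx
    rw [e, h1, h2]
    have e2 : f x • a + f' x • a' + (r * f x) • b + (r * f' x) • b' + o =
        o + (f x • (a + r • b) + f' x • (a' + r • b')) := by
      simp only [smul_add, smul_smul, mul_comm r]; abel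
    rw [e2]
    exact Submodule.add_mem _ (Submodule.mem_sup_left ho) (Submodule.mem_sup_right
      (Submodule.mem_span_pair.mpr ⟨_, _, rfl⟩))
  have hFx : ∀ x ∈ Λ, ∑ i, x i ^ d = f x ^ d - f' x ^ d + g x ^ d - g' x ^ d := by
    intro x hx
    obtain ⟨o, ho, e⟩ := hcoord x hx
    have h := hF o ho (f x) (f' x) (g x) (g' x)
    rw [← e] at h
    exact h
  -- dimensions
  have hbig : ∀ V : Submodule K (ι → K), O ≤ V → a ∈ V → a' ∈ V → b ∈ V → b' ∈ V →
      m + 2 ≤ Module.finrank K V := by
    intro V h0 h1 h2 h3 h4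
    rw [← hdim]
    apply Submodule.finrank_mono
    refine sup_le h0 (Submodule.span_le.mpr ?_)
    rintro x (rfl | rfl | rfl | rfl)
    · exact h1
    · exact h2
    · exact h3
    · exact h4
  have hPfin : ∀ c, Module.finrank K ↥(P c) = m := by
    intro c
    apply le_antisymm
    · rw [← hO]; exact C2_finrank_sup O _ _
    · have h1 := hbig (P c ⊔ Submodule.span K {a, b}) (le_sup_left.trans le_sup_left)
        (Submodule.mem_sup_right (Submodule.subset_span (by simp))) ?_
        (Submodule.mem_sup_right (Submodule.subset_span (by simp))) ?_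
      · have h2 := C2_finrank_sup (P c) a b
        omega
      · have e : (c • a + a') + (-c) • a = a' := by rw [neg_smul]; abel
        rw [← e]
        exact Submodule.add_mem _ (Submodule.mem_sup_left (Submodule.mem_sup_right
          (Submodule.subset_span (by simp)))) (Submodule.smul_mem _ _
          (Submodule.mem_sup_right (Submodule.subset_span (by simp))))
      · have e : (c • b + b') + (-c) • b = b' := by rw [neg_smul]; abel
        rw [← e]
        exact Submodule.add_mem _ (Submodule.mem_sup_left (Submodule.mem_sup_right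
          (Submodule.subset_span (by simp)))) (Submodule.smul_mem _ _
          (Submodule.mem_sup_right (Submodule.subset_span (by simp))))
  have hQfin : ∀ r, Module.finrank K ↥(Q r) = m := by
    intro r
    apply le_antisymm
    · rw [← hO]; exact C2_finrank_sup O _ _
    · have h1 := hbig (Q r ⊔ Submodule.span K {b, b'}) (le_sup_left.trans le_sup_left) ?_ ?_
        (Submodule.mem_sup_right (Submodule.subset_span (by simp)))
        (Submodule.mem_sup_right (Submodule.subset_span (by simp)))
      · have h2 := C2_finrank_sup (Q r) b b'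
        omega
      · have e : (a + r • b) + (-r) • b = a := by rw [neg_smul]; abel
        rw [← e]
        exact Submodule.add_mem _ (Submodule.mem_sup_left (Submodule.mem_sup_right
          (Submodule.subset_span (by simp)))) (Submodule.smul_mem _ _
          (Submodule.mem_sup_right (Submodule.subset_span (by simp))))
      · have e : (a' + r • b') + (-r) • b' = a' := by rw [neg_smul]; abel
        rw [← e]
        exact Submodule.add_mem _ (Submodule.mem_sup_left (Submodule.mem_sup_right
          (Submodule.subset_span (by simp)))) (Submodule.smul_mem _ _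
          (Submodule.mem_sup_right (Submodule.subset_span (by simp))))
  -- the spaces are different
  have hPinj : ∀ c c', P c = P c' → c = c' := by
    intro c c' h
    have h1 : c • a + a' ∈ P c := Submodule.mem_sup_right (Submodule.subset_span (by simp))
    rw [h] at h1
    have h2 := (hPc c' _ h1).1
    simpa [fa, fa', f'a, f'a'] using h2
  have hQinj : ∀ r r', Q r = Q r' → r = r' := by
    intro r r' h
    have h1 : a + r • b ∈ Q r := Submodule.mem_sup_right (Submodule.subset_span (by simp))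
    rw [h] at h1
    have h2 := (hQc r' _ h1).1
    simpa [fa, fb, ga, gb] using h2
  have hPQ : ∀ c r, c ≠ 0 → r ≠ 0 → P c ≠ Q r := by
    intro c r hc hr h
    have h1 : c • a + a' ∈ P c := Submodule.mem_sup_right (Submodule.subset_span (by simp))
    rw [h] at h1
    have h2 := (hQc r _ h1).1
    simp [fa, fa', ga, ga', hc, hr] at h2
  have hroot1 : ∀ c ∈ Polynomial.nthRootsFinset d (1 : K), c ^ d = 1 := fun c hc =>
    (Polynomial.mem_nthRootsFinset hd _).mp hc
  have hrootm : ∀ r ∈ Polynomial.nthRootsFinset d (-1 : K), r ^ d = -1 := fun r hr =>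
    (Polynomial.mem_nthRootsFinset hd _).mp hr
  have hne1 : ∀ c ∈ Polynomial.nthRootsFinset d (1 : K), c ≠ 0 := by
    intro c hc h0
    have := hroot1 c hc
    rw [h0, zero_pow hd.ne'] at this
    exact zero_ne_one this
  have hnem : ∀ r ∈ Polynomial.nthRootsFinset d (-1 : K), r ≠ 0 := by
    intro r hr h0
    have := hrootm r hr
    rw [h0, zero_pow hd.ne'] at this
    exact (neg_ne_zero.mpr one_ne_zero) this.symm
  have hPiso : ∀ c ∈ Polynomial.nthRootsFinset d (1 : K), ∀ x ∈ P c, ∑ i, x i ^ d = 0 := by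
    intro c hc x hx
    obtain ⟨h1, h2⟩ := hPc c x hx
    rw [hFx x (hPΛ c hx), h1, h2, mul_pow, mul_pow, hroot1 c hc]
    ring
  have hQiso : ∀ r ∈ Polynomial.nthRootsFinset d (-1 : K), ∀ x ∈ Q r, ∑ i, x i ^ d = 0 := by
    intro r hr x hx
    obtain ⟨h1, h2⟩ := hQc r x hx
    rw [hFx x (hQΛ r hx), h1, h2, mul_pow, mul_pow, hrootm r hr]
    ring
  have hdisj : Disjoint ((Polynomial.nthRootsFinset d (1 : K)).image P)
      ((Polynomial.nthRootsFinset d (-1 : K)).image Q) := by
    rw [Finset.disjoint_left]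
    intro W h1 h2
    obtain ⟨c, hc, rfl⟩ := Finset.mem_image.mp h1
    obtain ⟨r, hr, e⟩ := Finset.mem_image.mp h2
    exact hPQ c r (hne1 c hc) (hnem r hr) e.symm
  obtain ⟨A1, hA1, hA1e⟩ := poly_of_form f
  obtain ⟨A2, hA2, hA2e⟩ := poly_of_form f'
  obtain ⟨A3, hA3, hA3e⟩ := poly_of_form g
  obtain ⟨A4, hA4, hA4e⟩ := poly_of_form g'
  refine ⟨(Polynomial.nthRootsFinset d (1 : K)).image P ∪ (Polynomial.nthRootsFinset d (-1 : K)).image Q,
    ⟨?_, ?_, 1, Λ, fun _ => A1 * A4 - A2 * A3, fun _ => 2, ?_, ?_, ?_, ?_⟩, ?_⟩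
  · intro W hW
    rcases Finset.mem_union.mp hW with h | h
    · obtain ⟨c, hc, rfl⟩ := Finset.mem_image.mp h
      exact ⟨hPfin c, hPiso c hc⟩
    · obtain ⟨r, hr, rfl⟩ := Finset.mem_image.mp h
      exact ⟨hQfin r, hQiso r hr⟩
  · rw [Finset.card_union_of_disjoint hdisj, Finset.card_image_of_injective _ (fun c c' h => hPinj c c' h),
      Finset.card_image_of_injective _ (fun r r' h => hQinj r r' h), card_nthRoots d hd 1 one_ne_zero,
      card_nthRoots d hd (-1) (neg_ne_zero.mpr one_ne_zero)]
    ring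
  · rw [hdim]
  · intro _
    have h1 := hA1.mul hA4
    have h2 := hA2.mul hA3
    exact h1.sub h2
  · simp
  · intro x
    have hev : MvPolynomial.eval x (A1 * A4 - A2 * A3) = f x * g' x - f' x * g x := by
      rw [map_sub, map_mul, map_mul, hA1e, hA2e, hA3e, hA4e]
    constructor
    · rintro ⟨hx, h0, hA⟩
      have hA := hA 0
      rw [hev] at hA
      rw [hFx x hx] at h0
      have inP : ∀ c, c ^ d = 1 → f x = c * f' x → g x = c * g' x →
          ∃ W ∈ (Polynomial.nthRootsFinset d (1 : K)).image P ∪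
            (Polynomial.nthRootsFinset d (-1 : K)).image Q, x ∈ W := by
        intro c hc h1 h2
        exact ⟨P c, Finset.mem_union_left _ (Finset.mem_image_of_mem _
          ((Polynomial.mem_nthRootsFinset hd _).mpr hc)), hPmem c x hx h1 h2⟩
      have inQ : ∀ r, r ^ d = -1 → g x = r * f x → g' x = r * f' x →
          ∃ W ∈ (Polynomial.nthRootsFinset d (1 : K)).image P ∪
            (Polynomial.nthRootsFinset d (-1 : K)).image Q, x ∈ W := by
        intro r hr h1 h2
        exact ⟨Q r, Finset.mem_union_right _ (Finset.mem_image_of_mem _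
          ((Polynomial.mem_nthRootsFinset hd _).mpr hr)), hQmem r x hx h1 h2⟩
      generalize f x = s at *
      generalize f' x = s' at *
      generalize g x = t at *
      generalize g' x = t' at *
      by_cases hs' : s' = 0
      · subst hs'
        rw [zero_mul, sub_zero] at hA
        rw [zero_pow hd.ne', sub_zero] at h0
        rcases mul_eq_zero.mp hA with hs | ht'
        · subst hs
          rw [zero_pow hd.ne', zero_add] at h0
          by_cases ht' : t' = 0
          · subst ht'
            rw [zero_pow hd.ne', sub_zero] at h0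
            have ht : t = 0 := (pow_eq_zero_iff hd.ne').mp h0
            exact inP 1 (one_pow d) (by ring) (by rw [ht]; ring)
          · refine inP (t / t') ?_ (by ring) (by field_simp)
            rw [div_pow, div_eq_one_iff_eq (pow_ne_zero _ ht')]
            linear_combination h0
        · subst ht'
          rw [zero_pow hd.ne', sub_zero] at h0
          by_cases hs : s = 0
          · subst hs
            rw [zero_pow hd.ne', zero_add] at h0
            have ht : t = 0 := (pow_eq_zero_iff hd.ne').mp h0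
            exact inP 1 (one_pow d) (by ring) (by rw [ht]; ring)
          · refine inQ (t / s) ?_ (by field_simp) (by ring)
            rw [div_pow, div_eq_iff (pow_ne_zero _ hs)]
            linear_combination h0
      · have ht : t = (s / s') * t' := by
          rw [div_mul_eq_mul_div, eq_div_iff hs']
          linear_combination -hA
        have hs : s = (s / s') * s' := by field_simp
        have h1 : ((s / s') ^ d - 1) * (s' ^ d + t' ^ d) = 0 := by
          have e1 : (s / s') ^ d * s' ^ d = s ^ d := by rw [← mul_pow, ← hs]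
          have e2 : (s / s') ^ d * t' ^ d = t ^ d := by rw [← mul_pow, ← ht]
          linear_combination e1 + e2 + h0
        rcases mul_eq_zero.mp h1 with h2 | h2
        · exact inP (s / s') (sub_eq_zero.mp h2) hs ht
        · refine inQ (t' / s') ?_ (by rw [ht]; ring) (by field_simp)
          rw [div_pow, div_eq_iff (pow_ne_zero _ hs')]
          linear_combination h2
    · rintro ⟨W, hW, hx⟩
      rcases Finset.mem_union.mp hW with h | h
      · obtain ⟨c, hc, rfl⟩ := Finset.mem_image.mp h
        refine ⟨hPΛ c hx, hPiso c hc x hx, fun _ => ?_⟩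
        obtain ⟨h1, h2⟩ := hPc c x hx
        rw [hev, h1, h2]; ring
      · obtain ⟨r, hr, rfl⟩ := Finset.mem_image.mp h
        refine ⟨hQΛ r hx, hQiso r hr x hx, fun _ => ?_⟩
        obtain ⟨h1, h2⟩ := hQc r x hx
        rw [hev, h1, h2]; ring
  · unfold cyc
    rw [Finset.sum_union hdisj, Finset.sum_image (fun c _ c' _ h => hPinj c c' h),
      Finset.sum_image (fun r _ r' _ h => hQinj r r' h)]

end Pool.Agent.FermatLin
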