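import Pool.Agent.Lib.MP_a1cc03_ag.FL.Base

/-! Row fer-E1. The torus action `act` preserves the complete intersections.

`act_isCI`: `D = LinearMap.mulLeft K c` is invertible (`c k ≠ 0`) and preserves `∑ x_k^d`. Take `S' = S.image (map D)`
(injective), `Λ' = Λ.map D`, the same `k`, `e`, and `A' t = bind₁ (fun i => C (c i)⁻¹ * X i) (A t)`, so that
`eval x (A' t) = eval (c⁻¹ * x) (A t)`; it is homogeneous of the same degree (`IsHomogeneous` under substitution of
forms of degree 1: `MvPolynomial.IsHomogeneous.eval₂` or `IsHomogeneous.aeval`, or work with coefficients).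
-/

namespace Pool.Agent.FermatLin

variable {ι K : Type} [Fintype ι] [Field K]

theorem act_zero (c : ι → K) : act c (0 : Cyc ι K) = 0 := by
  unfold act
  exact Finsupp.mapDomain_zero

theorem act_add (c : ι → K) (y z : Cyc ι K) : act c (y + z) = act c y + act c z := by
  unfold act
  exact Finsupp.mapDomain_add

theorem act_neg (c : ι → K) (z : Cyc ι K) : act c (-z) = - act c z := by
  have h : act c (-z) + act c z = 0 := by
    rw [← act_add, neg_add_cancel, act_zero]
  exact eq_neg_of_add_eq_zero_left h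

theorem act_single (c : ι → K) (W : Submodule K (ι → K)) (n : ℤ) :
    act c (Finsupp.single W n) = Finsupp.single (W.map (LinearMap.mulLeft K c)) n := by
  unfold act
  exact Finsupp.mapDomain_single

theorem act_act (c c' : ι → K) (z : Cyc ι K) : act c (act c' z) = act (c * c') z := by
  unfold act
  rw [← Finsupp.mapDomain_comp]
  congr 1
  funext W
  show (W.map (LinearMap.mulLeft K c')).map (LinearMap.mulLeft K c) = _
  rw [← Submodule.map_comp]
  congr 1
  ext x
  simp

theorem E1_act_cyc (c : ι → K) [DecidableEq (Submodule K (ι → K))] (S : Finset (Submodule K (ι → K)))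
    (hinj : Function.Injective fun W : Submodule K (ι → K) => W.map (LinearMap.mulLeft K c)) :
    act c (cyc S) = cyc (S.image fun W => W.map (LinearMap.mulLeft K c)) := by
  unfold cyc
  rw [Finset.sum_image (fun x _ y _ h => hinj h)]
  unfold act
  rw [Finsupp.mapDomain_finsetSum]
  refine Finset.sum_congr rfl fun W _ => ?_
  exact Finsupp.mapDomain_single

theorem E1_eval (c x : ι → K) (A : MvPolynomial ι K) :
    MvPolynomial.eval x (MvPolynomial.bind₁ (fun i => MvPolynomial.C (c i)⁻¹ * MvPolynomial.X i) A) =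
      MvPolynomial.eval (fun i => (c i)⁻¹ * x i) A := by
  unfold MvPolynomial.eval
  rw [MvPolynomial.eval₂Hom_bind₁]
  congr 2
  funext i
  rw [map_mul, MvPolynomial.eval₂Hom_C, MvPolynomial.eval₂Hom_X']
  rfl

theorem E1_hom (c : ι → K) (A : MvPolynomial ι K) (e : ℕ) (hA : A.IsHomogeneous e) :
    (MvPolynomial.bind₁ (fun i => MvPolynomial.C (c i)⁻¹ * MvPolynomial.X i) A).IsHomogeneous e := by
  have h := hA.aeval (n := 1) (fun i => MvPolynomial.C (c i)⁻¹ * MvPolynomial.X i)
    (fun i => by
      have := (MvPolynomial.isHomogeneous_C ι (c i)⁻¹).mul (MvPolynomial.isHomogeneous_X K i)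
      rwa [zero_add] at this)
  rw [one_mul] at h
  exact h

theorem act_isCI (d m a : ℕ) (c : ι → K) (hc : ∀ k, c k ≠ 0) (hc1 : ∀ k, c k ^ d = 1)
    (S : Finset (Submodule K (ι → K))) (hS : IsCI d m a S) : ∃ S', IsCI d m a S' ∧ act c (cyc S) = cyc S' := by
  classical
  set D := LinearMap.mulLeft K c with hD
  have hDa : ∀ x i, D x i = c i * x i := fun x i => by simp [hD]
  have hDinj : Function.Injective D := by
    intro x y h
    funext i
    have := congrFun h i
    rw [hDa, hDa] at this
    exact mul_left_cancel₀ (hc i) this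
  have hDsurj : ∀ x, D (fun i => (c i)⁻¹ * x i) = x := by
    intro x
    funext i
    rw [hDa, ← mul_assoc, mul_inv_cancel₀ (hc i), one_mul]
  have hmem : ∀ (W : Submodule K (ι → K)) x, x ∈ W.map D ↔ (fun i => (c i)⁻¹ * x i) ∈ W := by
    intro W x
    constructor
    · rintro ⟨y, hy, rfl⟩
      have : (fun i => (c i)⁻¹ * D y i) = y := by
        funext i
        rw [hDa, ← mul_assoc, inv_mul_cancel₀ (hc i), one_mul]
      rw [this]; exact hy
    · intro h
      exact ⟨_, h, hDsurj x⟩
  have hinj : Function.Injective fun W : Submodule K (ι → K) => W.map D :=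
    Submodule.map_injective_of_injective hDinj
  have hsum : ∀ x : ι → K, ∑ i, ((c i)⁻¹ * x i) ^ d = ∑ i, x i ^ d := by
    intro x
    refine Finset.sum_congr rfl fun i _ => ?_
    rw [mul_pow, inv_pow, hc1, inv_one, one_mul]
  have hrank : ∀ W : Submodule K (ι → K), Module.finrank K (W.map D) = Module.finrank K W := fun W =>
    (LinearEquiv.finrank_eq (Submodule.equivMapOfInjective D hDinj W)).symm
  obtain ⟨h1, h2, k, Λ, A, e, h3, h4, h5, h6⟩ := hS
  refine ⟨S.image fun W => W.map D, ⟨?_, ?_, k, Λ.map D,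
    fun t => MvPolynomial.bind₁ (fun i => MvPolynomial.C (c i)⁻¹ * MvPolynomial.X i) (A t), e, ?_, ?_, h5, ?_⟩, ?_⟩
  · intro W' hW'
    obtain ⟨W, hW, rfl⟩ := Finset.mem_image.1 hW'
    refine ⟨by rw [hrank]; exact (h1 W hW).1, fun x hx => ?_⟩
    rw [← hsum]
    exact (h1 W hW).2 _ ((hmem W x).1 hx)
  · rw [Finset.card_image_of_injective _ hinj]; exact h2
  · rw [hrank]; exact h3
  · intro t
    exact E1_hom c (A t) (e t) (h4 t)
  · intro x
    have := h6 (fun i => (c i)⁻¹ * x i)
    rw [hsum] at this
    simp only [E1_eval, hmem]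
    rw [this]
    constructor
    · rintro ⟨W, hW, hx⟩
      exact ⟨_, Finset.mem_image_of_mem _ hW, (hmem W x).2 hx⟩
    · rintro ⟨W', hW', hx⟩
      obtain ⟨W, hW, rfl⟩ := Finset.mem_image.1 hW'
      exact ⟨W, hW, (hmem W x).1 hx⟩
  · exact E1_act_cyc c S hinj

end Pool.Agent.FermatLin
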