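import Pool.Agent.Lib.MP_a1cc03_ag.FL.B1
import Pool.Agent.Lib.MP_a1cc03_ag.FL.B2
import Pool.Agent.Lib.MP_a1cc03_ag.FL.C2
import Pool.Agent.Lib.MP_a1cc03_ag.FL.E1

/-! Row fer-D1. The basic relation when `W → K²`, `x ↦ (x i, x j)`, is surjective.

`O = {x ∈ W : x i = 0, x j = 0}`, so `W = O ⊕ K w1 ⊕ K w2`. Apply `isCI_two` with `a = e_i`, `a' = w1 - e_i`, `b = e_j`,
`b' = w2 - e_j` (`e_i = Pi.single i 1`). `hF`: all of `a', b', o` have coordinates `i, j` equal to 0, so
`∑ (s•a + s'•a' + t•b + t'•b' + o)^d = s^d + t^d + ∑ (s'•a' + t'•b' + o)^d`, and `s'•w1 + t'•w2 + o ∈ W` gives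
`0 = s'^d + t'^d + ∑ (s'•a' + t'•b' + o)^d`. `hdim`: `Λ = W + K e_i + K e_j`, and a nonzero `α e_i + β e_j` is not in `W`:
it would be isotropic, so a multiple of `vec i j r`, `r^d = -1`, and then `x j = r x i` on `W` (`isotropic_hyp`), false for
`w1`. In particular `vec i j r ∉ W`, so `proj d [(i,j,r)] (single W 1) = single (link ..) 1` (`proj_single`, exponent 0),
and `link [(i,j,r)] W = (W ⊓ H) ⊔ K vec = O ⊔ span {a + r•b, a' + r•b'}` since `W ⊓ H = O ⊔ K (w1 + r•w2)`.
`act (pairScale i j g)` (`act_single`): `W.map .. = O ⊔ span {g•a + a', g•b + b'}`.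
-/

namespace Pool.Agent.FermatLin

section D1aux
variable {ι K : Type} [Fintype ι] [DecidableEq ι] [Field K]

/-- the elements of W with coordinates i, j equal to 0 -/
def D1_O (W : Submodule K (ι → K)) (i j : ι) : Submodule K (ι → K) :=
  W ⊓ (LinearMap.ker (LinearMap.proj (R := K) (φ := fun _ : ι => K) i) ⊓
    LinearMap.ker (LinearMap.proj (R := K) (φ := fun _ : ι => K) j))

theorem D1_mem_O (W : Submodule K (ι → K)) (i j : ι) (x : ι → K) :
    x ∈ D1_O W i j ↔ x ∈ W ∧ x i = 0 ∧ x j = 0 := by
  simp [D1_O, Submodule.mem_inf]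

theorem D1_decomp (W : Submodule K (ι → K)) (i j : ι)
    (w1 w2 : ι → K) (h1 : w1 ∈ W) (h2 : w2 ∈ W) (h1i : w1 i = 1) (h1j : w1 j = 0) (h2i : w2 i = 0)
    (h2j : w2 j = 1) : W = D1_O W i j ⊔ Submodule.span K {w1, w2} := by
  apply le_antisymm
  · intro x hx
    rw [Submodule.mem_sup]
    refine ⟨x - (x i • w1 + x j • w2), ?_, x i • w1 + x j • w2, ?_, by simp⟩
    · rw [D1_mem_O]
      refine ⟨W.sub_mem hx (W.add_mem (W.smul_mem _ h1) (W.smul_mem _ h2)), ?_, ?_⟩
      · simp [h1i, h2i]
      · simp [h1j, h2j]
    · rw [Submodule.mem_span_pair]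
      exact ⟨x i, x j, rfl⟩
  · refine sup_le inf_le_left ?_
    rw [Submodule.span_le]
    rintro y hy
    simp only [Set.mem_insert_iff, Set.mem_singleton_iff] at hy
    rcases hy with rfl | rfl
    · exact h1
    · exact h2

omit [DecidableEq ι] in
theorem D1_rank_pair (u v : ι → K) (h : LinearIndependent K ![u, v]) :
    Module.finrank K (Submodule.span K ({u, v} : Set (ι → K))) = 2 := by
  have h1 := finrank_span_eq_card h
  have hset : Set.range ![u, v] = ({u, v} : Set (ι → K)) := by
    ext x
    simp only [Set.mem_range, Fin.exists_fin_two, Set.mem_insert_iff, Set.mem_singleton_iff,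
      Matrix.cons_val_zero, Matrix.cons_val_one]
    exact ⟨fun h => h.imp Eq.symm Eq.symm, fun h => h.imp Eq.symm Eq.symm⟩
  rw [hset] at h1
  rw [h1]
  rfl

theorem D1_finrank_O (W : Submodule K (ι → K)) (i j : ι)
    (w1 w2 : ι → K) (h1 : w1 ∈ W) (h2 : w2 ∈ W) (h1i : w1 i = 1) (h1j : w1 j = 0) (h2i : w2 i = 0)
    (h2j : w2 j = 1) : Module.finrank K (D1_O W i j) + 2 = Module.finrank K W := by
  have hd := D1_decomp W i j w1 w2 h1 h2 h1i h1j h2i h2j
  have hinf : D1_O W i j ⊓ Submodule.span K {w1, w2} = ⊥ := by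
    rw [eq_bot_iff]
    intro x hx
    rw [Submodule.mem_inf, D1_mem_O, Submodule.mem_span_pair] at hx
    obtain ⟨⟨_, hxi, hxj⟩, a, b, rfl⟩ := hx
    simp only [Pi.add_apply, Pi.smul_apply, smul_eq_mul, h1i, h2i, h1j, h2j, mul_one, mul_zero, add_zero,
      zero_add] at hxi hxj
    rw [hxi, hxj]
    simp
  have hrk : Module.finrank K (Submodule.span K ({w1, w2} : Set (ι → K))) = 2 := by
    have hli : LinearIndependent K ![w1, w2] := by
      rw [LinearIndependent.pair_iff]
      intro s t hst
      have e1 := congrFun hst i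
      have e2 := congrFun hst j
      simp only [Pi.add_apply, Pi.smul_apply, smul_eq_mul, h1i, h2i, h1j, h2j, mul_one, mul_zero, add_zero,
        zero_add, Pi.zero_apply] at e1 e2
      exact ⟨e1, e2⟩
    exact D1_rank_pair w1 w2 hli
  have f := Submodule.finrank_sup_add_finrank_inf_eq (D1_O W i j) (Submodule.span K {w1, w2})
  rw [hinf, finrank_bot, hrk, ← hd] at f
  omega

/-- span of sums -/
theorem D1_span_pair_eq (O : Submodule K (ι → K)) (u v x y : ι → K)
    (hx : x ∈ O ⊔ Submodule.span K {u, v}) (hy : y ∈ O ⊔ Submodule.span K {u, v})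
    (hu : u ∈ O ⊔ Submodule.span K {x, y}) (hv : v ∈ O ⊔ Submodule.span K {x, y}) :
    O ⊔ Submodule.span K {x, y} = O ⊔ Submodule.span K {u, v} := by
  apply le_antisymm
  · refine sup_le le_sup_left ?_
    rw [Submodule.span_le]
    rintro z hz
    simp only [Set.mem_insert_iff, Set.mem_singleton_iff] at hz
    rcases hz with rfl | rfl
    · exact hx
    · exact hy
  · refine sup_le le_sup_left ?_
    rw [Submodule.span_le]
    rintro z hz
    simp only [Set.mem_insert_iff, Set.mem_singleton_iff] at hz
    rcases hz with rfl | rfl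
    · exact hu
    · exact hv

theorem D1_mem_pair (O : Submodule K (ι → K)) (u v : ι → K) (a b : K) (x : ι → K) (h : x = a • u + b • v) :
    x ∈ O ⊔ Submodule.span K {u, v} := by
  refine Submodule.mem_sup_right ?_
  rw [Submodule.mem_span_pair]
  exact ⟨a, b, h.symm⟩

end D1aux

theorem relT_two {ι K : Type} [Fintype ι] [DecidableEq ι] [Field K] [IsAlgClosed K] [CharZero K] (d m : ℕ)
    (hd : 2 ≤ d) (hcard : Fintype.card ι ≤ 2 * m + 1) (W : Submodule K (ι → K)) (hW : IsLin d m W) (i j : ι)
    (hij : i ≠ j) (w1 w2 : ι → K) (h1 : w1 ∈ W) (h2 : w2 ∈ W) (h1i : w1 i = 1) (h1j : w1 j = 0) (h2i : w2 i = 0)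
    (h2j : w2 j = 1) :
    ∃ S, IsCI d m 2 S ∧ tsum_ d i j (Finsupp.single W 1) + dsum d i j (Finsupp.single W 1) = cyc S := by
  have hd0 : 0 < d := by omega
  obtain ⟨hWm, hWi⟩ := hW
  have hdec := D1_decomp W i j w1 w2 h1 h2 h1i h1j h2i h2j
  have hOrk := D1_finrank_O W i j w1 w2 h1 h2 h1i h1j h2i h2j
  set O := D1_O W i j with hO
  set a : ι → K := Pi.single i 1 with ha
  set b : ι → K := Pi.single j 1 with hb
  have hai : a i = 1 := by simp [ha]
  have haj : a j = 0 := by simp [ha, hij.symm]
  have hbi : b i = 0 := by simp [hb, hij]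
  have hbj : b j = 1 := by simp [hb]
  have hak : ∀ k, k ≠ i → a k = 0 := by intro k hk; simp [ha, hk]
  have hbk : ∀ k, k ≠ j → b k = 0 := by intro k hk; simp [hb, hk]
  have hsum : ∀ f : ι → K, ∑ k, f k = f i + f j + ∑ k ∈ (Finset.univ \ {i, j}), f k := by
    intro f
    rw [← Finset.sum_sdiff (Finset.subset_univ ({i, j} : Finset ι)), Finset.sum_pair hij]
    ring
  have hvec : ∀ r : K, vec i j r = a + r • b := by
    intro r
    ext k
    simp [vec, ha, hb, Pi.single_apply]
  have hnot : ∀ r : K, r ^ d = -1 → vec i j r ∉ W := by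
    intro r hr hv
    have h3 := isotropic_hyp d hd W hWi i j hij r hr hv w1 h1
    rw [h1i, h1j, mul_one] at h3
    rw [← h3, zero_pow hd0.ne'] at hr
    exact one_ne_zero (by linear_combination hr : (1 : K) = 0)
  -- the form of W and the sums
  have hF : ∀ o ∈ O, ∀ s s' t t' : K,
      ∑ k, (s • a + s' • (w1 - a) + t • b + t' • (w2 - b) + o) k ^ d = s ^ d - s' ^ d + t ^ d - t' ^ d := by
    intro o ho s s' t t'
    rw [hO, D1_mem_O] at ho
    obtain ⟨hoW, hoi, hoj⟩ := ho
    have hy : s' • w1 + t' • w2 + o ∈ W :=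
      W.add_mem (W.add_mem (W.smul_mem _ h1) (W.smul_mem _ h2)) hoW
    have e1 := hWi _ hy
    rw [hsum] at e1 ⊢
    have e2 : ∀ k ∈ (Finset.univ \ {i, j} : Finset ι),
        (s • a + s' • (w1 - a) + t • b + t' • (w2 - b) + o) k ^ d = (s' • w1 + t' • w2 + o) k ^ d := by
      intro k hk
      simp only [Finset.mem_sdiff, Finset.mem_univ, true_and, Finset.mem_insert, Finset.mem_singleton, not_or] at hk
      congr 1
      simp only [Pi.add_apply, Pi.smul_apply, Pi.sub_apply, smul_eq_mul, hak k hk.1, hbk k hk.2]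
      ring
    rw [Finset.sum_congr rfl e2]
    simp only [Pi.add_apply, Pi.smul_apply, Pi.sub_apply, smul_eq_mul, hai, haj, hbi, hbj, h1i, h1j, h2i, h2j,
      hoi, hoj, mul_one, mul_zero, add_zero, zero_add, sub_self, sub_zero] at e1 ⊢
    linear_combination e1
  have hW2 : O ⊔ Submodule.span K {a, w1 - a, b, w2 - b} = W ⊔ Submodule.span K {a, b} := by
    apply le_antisymm
    · refine sup_le (inf_le_left.trans le_sup_left) ?_
      rw [Submodule.span_le]
      have hA : a ∈ W ⊔ Submodule.span K {a, b} :=
        Submodule.mem_sup_right (Submodule.subset_span (by simp))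
      have hB : b ∈ W ⊔ Submodule.span K {a, b} :=
        Submodule.mem_sup_right (Submodule.subset_span (by simp))
      rintro z hz
      simp only [Set.mem_insert_iff, Set.mem_singleton_iff] at hz
      rcases hz with rfl | rfl | rfl | rfl
      · exact hA
      · exact Submodule.sub_mem _ (Submodule.mem_sup_left h1) hA
      · exact hB
      · exact Submodule.sub_mem _ (Submodule.mem_sup_left h2) hB
    · have hs : ∀ z ∈ ({a, w1 - a, b, w2 - b} : Set (ι → K)), z ∈ O ⊔ Submodule.span K {a, w1 - a, b, w2 - b} :=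
        fun z hz => Submodule.mem_sup_right (Submodule.subset_span hz)
      have hA := hs a (by simp)
      have hA' := hs (w1 - a) (by simp)
      have hB := hs b (by simp)
      have hB' := hs (w2 - b) (by simp)
      refine sup_le ?_ ?_
      · conv_lhs => rw [hdec]
        refine sup_le le_sup_left ?_
        rw [Submodule.span_le]
        rintro z hz
        simp only [Set.mem_insert_iff, Set.mem_singleton_iff] at hz
        rcases hz with rfl | rfl
        · have := Submodule.add_mem _ hA hA'
          simpa using this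
        · have := Submodule.add_mem _ hB hB'
          simpa using this
      · rw [Submodule.span_le]
        rintro z hz
        simp only [Set.mem_insert_iff, Set.mem_singleton_iff] at hz
        rcases hz with rfl | rfl
        · exact hA
        · exact hB
  have hdim : Module.finrank K ↥(O ⊔ Submodule.span K {a, w1 - a, b, w2 - b}) = m + 2 := by
    rw [hW2]
    have hinf : W ⊓ Submodule.span K {a, b} = ⊥ := by
      rw [eq_bot_iff]
      intro x hx
      rw [Submodule.mem_inf, Submodule.mem_span_pair] at hx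
      obtain ⟨hxW, α, β, rfl⟩ := hx
      have e1 := hWi _ hxW
      rw [hsum, Finset.sum_eq_zero (s := Finset.univ \ {i, j})] at e1
      · simp only [Pi.add_apply, Pi.smul_apply, smul_eq_mul, hai, haj, hbi, hbj, mul_one, mul_zero, add_zero,
          zero_add] at e1
        by_cases hα : α = 0
        · subst hα
          rw [zero_pow hd0.ne', zero_add] at e1
          have hβ : β = 0 := by simpa [hd0.ne'] using e1
          rw [hβ]; simp
        · exfalso
          refine hnot (β / α) ?_ ?_
          · rw [div_pow, div_eq_iff (pow_ne_zero _ hα)]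
            linear_combination e1
          · rw [hvec]
            have h3 := W.smul_mem α⁻¹ hxW
            have h4 : a + (β / α) • b = α⁻¹ • (α • a + β • b) := by
              rw [smul_add, smul_smul, smul_smul, inv_mul_cancel₀ hα, one_smul, div_eq_inv_mul]
            rw [h4]; exact h3
      · intro k hk
        simp only [Finset.mem_sdiff, Finset.mem_univ, true_and, Finset.mem_insert, Finset.mem_singleton, not_or] at hk
        simp only [Pi.add_apply, Pi.smul_apply, smul_eq_mul, hak k hk.1, hbk k hk.2, mul_zero, add_zero,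
          zero_pow hd0.ne']
    have hrk : Module.finrank K (Submodule.span K ({a, b} : Set (ι → K))) = 2 := by
      have hli : LinearIndependent K ![a, b] := by
        rw [LinearIndependent.pair_iff]
        intro s t hst
        have e1 := congrFun hst i
        have e2 := congrFun hst j
        simp only [Pi.add_apply, Pi.smul_apply, smul_eq_mul, hai, haj, hbi, hbj, mul_one, mul_zero, add_zero,
          zero_add, Pi.zero_apply] at e1 e2
        exact ⟨e1, e2⟩
      exact D1_rank_pair a b hli
    have f := Submodule.finrank_sup_add_finrank_inf_eq W (Submodule.span K {a, b})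
    rw [hinf, finrank_bot, hrk, hWm] at f
    omega
  obtain ⟨S, hS, hcyc⟩ := isCI_two d m hd0 O a (w1 - a) b (w2 - b) (by rw [hOrk, hWm]) hdim hF
  refine ⟨S, hS, ?_⟩
  rw [hcyc, add_comm]
  congr 1
  · -- dsum
    unfold dsum
    refine Finset.sum_congr rfl fun g _ => ?_
    rw [act_single]
    congr 1
    have hm1 : LinearMap.mulLeft K (pairScale i j g) w1 = g • a + (w1 - a) := by
      ext k
      simp only [LinearMap.mulLeft_apply, Pi.mul_apply, pairScale, Pi.add_apply, Pi.smul_apply, Pi.sub_apply,
        smul_eq_mul]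
      by_cases hki : k = i
      · subst hki; simp [hai, h1i]
      · by_cases hkj : k = j
        · subst hkj; simp [haj, h1j]
        · simp [hki, hkj, hak k hki]
    have hm2 : LinearMap.mulLeft K (pairScale i j g) w2 = g • b + (w2 - b) := by
      ext k
      simp only [LinearMap.mulLeft_apply, Pi.mul_apply, pairScale, Pi.add_apply, Pi.smul_apply, Pi.sub_apply,
        smul_eq_mul]
      by_cases hkj : k = j
      · subst hkj; simp [hbj, h2j]
      · by_cases hki : k = i
        · subst hki; simp [hbi, h2i]
        · simp [hki, hkj, hbk k hkj]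
    have hm3 : O.map (LinearMap.mulLeft K (pairScale i j g)) = O := by
      have hfix : ∀ o ∈ O, LinearMap.mulLeft K (pairScale i j g) o = o := by
        intro o ho
        rw [hO, D1_mem_O] at ho
        ext k
        simp only [LinearMap.mulLeft_apply, Pi.mul_apply, pairScale]
        by_cases hki : k = i
        · subst hki; simp [ho.2.1]
        · by_cases hkj : k = j
          · subst hkj; simp [ho.2.2]
          · simp [hki, hkj]
      apply le_antisymm
      · rintro x ⟨o, ho, rfl⟩
        rw [hfix o ho]; exact ho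
      · intro o ho
        exact ⟨o, ho, hfix o ho⟩
    conv_lhs => rw [hdec]
    rw [Submodule.map_sup, hm3, Submodule.map_span, Set.image_pair, hm1, hm2]
  · -- tsum
    unfold tsum_
    refine Finset.sum_congr rfl fun r hr => ?_
    have hr' : r ^ d = -1 := (Polynomial.mem_nthRootsFinset hd0 _).mp hr
    rw [proj_single]
    have hbot : W ⊓ spineSpan [(i, j, r)] = ⊥ := by
      rw [spineSpan_singleton, eq_bot_iff]
      intro x hx
      rw [Submodule.mem_inf, Submodule.mem_span_singleton] at hx
      obtain ⟨hx1, t, rfl⟩ := hx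
      by_cases ht : t = 0
      · rw [ht, zero_smul]; exact Submodule.zero_mem _
      · exact absurd ((Submodule.smul_mem_iff _ ht).mp hx1) (hnot r hr')
    rw [hbot, finrank_bot, pow_zero, mul_one]
    congr 1
    unfold link
    rw [spineSpan_singleton]
    have hWH : W ⊓ spineHyp [(i, j, r)] = O ⊔ Submodule.span K {w1 + r • w2} := by
      apply le_antisymm
      · intro x hx
        rw [Submodule.mem_inf] at hx
        have hx2 : x j = r * x i := hx.2 (i, j, r) (by simp)
        rw [Submodule.mem_sup]
        refine ⟨x - x i • (w1 + r • w2), ?_, x i • (w1 + r • w2), ?_, by simp⟩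
        · rw [hO, D1_mem_O]
          refine ⟨W.sub_mem hx.1 (W.smul_mem _ (W.add_mem h1 (W.smul_mem _ h2))), ?_, ?_⟩
          · simp [h1i, h2i]
          · simp only [Pi.sub_apply, Pi.smul_apply, Pi.add_apply, smul_eq_mul, h1j, h2j, hx2]
            ring
        · rw [Submodule.mem_span_singleton]
          exact ⟨x i, rfl⟩
      · refine sup_le ?_ ?_
        · intro o ho
          rw [hO, D1_mem_O] at ho
          refine ⟨ho.1, ?_⟩
          intro q hq
          rw [List.mem_singleton] at hq
          subst hq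
          simp [ho.2.1, ho.2.2]
        · rw [Submodule.span_singleton_le_iff_mem]
          refine ⟨W.add_mem h1 (W.smul_mem _ h2), ?_⟩
          intro q hq
          rw [List.mem_singleton] at hq
          subst hq
          simp [h1i, h1j, h2i, h2j]
    rw [hWH, hvec, sup_assoc, ← Submodule.span_union, Set.singleton_union]
    refine D1_span_pair_eq O (a + r • b) (w1 - a + r • (w2 - b)) _ _ ?_ ?_ ?_ ?_
    · exact D1_mem_pair O _ _ 1 1 _ (by module)
    · exact D1_mem_pair O _ _ 1 0 _ (by module)
    · exact D1_mem_pair O _ _ 0 1 _ (by module)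
    · exact D1_mem_pair O _ _ 1 (-1) _ (by module)

end Pool.Agent.FermatLin
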