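import Pool.Agent.Lib.MP_a1cc03_ag.FL.B1
import Pool.Agent.Lib.MP_a1cc03_ag.FL.B2
import Pool.Agent.Lib.MP_a1cc03_ag.FL.C1
import Pool.Agent.Lib.MP_a1cc03_ag.FL.E1

/-! Row fer-D2. The basic relation when `W → K²`, `x ↦ (x i, x j)`, has rank one, two cases.

`O = {x ∈ W : x i = 0, x j = 0}`, `W = O ⊕ K w`, `finrank O + 1 = m`.

`relT_one_a` (`δ = (w i)^d + (w j)^d ≠ 0`): `p = w i • e_i + w j • e_j`, `p' = w - p` (coordinates `i, j` are 0).
`tsum_`: `vec i j r ∉ W` (if `vec i j r = y • w + o` then `1 = y w i`, `r = y w j`, so `δ = 0`), `W ⊓ H = O`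
(`w ∉ H`), so `link = O ⊔ K vec i j r = O ⊔ span {e_i + r • e_j}`; apply `isCI_one` with `a = e_i`, `b = e_j`, `c = 1`
(`∑ (s e_i + t e_j + o)^d = s^d + t^d + ∑ o^d`, dimension: `a, b` are independent mod `O` because of the
coordinates `i, j`). `dsum`: `W.map (pairScale g) = O ⊔ K (p' + g • p)`; let `ζ^d = -1`; the roots `g` of `1` are the
`r ζ`, `r^d = -1`; apply `isCI_one` with `a = p'`, `b = ζ • p`, `c = - δ`: for `o ∈ O`,
`∑ (s p' + o)^d = - s^d δ` because `s • w + o ∈ W`, and `∑ (s p' + t ζ p + o)^d = - s^d δ + t^d ζ^d δ`. Dimension of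
`O ⊔ span {p', ζ p}`: `p ∉ O ⊔ K w = W` (it is not isotropic).

`relT_one_b` (`v0 = vec i j r0 ∈ W`): `x j = r0 x i` on `W` (`isotropic_hyp`), so `W = O ⊔ K v0`. For `r ≠ r0`:
`W ⊓ H_r = O`, `vec i j r ∉ W`, `link = O ⊔ K vec i j r`, coefficient 1. For `r = r0`: `link = W = O ⊔ K v0`
(`finrank_link_inf`), coefficient `1 - d` (`W ⊓ K v0` has dimension 1). `dsum`: `W.map (pairScale g) = W`, `d` terms
(`card_nthRoots`). The sum is `∑_r [O ⊔ K (e_i + r e_j)]`: `isCI_one` with `a = e_i`, `b = e_j`, `c = 1`.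
-/

namespace Pool.Agent.FermatLin

open Submodule

theorem D2_sum_two {ι K : Type} [Fintype ι] [Field K] (f g : ι → K) (i j : ι) (hij : i ≠ j)
    (h : ∀ k, k ≠ i → k ≠ j → f k = g k) : ∑ k, f k = ∑ k, g k + (f i - g i) + (f j - g j) := by
  classical
  have e : ∑ k, (f k - g k) = (f i - g i) + (f j - g j) :=
    Fintype.sum_eq_add i j hij (fun k hk => by rw [h k hk.1 hk.2, sub_self])
  rw [Finset.sum_sub_distrib] at e
  linear_combination e

/-- the vectors of `W` with coordinates `i` and `j` zero -/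
def D2_O {ι K : Type} [Field K] (W : Submodule K (ι → K)) (i j : ι) : Submodule K (ι → K) where
  carrier := {x | x ∈ W ∧ x i = 0 ∧ x j = 0}
  add_mem' := by
    rintro x y ⟨h1, h2, h3⟩ ⟨h4, h5, h6⟩
    exact ⟨W.add_mem h1 h4, by simp [h2, h5], by simp [h3, h6]⟩
  zero_mem' := ⟨W.zero_mem, rfl, rfl⟩
  smul_mem' := by
    rintro c x ⟨h1, h2, h3⟩
    exact ⟨W.smul_mem c h1, by simp [h2], by simp [h3]⟩

theorem D2_mem_O {ι K : Type} [Field K] (W : Submodule K (ι → K)) (i j : ι) (x : ι → K) :
    x ∈ D2_O W i j ↔ x ∈ W ∧ x i = 0 ∧ x j = 0 := Iff.rfl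

theorem D2_finrank_sup {ι K : Type} [Fintype ι] [Field K] (O : Submodule K (ι → K)) (a : ι → K) (ha : a ∉ O) :
    Module.finrank K ↥(O ⊔ span K {a}) = Module.finrank K O + 1 := by
  have h0 : a ≠ 0 := fun h => ha (h ▸ O.zero_mem)
  have h1 := Submodule.finrank_sup_add_finrank_inf_eq O (span K {a})
  have h2 : O ⊓ span K {a} = ⊥ := by
    rw [← disjoint_iff, Submodule.disjoint_span_singleton' h0]
    exact ha
  rw [h2, finrank_bot, finrank_span_singleton h0] at h1
  omega

theorem D2_mem_hyp {ι K : Type} [Fintype ι] [DecidableEq ι] [Field K] (i j : ι) (r : K) (x : ι → K) :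
    x ∈ spineHyp [(i, j, r)] ↔ x j = r * x i := by
  constructor
  · intro h; exact h (i, j, r) (by simp)
  · intro h p hp
    rw [List.mem_singleton] at hp
    subst hp; exact h

/-- the family `O ⊔ K (e_i + r e_j)` -/
theorem D2_plane {ι K : Type} [Fintype ι] [DecidableEq ι] [Field K] [IsAlgClosed K] [CharZero K] (d m : ℕ)
    (hd : 2 ≤ d) (W : Submodule K (ι → K)) (hW : IsLin d m W) (i j : ι) (hij : i ≠ j)
    (hO : Module.finrank K (D2_O W i j) + 1 = m) :
    ∃ S, IsCI d m 1 S ∧ cyc S =
      ∑ r ∈ Polynomial.nthRootsFinset d (-1 : K), Finsupp.single (D2_O W i j ⊔ span K {vec i j r}) 1 := by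
  have hji : j ≠ i := hij.symm
  obtain ⟨S, hS, hc⟩ := isCI_one d m (by omega) (D2_O W i j) (Pi.single i (1 : K)) (Pi.single j (1 : K)) hO
    (by
      have e1 : D2_O W i j ⊔ span K {Pi.single i (1 : K), Pi.single j (1 : K)} =
          (D2_O W i j ⊔ span K {Pi.single i (1 : K)}) ⊔ span K {Pi.single j (1 : K)} := by
        rw [Submodule.span_insert, sup_assoc]
      have n1 : (Pi.single i (1 : K) : ι → K) ∉ D2_O W i j := by
        intro h
        have := h.2.1
        simp at this
      have n2 : (Pi.single j (1 : K) : ι → K) ∉ D2_O W i j ⊔ span K {Pi.single i (1 : K)} := by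
        intro h
        obtain ⟨o, ho, z, hz, hoz⟩ := Submodule.mem_sup.1 h
        obtain ⟨c, rfl⟩ := Submodule.mem_span_singleton.1 hz
        have h1 := congrFun hoz j
        have h2 : o j = 0 := ho.2.2
        simp [h2, hji] at h1
      rw [e1, D2_finrank_sup _ _ n2, D2_finrank_sup _ _ n1, hO]) 1 one_ne_zero
    (by
      intro o ho s t
      have hs := D2_sum_two (fun k => ((s • (Pi.single i (1 : K) : ι → K) + t • (Pi.single j (1 : K) : ι → K) + o) k) ^ d)
        (fun k => o k ^ d) i j hij (by
          intro k hki hkj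
          simp [hki, hkj])
      have h1 : o i = 0 := ho.2.1
      have h2 : o j = 0 := ho.2.2
      have h3 : ∑ k, o k ^ d = 0 := hW.2 o ho.1
      have h0 : (0 : K) ^ d = 0 := zero_pow (by omega)
      rw [hs, h3]
      simp [h1, h2, h0, hij, hji])
  refine ⟨S, hS, ?_⟩
  rw [hc]
  refine Finset.sum_congr rfl fun r _ => ?_
  have : (Pi.single i (1 : K) : ι → K) + r • (Pi.single j (1 : K) : ι → K) = vec i j r := by
    unfold vec
    congr 1
    rw [← Pi.single_smul, smul_eq_mul, mul_one]
  rw [this]

/-- one term of `tsum_` when `vec i j r ∉ W` and `W ⊓ H = O` -/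
theorem D2_term {ι K : Type} [Fintype ι] [DecidableEq ι] [Field K] (d : ℕ)
    (W : Submodule K (ι → K)) (i j : ι) (hij : i ≠ j) (r : K) (hv : vec i j r ∉ W)
    (hH : ∀ x ∈ W, x j = r * x i → x i = 0 ∧ x j = 0) :
    proj d [(i, j, r)] (Finsupp.single W 1) = Finsupp.single (D2_O W i j ⊔ span K {vec i j r}) 1 := by
  have hv0 : vec i j r ≠ 0 := fun h => hv (h ▸ W.zero_mem)
  have h1 : W ⊓ spineSpan [(i, j, r)] = ⊥ := by
    rw [spineSpan_singleton, ← disjoint_iff, Submodule.disjoint_span_singleton' hv0]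
    exact hv
  have h2 : W ⊓ spineHyp [(i, j, r)] = D2_O W i j := by
    ext x
    rw [Submodule.mem_inf, D2_mem_hyp, D2_mem_O]
    constructor
    · rintro ⟨hx, hxr⟩; exact ⟨hx, hH x hx hxr⟩
    · rintro ⟨hx, h3, h4⟩; exact ⟨hx, by rw [h3, h4, mul_zero]⟩
  rw [proj_single, h1, finrank_bot, pow_zero, mul_one, link, h2, spineSpan_singleton]

theorem D2_map_apply {ι K : Type} [Fintype ι] [DecidableEq ι] [Field K] (i j : ι) (g : K) (x : ι → K) (k : ι) :
    (LinearMap.mulLeft K (pairScale i j g) x) k = (if k = i ∨ k = j then g else 1) * x k := by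
  simp [pairScale]

theorem relT_one_a {ι K : Type} [Fintype ι] [DecidableEq ι] [Field K] [IsAlgClosed K] [CharZero K] (d m : ℕ)
    (hd : 2 ≤ d) (hcard : Fintype.card ι ≤ 2 * m + 1) (W : Submodule K (ι → K)) (hW : IsLin d m W) (i j : ι)
    (hij : i ≠ j) (w : ι → K) (hw : w ∈ W) (hδ : w i ^ d + w j ^ d ≠ 0)
    (h : ∀ x ∈ W, ∃ y : K, x i = y * w i ∧ x j = y * w j) :
    ∃ S S', IsCI d m 1 S ∧ IsCI d m 1 S' ∧
      tsum_ d i j (Finsupp.single W 1) + dsum d i j (Finsupp.single W 1) = cyc S + cyc S' := by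
  have hji : j ≠ i := hij.symm
  have hd0 : d ≠ 0 := by omega
  have h00 : (0 : K) ^ d = 0 := zero_pow hd0
  -- w is not in O
  have hwO : w ∉ D2_O W i j := by
    intro h1
    apply hδ
    rw [h1.2.1, h1.2.2, h00, add_zero]
  -- W = O ⊔ K w
  have hWO : D2_O W i j ⊔ span K {w} = W := by
    apply le_antisymm
    · apply sup_le
      · intro x hx; exact hx.1
      · rw [Submodule.span_singleton_le_iff_mem]; exact hw
    · intro x hx
      obtain ⟨y, h1, h2⟩ := h x hx
      rw [Submodule.mem_sup]
      refine ⟨x - y • w, ⟨W.sub_mem hx (W.smul_mem y hw), ?_, ?_⟩, y • w,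
        Submodule.smul_mem _ _ (Submodule.mem_span_singleton_self w), by simp⟩
      · simp [h1]
      · simp [h2]
  have hO : Module.finrank K (D2_O W i j) + 1 = m := by
    rw [← D2_finrank_sup _ _ hwO, hWO, hW.1]
  -- first cycle
  obtain ⟨S, hS, hSc⟩ := D2_plane d m hd W hW i j hij hO
  -- the vectors p, p'
  set p : ι → K := fun k => if k = i ∨ k = j then w k else 0 with hp
  set p' : ι → K := fun k => if k = i ∨ k = j then 0 else w k with hp'
  have hpp : p' + p = w := by
    funext k
    simp only [Pi.add_apply, hp, hp']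
    split_ifs <;> simp
  obtain ⟨ζ, hζ⟩ : ∃ ζ : K, ζ ^ d = -1 := IsAlgClosed.exists_pow_nat_eq (-1 : K) (by omega)
  have hζ0 : ζ ≠ 0 := by
    intro h0
    rw [h0, h00] at hζ
    exact one_ne_zero (neg_eq_zero.1 hζ.symm)
  have hpW : p ∉ W := by
    intro h1
    apply hδ
    have h2 := hW.2 p h1
    rw [D2_sum_two (fun k => p k ^ d) (fun _ => 0) i j hij (by
      intro k hki hkj
      simp [hp, hki, hkj, h00])] at h2
    simpa [hp] using h2
  obtain ⟨S', hS', hSc'⟩ := isCI_one d m (by omega) (D2_O W i j) p' (ζ • p) hO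
    (by
      have e1 : D2_O W i j ⊔ span K {p', ζ • p} = W ⊔ span K {p} := by
        apply le_antisymm
        · apply sup_le
          · intro x hx; exact Submodule.mem_sup_left hx.1
          · rw [Submodule.span_le]
            have hpm : p ∈ W ⊔ span K {p} := Submodule.mem_sup_right (Submodule.mem_span_singleton_self p)
            have hp'm : p' ∈ W ⊔ span K {p} := by
              have : p' = w - p := by rw [← hpp]; simp
              rw [this]
              exact Submodule.sub_mem _ (Submodule.mem_sup_left hw) hpm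
            intro x hx
            rcases hx with hx | hx
            · rw [hx]; exact hp'm
            · rw [Set.mem_singleton_iff.1 hx]; exact Submodule.smul_mem _ _ hpm
        · have hp1 : p ∈ D2_O W i j ⊔ span K {p', ζ • p} := by
            have h1 : ζ • p ∈ D2_O W i j ⊔ span K {p', ζ • p} :=
              Submodule.mem_sup_right (Submodule.subset_span (Set.mem_insert_of_mem _ (Set.mem_singleton _)))
            have h2 := Submodule.smul_mem _ ζ⁻¹ h1
            rwa [smul_smul, inv_mul_cancel₀ hζ0, one_smul] at h2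
          have hp2 : p' ∈ D2_O W i j ⊔ span K {p', ζ • p} :=
            Submodule.mem_sup_right (Submodule.subset_span (Set.mem_insert _ _))
          apply sup_le
          · refine le_trans hWO.ge ?_
            apply sup_le le_sup_left
            rw [Submodule.span_singleton_le_iff_mem, ← hpp]
            exact Submodule.add_mem _ hp2 hp1
          · rw [Submodule.span_singleton_le_iff_mem]
            exact hp1
      rw [e1, D2_finrank_sup _ _ hpW, hW.1]) (-(w i ^ d + w j ^ d)) (neg_ne_zero.2 hδ)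
    (by
      intro o ho s t
      have h1 : o i = 0 := ho.2.1
      have h2 : o j = 0 := ho.2.2
      have h3 : ∑ k, (s • w + o) k ^ d = 0 := hW.2 _ (W.add_mem (W.smul_mem s hw) ho.1)
      have hs := D2_sum_two (fun k => ((s • p' + t • ζ • p + o) k) ^ d)
        (fun k => (s • w + o) k ^ d) i j hij (by
          intro k hki hkj
          simp [hp, hp', hki, hkj])
      rw [hs, h3]
      simp only [Pi.add_apply, Pi.smul_apply, smul_eq_mul, hp, hp', h1, h2, true_or, or_true, if_true, mul_zero,
        zero_add, add_zero, mul_pow, hζ]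
      ring)
  refine ⟨S, S', hS, hS', ?_⟩
  congr 1
  · rw [hSc]
    unfold tsum_
    refine Finset.sum_congr rfl fun r hr => ?_
    have hr1 : r ^ d = -1 := (Polynomial.mem_nthRootsFinset (by omega) _).1 hr
    refine D2_term d W i j hij r ?_ ?_
    · intro hv
      obtain ⟨y, h1, h2⟩ := h _ hv
      have h3 : (vec i j r) i = 1 := by simp [vec, hij]
      have h4 : (vec i j r) j = r := by simp [vec, hji]
      rw [h3] at h1
      rw [h4] at h2
      apply hδ
      have hy : y ≠ 0 := by
        intro hy; rw [hy, zero_mul] at h1; exact one_ne_zero h1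
      have h5 : y ^ d * (w i ^ d + w j ^ d) = 0 := by
        rw [mul_add, ← mul_pow, ← mul_pow, ← h1, ← h2, hr1, one_pow]; ring
      exact (mul_eq_zero.1 h5).resolve_left (pow_ne_zero _ hy)
    · intro x hx hxr
      obtain ⟨y, h1, h2⟩ := h x hx
      by_cases hy : y = 0
      · rw [h1, h2, hy]; simp
      · exfalso
        apply hδ
        have h3 : w j = r * w i := by
          rw [h1, h2] at hxr
          have : y * (w j - r * w i) = 0 := by linear_combination hxr
          exact sub_eq_zero.1 ((mul_eq_zero.1 this).resolve_left hy)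
        rw [h3, mul_pow, hr1]; ring
  · rw [hSc']
    unfold dsum
    symm
    refine Finset.sum_nbij' (fun r => r * ζ) (fun g => g * ζ⁻¹) ?_ ?_ ?_ ?_ ?_
    · intro r hr
      rw [Polynomial.mem_nthRootsFinset (by omega)] at hr ⊢
      rw [mul_pow, hr, hζ]; ring
    · intro g hg
      rw [Polynomial.mem_nthRootsFinset (by omega)] at hg ⊢
      rw [mul_pow, inv_pow, hg, hζ]; norm_num
    · intro r _
      simp [mul_assoc, mul_inv_cancel₀ hζ0]
    · intro g _
      simp [mul_assoc, inv_mul_cancel₀ hζ0]
    · intro r hr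
      rw [act_single]
      congr 1
      have hfix : ∀ o ∈ D2_O W i j, LinearMap.mulLeft K (pairScale i j (r * ζ)) o = o := by
        intro o ho
        funext k
        rw [D2_map_apply]
        split_ifs with hk
        · rcases hk with rfl | rfl
          · rw [ho.2.1, mul_zero]
          · rw [ho.2.2, mul_zero]
        · rw [one_mul]
      have hfw : LinearMap.mulLeft K (pairScale i j (r * ζ)) w = p' + r • ζ • p := by
        funext k
        rw [D2_map_apply]
        simp only [Pi.add_apply, Pi.smul_apply, smul_eq_mul, hp, hp']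
        split_ifs with hk
        · ring
        · ring
      have : W.map (LinearMap.mulLeft K (pairScale i j (r * ζ))) =
          (D2_O W i j ⊔ span K {w}).map (LinearMap.mulLeft K (pairScale i j (r * ζ))) := by rw [hWO]
      rw [this, Submodule.map_sup, Submodule.map_span, Set.image_singleton, hfw]
      congr 1
      ext x
      constructor
      · intro hx
        exact ⟨x, hx, hfix x hx⟩
      · rintro ⟨y, hy, rfl⟩
        rw [hfix y hy]; exact hy

theorem relT_one_b {ι K : Type} [Fintype ι] [DecidableEq ι] [Field K] [IsAlgClosed K] [CharZero K] (d m : ℕ)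
    (hd : 2 ≤ d) (hcard : Fintype.card ι ≤ 2 * m + 1) (W : Submodule K (ι → K)) (hW : IsLin d m W) (i j : ι)
    (hij : i ≠ j) (r0 : K) (hr0 : r0 ^ d = -1) (hv : vec i j r0 ∈ W) :
    ∃ S, IsCI d m 1 S ∧ tsum_ d i j (Finsupp.single W 1) + dsum d i j (Finsupp.single W 1) = cyc S := by
  classical
  have hji : j ≠ i := hij.symm
  have hd0 : d ≠ 0 := by omega
  have h00 : (0 : K) ^ d = 0 := zero_pow hd0
  have hyp : ∀ x ∈ W, x j = r0 * x i := fun x hx => isotropic_hyp d hd W hW.2 i j hij r0 hr0 hv x hx
  have hvi : ∀ r, (vec i j r : ι → K) i = 1 := fun r => by simp [vec, hij]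
  have hvj : ∀ r, (vec i j r : ι → K) j = r := fun r => by simp [vec, hji]
  have hvO : vec i j r0 ∉ D2_O W i j := by
    intro h1
    have := h1.2.1
    rw [hvi] at this
    exact one_ne_zero this
  have hdec : ∀ x ∈ W, x - x i • vec i j r0 ∈ D2_O W i j := by
    intro x hx
    refine ⟨W.sub_mem hx (W.smul_mem _ hv), ?_, ?_⟩
    · simp [hvi]
    · simp only [Pi.sub_apply, Pi.smul_apply, smul_eq_mul, hvj, hyp x hx]; ring
  have hWO : D2_O W i j ⊔ span K {vec i j r0} = W := by
    apply le_antisymm
    · apply sup_le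
      · intro x hx; exact hx.1
      · rw [Submodule.span_singleton_le_iff_mem]; exact hv
    · intro x hx
      rw [Submodule.mem_sup]
      exact ⟨x - x i • vec i j r0, hdec x hx, x i • vec i j r0,
        Submodule.smul_mem _ _ (Submodule.mem_span_singleton_self _), by simp⟩
  have hO : Module.finrank K (D2_O W i j) + 1 = m := by
    rw [← D2_finrank_sup _ _ hvO, hWO, hW.1]
  obtain ⟨S, hS, hSc⟩ := D2_plane d m hd W hW i j hij hO
  refine ⟨S, hS, ?_⟩
  -- the terms
  have hr0m : r0 ∈ Polynomial.nthRootsFinset d (-1 : K) := (Polynomial.mem_nthRootsFinset (by omega) _).2 hr0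
  have ht0 : proj d [(i, j, r0)] (Finsupp.single W 1) = Finsupp.single W (1 - (d : ℤ)) := by
    have h1 : W ⊓ spineSpan [(i, j, r0)] = span K {vec i j r0} := by
      rw [spineSpan_singleton, inf_eq_right, Submodule.span_singleton_le_iff_mem]; exact hv
    have h2 : link [(i, j, r0)] W = W := (finrank_link_inf d m hd hcard W hW i j hij r0 hr0).1 hv
    have hv0 : vec i j r0 ≠ 0 := by
      intro h; rw [h] at hvO; exact hvO (Submodule.zero_mem _)
    rw [proj_single, h1, h2, finrank_span_singleton hv0, pow_one, one_mul]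
  have ht : ∀ r ∈ (Polynomial.nthRootsFinset d (-1 : K)).erase r0,
      proj d [(i, j, r)] (Finsupp.single W 1) = Finsupp.single (D2_O W i j ⊔ span K {vec i j r}) 1 := by
    intro r hr
    have hne : r ≠ r0 := Finset.ne_of_mem_erase hr
    refine D2_term d W i j hij r ?_ ?_
    · intro h1
      have h2 := hyp _ h1
      rw [hvi, hvj, mul_one] at h2
      exact hne h2
    · intro x hx hxr
      have h2 := hyp x hx
      have h3 : (r - r0) * x i = 0 := by linear_combination h2 - hxr
      have h4 : x i = 0 := (mul_eq_zero.1 h3).resolve_left (sub_ne_zero.2 hne)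
      exact ⟨h4, by rw [h2, h4, mul_zero]⟩
  have hds : dsum d i j (Finsupp.single W 1) = Finsupp.single W (d : ℤ) := by
    unfold dsum
    have h1 : ∀ g ∈ Polynomial.nthRootsFinset d (1 : K),
        act (pairScale i j g) (Finsupp.single W (1 : ℤ)) = Finsupp.single W 1 := by
      intro g hg
      have hg1 : g ^ d = 1 := (Polynomial.mem_nthRootsFinset (by omega) _).1 hg
      have hg0 : g ≠ 0 := by
        intro h0; rw [h0, h00] at hg1; exact zero_ne_one hg1
      rw [act_single]
      congr 1
      have hmap : ∀ (g : K), ∀ x ∈ W, LinearMap.mulLeft K (pairScale i j g) x =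
          (x - x i • vec i j r0) + (g * x i) • vec i j r0 := by
        intro g x hx
        funext k
        rw [D2_map_apply]
        simp only [Pi.add_apply, Pi.sub_apply, Pi.smul_apply, smul_eq_mul]
        split_ifs with hk
        · rcases hk with rfl | rfl
          · rw [hvi]; ring
          · rw [hvj, hyp x hx]; ring
        · push Not at hk
          have : (vec i j r0 : ι → K) k = 0 := by simp [vec, hk.1, hk.2]
          rw [this]; ring
      ext x
      constructor
      · rintro ⟨y, hy, rfl⟩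
        rw [hmap g y hy]
        exact W.add_mem (hdec y hy).1 (W.smul_mem _ hv)
      · intro hx
        refine ⟨(x - x i • vec i j r0) + (g⁻¹ * x i) • vec i j r0,
          W.add_mem (hdec x hx).1 (W.smul_mem _ hv), ?_⟩
        have hy : (x - x i • vec i j r0) + (g⁻¹ * x i) • vec i j r0 ∈ W :=
          W.add_mem (hdec x hx).1 (W.smul_mem _ hv)
        rw [hmap g _ hy]
        funext k
        simp only [Pi.add_apply, Pi.sub_apply, Pi.smul_apply, smul_eq_mul, hvi]
        field_simp
        ring
    rw [Finset.sum_congr rfl h1, Finset.sum_const, card_nthRoots d (by omega) (1 : K) one_ne_zero,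
      Finsupp.smul_single, nsmul_eq_mul, mul_one]
  unfold tsum_
  rw [hSc, hds, ← Finset.add_sum_erase _ _ hr0m, ← Finset.add_sum_erase _ _ hr0m, ht0, Finset.sum_congr rfl ht,
    hWO, add_right_comm, ← Finsupp.single_add]
  congr 2
  ring

end Pool.Agent.FermatLin
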