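import Pool.Agent.Lib.MP_a1cc03_ag.FL.D1
import Pool.Agent.Lib.MP_a1cc03_ag.FL.D2

/-! Row fer-D3. The basic relation for every `W`.

If `vec i j r ∈ W` for some root `r` of `-1`: `relT_one_b`. Otherwise consider `W → K²`, `x ↦ (x i, x j)`. Surjective:
`relT_two`. Zero: impossible (`vec_mem_of_le` with any root `r`). Rank one: there is `w ∈ W` with `(w i, w j) ≠ 0` and
`(x i, x j)` is a multiple of `(w i, w j)` for all `x ∈ W`; if `w i ^ d + w j ^ d = 0` then `w i ≠ 0`, `r = w j / w i` is a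
root of `-1` and `x j = r x i` on `W`, so `vec i j r ∈ W` (`vec_mem_of_le`), excluded; so `relT_one_a`.
-/

namespace Pool.Agent.FermatLin

theorem D3_cyc_mem {ι K : Type} [Fintype ι] [Field K] (d m a : ℕ) (S : Finset (Submodule K (ι → K)))
    (hS : IsCI d m a S) : cyc S ∈ Big ι K d m :=
  AddSubgroup.subset_closure (Or.inl ⟨a, S, hS, rfl⟩)

theorem relT {ι K : Type} [Fintype ι] [DecidableEq ι] [Field K] [IsAlgClosed K] [CharZero K] (d m : ℕ)
    (hd : 2 ≤ d) (hcard : Fintype.card ι ≤ 2 * m + 1) (W : Submodule K (ι → K)) (hW : IsLin d m W) (i j : ι)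
    (hij : i ≠ j) :
    tsum_ d i j (Finsupp.single W 1) + dsum d i j (Finsupp.single W 1) ∈ Big ι K d m := by
  by_cases hb : ∃ r : K, r ^ d = -1 ∧ vec i j r ∈ W
  · obtain ⟨r, hr, hv⟩ := hb
    obtain ⟨S, hS, h⟩ := relT_one_b d m hd hcard W hW i j hij r hr hv
    rw [h]
    exact D3_cyc_mem d m 1 S hS
  have hb' : ∀ r : K, r ^ d = -1 → (∀ x ∈ W, x j = r * x i) → False := fun r hr h =>
    hb ⟨r, hr, vec_mem_of_le d m hd hcard W hW i j hij r hr h⟩
  by_cases hs : ∃ x ∈ W, ∃ y ∈ W, x i * y j - x j * y i ≠ 0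
  · obtain ⟨x, hx, y, hy, hD⟩ := hs
    have hw1 : (x i * y j - x j * y i)⁻¹ • (y j • x - x j • y) ∈ W :=
      W.smul_mem _ (W.sub_mem (W.smul_mem _ hx) (W.smul_mem _ hy))
    have hw2 : (x i * y j - x j * y i)⁻¹ • (x i • y - y i • x) ∈ W :=
      W.smul_mem _ (W.sub_mem (W.smul_mem _ hy) (W.smul_mem _ hx))
    obtain ⟨S, hS, h⟩ := relT_two d m hd hcard W hW i j hij _ _ hw1 hw2
      (by
        simp only [Pi.smul_apply, Pi.sub_apply, smul_eq_mul]
        rw [inv_mul_eq_one₀ hD]; ring)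
      (by
        simp only [Pi.smul_apply, Pi.sub_apply, smul_eq_mul]
        rw [show y j * x j - x j * y j = 0 by ring, mul_zero])
      (by
        simp only [Pi.smul_apply, Pi.sub_apply, smul_eq_mul]
        rw [show x i * y i - y i * x i = 0 by ring, mul_zero])
      (by
        simp only [Pi.smul_apply, Pi.sub_apply, smul_eq_mul]
        rw [inv_mul_eq_one₀ hD]; ring)
    rw [h]
    exact D3_cyc_mem d m 2 S hS
  have hs' : ∀ x ∈ W, ∀ y ∈ W, x i * y j = x j * y i := by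
    intro x hx y hy
    by_contra hne
    exact hs ⟨x, hx, y, hy, sub_ne_zero.mpr hne⟩
  have hd0 : 0 < d := by omega
  by_cases hz : ∀ x ∈ W, x i = 0 ∧ x j = 0
  · obtain ⟨r, hr⟩ := IsAlgClosed.exists_pow_nat_eq (-1 : K) hd0
    exact (hb' r hr (fun x hx => by rw [(hz x hx).1, (hz x hx).2, mul_zero])).elim
  obtain ⟨w, hw⟩ := not_forall.mp hz
  obtain ⟨hwW, hw0⟩ := Classical.not_imp.mp hw
  have hmul : ∀ x ∈ W, ∃ y : K, x i = y * w i ∧ x j = y * w j := by
    intro x hx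
    have hxw := hs' x hx w hwW
    by_cases hwi : w i = 0
    · have hwj : w j ≠ 0 := fun h => hw0 ⟨hwi, h⟩
      refine ⟨x j / w j, ?_, ?_⟩
      · rw [hwi, mul_zero] at hxw
        rw [hwi, mul_zero]
        exact (mul_eq_zero.mp hxw).resolve_right hwj
      · rw [div_mul_cancel₀ _ hwj]
    · refine ⟨x i / w i, ?_, ?_⟩
      · rw [div_mul_cancel₀ _ hwi]
      · rw [div_mul_eq_mul_div, hxw, mul_div_assoc, div_self hwi, mul_one]
  have hδ : w i ^ d + w j ^ d ≠ 0 := by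
    intro h0
    have hwi : w i ≠ 0 := by
      intro h
      rw [h, zero_pow hd0.ne', zero_add] at h0
      exact hw0 ⟨h, pow_eq_zero_iff hd0.ne' |>.mp h0⟩
    refine hb' (w j / w i) ?_ ?_
    · rw [div_pow, div_eq_iff (pow_ne_zero _ hwi), neg_one_mul]
      exact eq_neg_of_add_eq_zero_right h0
    · intro x hx
      have hxw := hs' x hx w hwW
      rw [div_mul_eq_mul_div, eq_div_iff hwi, ← hxw, mul_comm]
  obtain ⟨S, S', hS, hS', h⟩ := relT_one_a d m hd hcard W hW i j hij w hwW hδ hmul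
  rw [h]
  exact AddSubgroup.add_mem _ (D3_cyc_mem d m 1 S hS) (D3_cyc_mem d m 1 S' hS')

end Pool.Agent.FermatLin
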