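import Pool.Agent.Lib.MP_a1cc03_ag.FL.B2
import Pool.Agent.Lib.MP_a1cc03_ag.FL.C1

/-! Row fer-D4. `planeCyc` is a plane section.

`O = spineSpan l` (`isLin_spineSpan`: dimension `m - 1`, isotropic; its elements have coordinates `a`, `b` equal to 0),
`isCI_one` with the vectors `e_a`, `e_b` (`Pi.single a 1`, `Pi.single b 1`), `c = 1`:
`∑ (s e_a + t e_b + o)^d = s^d + t^d + ∑ o^d` (`0 ^ d = 0`). Dimension of `O ⊔ span {e_a, e_b}`: `m + 1`.
`spineSpan ((a, b, r) :: l) = O ⊔ span {e_a + r • e_b}`. `isLin_nil`: `W = ⊥`.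
-/

namespace Pool.Agent.FermatLin

theorem D4_spineSpan_cons {ι K : Type} [Fintype ι] [DecidableEq ι] [Field K] (a b : ι) (r : K)
    (l : List (ι × ι × K)) : spineSpan ((a, b, r) :: l) =
      spineSpan l ⊔ Submodule.span K {(Pi.single a 1 + r • Pi.single b 1 : ι → K)} := by
  have hv : vec a b r = (Pi.single a 1 + r • Pi.single b 1 : ι → K) := by
    unfold vec
    congr 1
    funext i
    simp only [Pi.smul_apply, Pi.single_apply, smul_eq_mul]
    split_ifs <;> simp
  unfold spineSpan
  rw [sup_comm, ← Submodule.span_union]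
  congr 1
  ext v
  simp only [Set.mem_ofPred_eq, List.mem_cons, Set.singleton_union, Set.mem_insert_iff]
  constructor
  · rintro ⟨p, rfl | hp, h⟩
    · left
      rw [h, ← hv]
    · right
      exact ⟨p, hp, h⟩
  · rintro (h | ⟨p, hp, h⟩)
    · exact ⟨(a, b, r), Or.inl rfl, by rw [h, ← hv]⟩
    · exact ⟨p, Or.inr hp, h⟩

theorem D4_coord {ι K : Type} [Fintype ι] [DecidableEq ι] [Field K] (k : ι) (l : List (ι × ι × K))
    (h : ∀ q ∈ l, k ≠ q.1 ∧ k ≠ q.2.1) (o : ι → K) (ho : o ∈ spineSpan l) : o k = 0 := by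
  have hle : spineSpan l ≤ LinearMap.ker (LinearMap.proj k : (ι → K) →ₗ[K] K) := by
    unfold spineSpan
    rw [Submodule.span_le]
    rintro v ⟨p, hp, rfl⟩
    obtain ⟨h1, h2⟩ := h p hp
    simp only [SetLike.mem_coe, LinearMap.mem_ker, LinearMap.proj_apply]
    unfold vec
    rw [Pi.add_apply, Pi.single_eq_of_ne h1, Pi.single_eq_of_ne h2, add_zero]
  have := hle ho
  simpa using this

theorem planeCyc_isCI {ι K : Type} [Fintype ι] [DecidableEq ι] [Field K] [IsAlgClosed K] [CharZero K] (d m : ℕ)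
    (hd : 0 < d) (a b : ι) (r : K) (l : List (ι × ι × K)) (hs : IsSpine d ((a, b, r) :: l))
    (hlen : l.length + 1 = m) : ∃ S, IsCI d m 1 S ∧ planeCyc d l a b = cyc S := by
  obtain ⟨hs1, hs2⟩ := hs
  rw [List.pairwise_cons] at hs2
  obtain ⟨hs2, hs3⟩ := hs2
  have hab : a ≠ b := (hs1 (a, b, r) (by simp)).1
  have hsl : IsSpine d l := ⟨fun p hp => hs1 p (by simp [hp]), hs3⟩
  obtain ⟨hfin, hiso⟩ := isLin_spineSpan d hd l hsl
  have ca : ∀ o ∈ spineSpan l, o a = 0 := D4_coord a l (fun q hq => ⟨(hs2 q hq).1, (hs2 q hq).2.1⟩)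
  have cb : ∀ o ∈ spineSpan l, o b = 0 := D4_coord b l (fun q hq => ⟨(hs2 q hq).2.2.1, (hs2 q hq).2.2.2⟩)
  have hP : Module.finrank K ↥(Submodule.span K {(Pi.single a 1 : ι → K), Pi.single b 1}) = 2 := by
    have hli : LinearIndependent K ![(Pi.single a 1 : ι → K), Pi.single b 1] := by
      rw [LinearIndependent.pair_iff]
      intro s t hst
      have h1 := congrFun hst a
      have h2 := congrFun hst b
      simp only [Pi.add_apply, Pi.smul_apply, Pi.single_eq_same, Pi.single_eq_of_ne hab,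
        Pi.single_eq_of_ne hab.symm, smul_eq_mul, mul_one, mul_zero, add_zero, zero_add, Pi.zero_apply] at h1 h2
      exact ⟨h1, h2⟩
    have := finrank_span_eq_card hli
    have hr : Set.range ![(Pi.single a 1 : ι → K), Pi.single b 1] = {Pi.single a 1, Pi.single b 1} := by
      simp [Matrix.range_cons, Matrix.range_empty, Set.pair_comm]
    rw [hr, Fintype.card_fin] at this
    exact this
  have hinf : spineSpan l ⊓ Submodule.span K {(Pi.single a 1 : ι → K), Pi.single b 1} = ⊥ := by
    rw [eq_bot_iff]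
    rintro x ⟨hx1, hx2⟩
    obtain ⟨s, t, rfl⟩ := Submodule.mem_span_pair.1 hx2
    have h1 := ca _ hx1
    have h2 := cb _ hx1
    simp only [Pi.add_apply, Pi.smul_apply, Pi.single_eq_same, Pi.single_eq_of_ne hab,
        Pi.single_eq_of_ne hab.symm, smul_eq_mul, mul_one, mul_zero, add_zero, zero_add] at h1 h2
    rw [h1, h2, zero_smul, zero_smul, add_zero]
    exact Submodule.zero_mem _
  have hdim : Module.finrank K ↥(spineSpan l ⊔ Submodule.span K {(Pi.single a 1 : ι → K), Pi.single b 1}) =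
      m + 1 := by
    have h := Submodule.finrank_sup_add_finrank_inf_eq (spineSpan l)
      (Submodule.span K {(Pi.single a 1 : ι → K), Pi.single b 1})
    rw [hinf, hP, finrank_bot, hfin] at h
    omega
  obtain ⟨S, hS, hcyc⟩ := isCI_one d m hd (spineSpan l) (Pi.single a 1) (Pi.single b 1) (by rw [hfin, hlen])
    hdim 1 one_ne_zero (by
      intro o ho s t
      have e : ∀ i, ((s • (Pi.single a 1 : ι → K) + t • (Pi.single b 1 : ι → K) + o : ι → K) i) ^ d =
          ((Pi.single a (s ^ d) : ι → K) i + (Pi.single b (t ^ d) : ι → K) i) + o i ^ d := by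
        intro i
        by_cases hia : i = a
        · subst hia
          simp only [Pi.add_apply, Pi.smul_apply, Pi.single_eq_same, Pi.single_eq_of_ne hab, smul_eq_mul,
            mul_one, mul_zero, add_zero, ca o ho, zero_pow hd.ne']
        · by_cases hib : i = b
          · subst hib
            simp only [Pi.add_apply, Pi.smul_apply, Pi.single_eq_same, Pi.single_eq_of_ne hab.symm, smul_eq_mul,
              mul_one, mul_zero, add_zero, zero_add, cb o ho, zero_pow hd.ne']
          · simp only [Pi.add_apply, Pi.smul_apply, Pi.single_eq_of_ne hia, Pi.single_eq_of_ne hib, smul_eq_mul,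
              mul_zero, zero_add]
      rw [Finset.sum_congr rfl (fun i _ => e i), Finset.sum_add_distrib, Finset.sum_add_distrib, hiso o ho,
        Finset.sum_pi_single', Finset.sum_pi_single']
      simp)
  refine ⟨S, hS, ?_⟩
  rw [hcyc]
  unfold planeCyc
  refine Finset.sum_congr rfl (fun r' _ => ?_)
  rw [D4_spineSpan_cons]

end Pool.Agent.FermatLin
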