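import Pool.Agent.Lib.MP_a1cc03_ag.Stmt

/-!
# Linear subspaces of Fermat varieties (MP_a1cc03_ag): definitions

`X ⊂ ℙ(K^ι)` is the Fermat variety `∑ x_i^d = 0`. An `m`-dimensional subspace `W` of `K^ι` on which `∑ x_i^d`
vanishes is the same as a linear subspace `ℙ(W) ⊂ X` of dimension `m - 1`. Cycles are elements of the free
abelian group on all subspaces of `K^ι`; only subspaces with `IsLin d m` matter.
-/

noncomputable section

namespace Pool.Agent.FermatLin

open Pool.Agent.ZC

variable {ι K : Type} [Fintype ι] [Field K]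

/-- `ℙ(W)` is a linear subspace of dimension `m - 1` of the Fermat variety `∑ x_i^d = 0`. -/
def IsLin (d m : ℕ) (W : Submodule K (ι → K)) : Prop :=
  Module.finrank K W = m ∧ ∀ x ∈ W, ∑ i, x i ^ d = 0

/-- Formal integral combinations of subspaces. -/
abbrev Cyc (ι K : Type) [Fintype ι] [Field K] : Type := Submodule K (ι → K) →₀ ℤ

/-- The degree: the sum of the multiplicities. -/
def deg (z : Cyc ι K) : ℤ := z.sum fun _ c => c

/-- The cycle `∑ W`, `W ∈ S`. -/
def cyc (S : Finset (Submodule K (ι → K))) : Cyc ι K := ∑ W ∈ S, Finsupp.single W 1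

/-- `S` is a set of linear subspaces of `X` of dimension `m - 1` whose union is the intersection of `X` with a
linear space `ℙ(Λ)` of dimension `m + k` and with `k` hypersurfaces `A_t = 0` of degrees `e_t` with product `a`, and
the number of elements of `S` is the degree `d * a` of this complete intersection. Then every element of `S` has
multiplicity one in it (Bezout), and the cycle `cyc S` is rationally equivalent to `a` times the intersection of
`X` with a linear space. -/
def IsCI (d m a : ℕ) (S : Finset (Submodule K (ι → K))) : Prop :=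
  (∀ W ∈ S, IsLin d m W) ∧ S.card = d * a ∧
    ∃ (k : ℕ) (Λ : Submodule K (ι → K)) (A : Fin k → MvPolynomial ι K) (e : Fin k → ℕ),
      Module.finrank K Λ = m + 1 + k ∧ (∀ t, (A t).IsHomogeneous (e t)) ∧ ∏ t, e t = a ∧
      ∀ x, (x ∈ Λ ∧ ∑ i, x i ^ d = 0 ∧ ∀ t, MvPolynomial.eval x (A t) = 0) ↔ ∃ W ∈ S, x ∈ W

/-- The relations `b * cyc S - a * cyc T` between complete intersections. -/
def IsCIRel (d m : ℕ) (z : Cyc ι K) : Prop :=
  ∃ a b S T, IsCI d m a S ∧ IsCI d m b T ∧ z = b • cyc S - a • cyc T

/-- The reduction of a subspace of `F^ι` at the place `v` of `F/K`. -/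
def reduce {F : Type} [Field F] [Algebra K F] (v : Place K F) (W : Submodule F (ι → F)) :
    Submodule K (ι → K) where
  carrier := {x | ∃ y ∈ W, ∀ i, 0 < v.ord (y i - algebraMap K F (x i))}
  add_mem' := by
    rintro x x' ⟨y, hy, h⟩ ⟨y', hy', h'⟩
    refine ⟨y + y', W.add_mem hy hy', fun i => ?_⟩
    have e : (y + y') i - algebraMap K F ((x + x') i) =
        (y i - algebraMap K F (x i)) + (y' i - algebraMap K F (x' i)) := by
      simp only [Pi.add_apply, map_add]; ring
    rw [e]
    exact lt_of_lt_of_le (lt_min (h i) (h' i)) (v.ord.map_add _ _)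
  zero_mem' := ⟨0, W.zero_mem, fun i => by simp⟩
  smul_mem' := by
    rintro c x ⟨y, hy, h⟩
    refine ⟨algebraMap K F c • y, W.smul_mem _ hy, fun i => ?_⟩
    have e : (algebraMap K F c • y) i - algebraMap K F ((c • x) i) =
        algebraMap K F c * (y i - algebraMap K F (x i)) := by
      simp only [Pi.smul_apply, smul_eq_mul, map_mul]; ring
    rw [e, v.ord.map_mul]
    by_cases hc : c = 0
    · subst hc; simp
    · rw [v.ord_const c hc, zero_add]; exact h i

/-- The cycles `∑_v ord_v(f) [W(v)]` given by a one-parameter family `W` of linear subspaces of `X` (a linear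
subspace of `X` over the function field `F` of a curve, `W(v)` its reduction at the place `v`) and a nonzero
function `f` on the curve. The last condition holds for every `f`. -/
inductive IsFamRel (d m : ℕ) : Cyc ι K → Prop
  | mk (F : Type) [Field F] [Algebra K F] (hF : IsFunctionField K F) (W : Submodule F (ι → F))
      (hW : IsLin d m W) (f : F) (hf : f ≠ 0)
      (hdeg : deg (∑ᶠ v : Place K F, Finsupp.single (reduce v W) ((v.ord f).untopD 0)) = 0) :
      IsFamRel d m (∑ᶠ v : Place K F, Finsupp.single (reduce v W) ((v.ord f).untopD 0))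

/-- Cycles rationally equivalent to zero: generated by the two kinds of relations. -/
def Rat (ι K : Type) [Fintype ι] [Field K] (d m : ℕ) : AddSubgroup (Cyc ι K) :=
  AddSubgroup.closure ({z | IsCIRel d m z} ∪ {z | IsFamRel d m z})

/-- Cycles rationally equivalent to zero, families only. -/
def RatFam (ι K : Type) [Fintype ι] [Field K] (d m : ℕ) : AddSubgroup (Cyc ι K) :=
  AddSubgroup.closure {z | IsFamRel d m z}

variable [DecidableEq ι]

/-- A spine: a list of triples `(i, j, r)` with `r ^ d = -1` and disjoint pairs `{i, j}`. -/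
def IsSpine (d : ℕ) (l : List (ι × ι × K)) : Prop :=
  (∀ p ∈ l, p.1 ≠ p.2.1 ∧ p.2.2 ^ d = -1) ∧
    l.Pairwise fun p q => p.1 ≠ q.1 ∧ p.1 ≠ q.2.1 ∧ p.2.1 ≠ q.1 ∧ p.2.1 ≠ q.2.1

/-- The vector `e_i + r e_j`. -/
def vec (i j : ι) (r : K) : ι → K := Pi.single i 1 + Pi.single j r

/-- The span of the vectors `e_i + r e_j`, `(i, j, r) ∈ l`. -/
def spineSpan (l : List (ι × ι × K)) : Submodule K (ι → K) :=
  Submodule.span K {v | ∃ p ∈ l, v = vec p.1 p.2.1 p.2.2}

/-- The space `x_j = r x_i`, `(i, j, r) ∈ l`. -/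
def spineHyp (l : List (ι × ι × K)) : Submodule K (ι → K) where
  carrier := {x | ∀ p ∈ l, x p.2.1 = p.2.2 * x p.1}
  add_mem' := by
    intro x y hx hy p hp
    simp only [Pi.add_apply]
    rw [hx p hp, hy p hp]; ring
  zero_mem' := by intro p _; simp
  smul_mem' := by
    intro c x hx p hp
    simp only [Pi.smul_apply, smul_eq_mul]
    rw [hx p hp]; ring

/-- `(W ∩ H) + M` with `M = spineSpan l`, `H = spineHyp l`. -/
def link (l : List (ι × ι × K)) (W : Submodule K (ι → K)) : Submodule K (ι → K) :=
  (W ⊓ spineHyp l) ⊔ spineSpan l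

/-- `∑ z_W (1 - d)^(dim (W ∩ M)) [(W ∩ H) + M]`. -/
def proj (d : ℕ) (l : List (ι × ι × K)) (z : Cyc ι K) : Cyc ι K :=
  z.sum fun W c => Finsupp.single (link l W) (c * (1 - (d : ℤ)) ^ Module.finrank K ↥(W ⊓ spineSpan l))

/-- The cycle `∑_r [M + K (e_a + r e_b)]`, `r ^ d = -1`, `M = spineSpan l`. -/
def planeCyc (d : ℕ) (l : List (ι × ι × K)) (a b : ι) : Cyc ι K :=
  ∑ r ∈ Polynomial.nthRootsFinset d (-1 : K), Finsupp.single (spineSpan ((a, b, r) :: l)) 1

end Pool.Agent.FermatLin
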