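import Pool.Agent.Lib.MP_a1cc03_ag.FL.E1

/-! Row fer-E2. The torus action preserves the family relations.

`act_famRel`: for the data `(F, W, f)` take `(F, W.map (mulLeft F c'), f)`, `c' k = algebraMap K F (c k)`. It is `IsLin` (same
dimension, `c' k ^ d = 1`). `reduce v (W.map D') = (reduce v W).map D`: `v.ord (c' k) = 0`, so
`0 < ord (c' k * y k - x k)` iff `0 < ord (y k - (c k)⁻¹ x k)`. `act c` is an injective additive homomorphism
(`Finsupp.mapDomain_injective`, the map on subspaces is injective), so it commutes with the `finsum`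
(`AddMonoidHom.map_finsum_of_injective`). The degree is unchanged (`Finsupp.sum_mapDomain_index`).
`act_big`: `AddSubgroup.closure_induction`.
-/

namespace Pool.Agent.FermatLin

variable {ι K : Type} [Fintype ι] [Field K]

theorem E2_mulLeft_injective {F : Type} [Field F] (c : ι → F) (hc : ∀ k, c k ≠ 0) :
    Function.Injective (LinearMap.mulLeft F c) := by
  intro x y h
  funext k
  have h1 := congrFun h k
  simp only [LinearMap.mulLeft_apply, Pi.mul_apply] at h1
  exact mul_left_cancel₀ (hc k) h1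

theorem E2_reduce {F : Type} [Field F] [Algebra K F] (v : ZC.Place K F) (W : Submodule F (ι → F))
    (c : ι → K) (hc : ∀ k, c k ≠ 0) :
    reduce v (W.map (LinearMap.mulLeft F (fun k => algebraMap K F (c k)))) =
      (reduce v W).map (LinearMap.mulLeft K c) := by
  ext x
  constructor
  · rintro ⟨y', ⟨y, hy, rfl⟩, h⟩
    refine ⟨fun k => (c k)⁻¹ * x k, ⟨y, hy, fun i => ?_⟩, ?_⟩
    · have h1 := h i
      simp only [LinearMap.mulLeft_apply, Pi.mul_apply] at h1
      have e : algebraMap K F (c i) * y i - algebraMap K F (x i) =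
          algebraMap K F (c i) * (y i - algebraMap K F ((c i)⁻¹ * x i)) := by
        have h0 : algebraMap K F (c i) ≠ 0 := (map_ne_zero _).mpr (hc i)
        rw [map_mul, map_inv₀, mul_sub, ← mul_assoc, mul_inv_cancel₀ h0, one_mul]
      rw [e, v.ord.map_mul, v.ord_const _ (hc i), zero_add] at h1
      exact h1
    · funext k
      simp only [LinearMap.mulLeft_apply, Pi.mul_apply]
      rw [← mul_assoc, mul_inv_cancel₀ (hc k), one_mul]
  · rintro ⟨x0, ⟨y, hy, h⟩, rfl⟩
    refine ⟨LinearMap.mulLeft F (fun k => algebraMap K F (c k)) y, ⟨y, hy, rfl⟩, fun i => ?_⟩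
    simp only [LinearMap.mulLeft_apply, Pi.mul_apply]
    rw [map_mul, ← mul_sub, v.ord.map_mul, v.ord_const _ (hc i), zero_add]
    exact h i

theorem E2_isLin {F : Type} [Field F] (d m : ℕ) (c : ι → F) (hc : ∀ k, c k ≠ 0) (hc1 : ∀ k, c k ^ d = 1)
    (W : Submodule F (ι → F)) (hW : IsLin d m W) : IsLin d m (W.map (LinearMap.mulLeft F c)) := by
  refine ⟨?_, ?_⟩
  · rw [← hW.1]
    exact (Submodule.equivMapOfInjective _ (E2_mulLeft_injective c hc) W).finrank_eq.symm
  · rintro _ ⟨y, hy, rfl⟩
    rw [← hW.2 y hy]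
    apply Finset.sum_congr rfl
    intro k _
    simp only [LinearMap.mulLeft_apply, Pi.mul_apply]
    rw [mul_pow, hc1 k, one_mul]

theorem E2_deg (c : ι → K) (z : Cyc ι K) : deg (act c z) = deg z := by
  unfold deg act
  exact Finsupp.sum_mapDomain_index (fun _ => rfl) (fun _ _ _ => rfl)

theorem act_famRel (d m : ℕ) (c : ι → K) (hc : ∀ k, c k ≠ 0) (hc1 : ∀ k, c k ^ d = 1) (z : Cyc ι K)
    (hz : IsFamRel d m z) : IsFamRel d m (act c z) := by
  obtain ⟨F, hF, W, hW, f, hf, hdeg⟩ := hz
  have hinj : Function.Injective (Finsupp.mapDomain.addMonoidHom (M := ℤ)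
      (fun W : Submodule K (ι → K) => W.map (LinearMap.mulLeft K c))) :=
    Finsupp.mapDomain_injective (Submodule.map_injective_of_injective (E2_mulLeft_injective c hc))
  have e : act c (∑ᶠ v : ZC.Place K F, Finsupp.single (reduce v W) ((v.ord f).untopD 0)) =
      ∑ᶠ v : ZC.Place K F, Finsupp.single
        (reduce v (W.map (LinearMap.mulLeft F (fun k => algebraMap K F (c k))))) ((v.ord f).untopD 0) := by
    have h1 := AddMonoidHom.map_finsum_of_injective (Finsupp.mapDomain.addMonoidHom (M := ℤ)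
      (fun W : Submodule K (ι → K) => W.map (LinearMap.mulLeft K c))) hinj
      (fun v : ZC.Place K F => Finsupp.single (reduce v W) ((v.ord f).untopD 0))
    refine h1.trans (finsum_congr fun v => ?_)
    rw [E2_reduce v W c hc]
    exact Finsupp.mapDomain_single
  rw [e]
  have hc' : ∀ k, (fun k => algebraMap K F (c k)) k ≠ 0 := fun k => (map_ne_zero _).mpr (hc k)
  have hc1' : ∀ k, (fun k => algebraMap K F (c k)) k ^ d = 1 := by
    intro k
    show algebraMap K F (c k) ^ d = 1
    rw [← map_pow, hc1 k, map_one]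
  refine IsFamRel.mk F hF _ (E2_isLin d m _ hc' hc1' W hW) f hf ?_
  rw [← e, E2_deg]
  exact hdeg

theorem act_big (d m : ℕ) (c : ι → K) (hc : ∀ k, c k ≠ 0) (hc1 : ∀ k, c k ^ d = 1) (z : Cyc ι K)
    (hz : z ∈ Big ι K d m) : act c z ∈ Big ι K d m := by
  refine AddSubgroup.closure_induction (p := fun z _ => act c z ∈ Big ι K d m) ?_ ?_ ?_ ?_ hz
  · rintro x (⟨a, S, hS, rfl⟩ | hx)
    · obtain ⟨S', hS', e⟩ := act_isCI d m a c hc hc1 S hS
      rw [e]
      exact AddSubgroup.subset_closure (Or.inl ⟨a, S', hS', rfl⟩)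
    · exact AddSubgroup.subset_closure (Or.inr (act_famRel d m c hc hc1 x hx))
  · rw [act_zero]
    exact AddSubgroup.zero_mem _
  · intro x y _ _ hx hy
    rw [act_add]
    exact AddSubgroup.add_mem _ hx hy
  · intro x _ hx
    rw [act_neg]
    exact AddSubgroup.neg_mem _ hx

end Pool.Agent.FermatLin
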