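import Pool.Agent.Lib.MP_a1cc03_ag.FL.Base

/-! Row fer-G2. The blocks of `W`.

`I = {i : w i ≠ 0}`. For `i, k ∈ I` write `i ~ k` if `x i / w i = x k / w k` for all `x ∈ W`. `[i] = {k ∈ I : i ~ k}`.
(1) For `i ∈ I` the vector `u = w · 1_[i]` is in `W`. For a finite set `T` of elements `j` of `I` with `j ≁ i` there is
`x ∈ W` with `x i = w i` and `x j = 0` for `j ∈ T`: induction on `T`, start `x = w`; step: there is `y ∈ W` with
`y i / w i ≠ y j / w j`, `y' = (y - (y j / w j) w) / (y i / w i - y j / w j) ∈ W` has `y' i = w i`, `y' j = 0`; take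
`x y' / w ∈ W` (`hmul`). For `T` = all `j ∈ I` with `j ≁ i` this `x` is `u`: for `k ~ i`, `x k / w k = x i / w i = 1`; outside
`I` all elements of `W` vanish.
(2) For `x ∈ W` the vector `x · 1_[i] = x u / w` is in `W`.
(3) `[i]` has at least 2 elements: `0 = ∑ u k ^ d = ∑_{k ∈ [i]} w k ^ d` and `w i ≠ 0`.
(4) `W` is spanned by the `w · 1_β`, `β` a block: `x = ∑_β (x i_β / w i_β) w · 1_β`; so `m = finrank W ≤` number of
blocks (`finrank_span_finset_le_card` or similar).
`B` = image of `I` under `i ↦ [i]`.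
-/

namespace Pool.Agent.FermatLin

/-- the block of i -/
noncomputable def G2_blk {ι K : Type} [Fintype ι] [Field K] (W : Submodule K (ι → K)) (w : ι → K) (i : ι) : Finset ι :=
  @Finset.filter ι (fun k => w k ≠ 0 ∧ ∀ x ∈ W, x i * w k = x k * w i) (Classical.decPred _) Finset.univ

theorem G2_mem {ι K : Type} [Fintype ι] [Field K] (W : Submodule K (ι → K)) (w : ι → K) (i k : ι) :
    k ∈ G2_blk W w i ↔ w k ≠ 0 ∧ ∀ x ∈ W, x i * w k = x k * w i := by
  unfold G2_blk
  refine (@Finset.mem_filter ι _ (Classical.decPred _) Finset.univ k).trans ?_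
  exact ⟨fun h => h.2, fun h => ⟨Finset.mem_univ _, h⟩⟩

theorem G2_eq {ι K : Type} [Fintype ι] [Field K] (W : Submodule K (ι → K)) (w : ι → K) (i k : ι)
    (hi : w i ≠ 0) (h : k ∈ G2_blk W w i) : G2_blk W w i = G2_blk W w k := by
  obtain ⟨hk, hr⟩ := (G2_mem W w i k).mp h
  ext l
  rw [G2_mem, G2_mem]
  constructor
  · rintro ⟨hl, h2⟩
    refine ⟨hl, fun x hx => ?_⟩
    have e1 := hr x hx
    have e2 := h2 x hx
    apply mul_right_cancel₀ hi
    calc x k * w l * w i = (x k * w i) * w l := by ring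
      _ = x i * w k * w l := by rw [← e1]
      _ = (x i * w l) * w k := by ring
      _ = x l * w k * w i := by rw [e2]; ring
  · rintro ⟨hl, h2⟩
    refine ⟨hl, fun x hx => ?_⟩
    have e1 := hr x hx
    have e2 := h2 x hx
    apply mul_right_cancel₀ hk
    calc x i * w l * w k = (x i * w k) * w l := by ring
      _ = (x k * w l) * w i := by rw [e1]; ring
      _ = x l * w i * w k := by rw [e2]; ring

theorem G2_step {ι K : Type} [Fintype ι] [Field K] (W : Submodule K (ι → K)) (w : ι → K) (hw : w ∈ W)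
    (hmul : ∀ x ∈ W, ∀ y ∈ W, (fun i => x i * y i / w i) ∈ W) (i : ι) (hi : w i ≠ 0) (T : Finset ι) :
    (∀ j ∈ T, w j ≠ 0 ∧ ¬ ∀ x ∈ W, x i * w j = x j * w i) → ∃ x ∈ W, x i = w i ∧ ∀ j ∈ T, x j = 0 := by
  classical
  induction T using Finset.induction_on with
  | empty => intro _; exact ⟨w, hw, rfl, by simp⟩
  | insert j T hj ih =>
    intro h
    obtain ⟨x, hx, hxi, hxT⟩ := ih fun k hk => h k (Finset.mem_insert_of_mem hk)
    obtain ⟨hwj, hne⟩ := h j (Finset.mem_insert_self _ _)
    push Not at hne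
    obtain ⟨y, hy, hyne⟩ := hne
    have hc : y i / w i - y j / w j ≠ 0 := by
      intro h0
      apply hyne
      rw [sub_eq_zero, div_eq_div_iff hi hwj] at h0
      exact h0
    have hy' : (y i / w i - y j / w j)⁻¹ • (y - (y j / w j) • w) ∈ W :=
      W.smul_mem _ (W.sub_mem hy (W.smul_mem _ hw))
    refine ⟨_, hmul x hx _ hy', ?_, ?_⟩
    · simp only [Pi.smul_apply, Pi.sub_apply, smul_eq_mul]
      rw [hxi]
      have e : y i - y j / w j * w i = (y i / w i - y j / w j) * w i := by
        rw [sub_mul, div_mul_cancel₀ _ hi]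
      rw [e, inv_mul_cancel_left₀ hc, mul_div_assoc, div_self hi, mul_one]
    · intro k hk
      rcases Finset.mem_insert.mp hk with rfl | hk
      · simp only [Pi.smul_apply, Pi.sub_apply, smul_eq_mul]
        rw [div_mul_cancel₀ _ hwj, sub_self, mul_zero, mul_zero, zero_div]
      · rw [hxT k hk, zero_mul, zero_div]

theorem G2_ind {ι K : Type} [Fintype ι] [DecidableEq ι] [Field K] (W : Submodule K (ι → K)) (w : ι → K) (hw : w ∈ W)
    (hw0 : ∀ i, w i = 0 → ∀ x ∈ W, x i = 0)
    (hmul : ∀ x ∈ W, ∀ y ∈ W, (fun i => x i * y i / w i) ∈ W) (i : ι) (hi : w i ≠ 0) :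
    (fun k => if k ∈ G2_blk W w i then w k else 0) ∈ W := by
  classical
  obtain ⟨x, hx, hxi, hxT⟩ := G2_step W w hw hmul i hi
    (Finset.univ.filter fun j => w j ≠ 0 ∧ ¬ ∀ x ∈ W, x i * w j = x j * w i) (fun j hj => (Finset.mem_filter.mp hj).2)
  have : (fun k => if k ∈ G2_blk W w i then w k else 0) = x := by
    funext k
    by_cases hk : k ∈ G2_blk W w i
    · rw [if_pos hk]
      obtain ⟨hk1, hk2⟩ := (G2_mem W w i k).mp hk
      have e := hk2 x hx
      rw [hxi] at e
      apply mul_right_cancel₀ hi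
      rw [← e, mul_comm]
    · rw [if_neg hk]
      by_cases hk0 : w k = 0
      · exact (hw0 k hk0 x hx).symm
      · refine (hxT k (Finset.mem_filter.mpr ⟨Finset.mem_univ _, hk0, fun h => hk ?_⟩)).symm
        exact (G2_mem W w i k).mpr ⟨hk0, h⟩
  rw [this]
  exact hx

theorem exists_blocks {ι K : Type} [Fintype ι] [DecidableEq ι] [Field K] (d m : ℕ) (hd : 0 < d)
    (W : Submodule K (ι → K)) (hW : IsLin d m W) (w : ι → K) (hw : w ∈ W) (hw0 : ∀ i, w i = 0 → ∀ x ∈ W, x i = 0)
    (hmul : ∀ x ∈ W, ∀ y ∈ W, (fun i => x i * y i / w i) ∈ W) :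
    ∃ B : Finset (Finset ι), (∀ β ∈ B, ∀ γ ∈ B, β ≠ γ → Disjoint β γ) ∧ (∀ β ∈ B, 2 ≤ β.card) ∧ m ≤ B.card ∧
      ∀ β ∈ B, ∀ x ∈ W, (fun k => if k ∈ β then x k else 0) ∈ W := by
  classical
  have hself : ∀ i, w i ≠ 0 → i ∈ G2_blk W w i := fun i hi =>
    (G2_mem W w i i).mpr ⟨hi, fun x _ => rfl⟩
  refine ⟨(Finset.univ.filter fun i => w i ≠ 0).image (G2_blk W w), ?_, ?_, ?_, ?_⟩
  · intro β hβ γ hγ hne
    obtain ⟨i, hi, rfl⟩ := Finset.mem_image.mp hβ
    obtain ⟨j, hj, rfl⟩ := Finset.mem_image.mp hγ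
    have hi' := (Finset.mem_filter.mp hi).2
    have hj' := (Finset.mem_filter.mp hj).2
    rw [Finset.disjoint_left]
    intro k hk hk'
    exact hne ((G2_eq W w i k hi' hk).trans (G2_eq W w j k hj' hk').symm)
  · intro β hβ
    obtain ⟨i, hi, rfl⟩ := Finset.mem_image.mp hβ
    have hi' := (Finset.mem_filter.mp hi).2
    by_contra hlt
    have h1 : (G2_blk W w i).card ≤ 1 := by omega
    have hone : ∀ k, k ∈ G2_blk W w i → k = i := fun k hk =>
      Finset.card_le_one.mp h1 k hk i (hself i hi')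
    have hsum := hW.2 _ (G2_ind W w hw hw0 hmul i hi')
    rw [Finset.sum_eq_single i] at hsum
    · rw [if_pos (hself i hi')] at hsum
      exact hi' (pow_eq_zero_iff hd.ne' |>.mp hsum)
    · intro k _ hki
      rw [if_neg (fun h => hki (hone k h)), zero_pow hd.ne']
    · intro h; exact absurd (Finset.mem_univ _) h
  · let u : Finset ι → (ι → K) := fun β k => if k ∈ β then w k else 0
    have hspan : W ≤ Submodule.span K
        ((((Finset.univ.filter fun i => w i ≠ 0).image (G2_blk W w)).image u : Finset (ι → K)) : Set (ι → K)) := by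
      intro x hx
      let c : Finset ι → K := fun β => if h : β.Nonempty then x h.choose / w h.choose else 0
      have hx' : x = ∑ β ∈ (Finset.univ.filter fun i => w i ≠ 0).image (G2_blk W w), c β • u β := by
        funext k
        rw [Finset.sum_apply]
        by_cases hk : w k = 0
        · rw [hw0 k hk x hx]
          symm
          refine Finset.sum_eq_zero fun β _ => ?_
          simp only [Pi.smul_apply, smul_eq_mul, u, hk, ite_self, mul_zero]
        · rw [Finset.sum_eq_single (G2_blk W w k)]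
          · have hne : (G2_blk W w k).Nonempty := ⟨k, hself k hk⟩
            have hch := (G2_mem W w k _).mp hne.choose_spec
            simp only [Pi.smul_apply, smul_eq_mul, u, c]
            rw [dif_pos hne, if_pos (hself k hk), div_mul_eq_mul_div, eq_div_iff hch.1]
            exact hch.2 x hx
          · intro β hβ hne
            obtain ⟨i, hi, rfl⟩ := Finset.mem_image.mp hβ
            have hi' := (Finset.mem_filter.mp hi).2
            simp only [Pi.smul_apply, smul_eq_mul, u]
            rw [if_neg, mul_zero]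
            intro hk2
            exact hne (G2_eq W w i k hi' hk2)
          · intro h
            exact absurd (Finset.mem_image.mpr ⟨k, Finset.mem_filter.mpr ⟨Finset.mem_univ _, hk⟩, rfl⟩) h
      rw [hx']
      refine Submodule.sum_mem _ fun β hβ => Submodule.smul_mem _ _ (Submodule.subset_span ?_)
      exact Finset.mem_coe.mpr (Finset.mem_image.mpr ⟨β, hβ, rfl⟩)
    calc m = Module.finrank K W := hW.1.symm
      _ ≤ Module.finrank K (Submodule.span K
        ((((Finset.univ.filter fun i => w i ≠ 0).image (G2_blk W w)).image u : Finset (ι → K)) : Set (ι → K))) :=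
        Submodule.finrank_mono hspan
      _ ≤ (((Finset.univ.filter fun i => w i ≠ 0).image (G2_blk W w)).image u).card :=
        finrank_span_finset_le_card _
      _ ≤ _ := Finset.card_image_le
  · intro β hβ x hx
    obtain ⟨i, hi, rfl⟩ := Finset.mem_image.mp hβ
    have hi' := (Finset.mem_filter.mp hi).2
    have h1 := hmul x hx _ (G2_ind W w hw hw0 hmul i hi')
    have e : (fun k => if k ∈ G2_blk W w i then x k else 0) =
        fun k => x k * (if k ∈ G2_blk W w i then w k else 0) / w k := by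
      funext k
      by_cases hk : k ∈ G2_blk W w i
      · rw [if_pos hk, if_pos hk, mul_div_assoc, div_self ((G2_mem W w i k).mp hk).1, mul_one]
      · rw [if_neg hk, if_neg hk, mul_zero, zero_div]
    rw [e]
    exact h1

end Pool.Agent.FermatLin
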