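import Pool.Agent.Lib.MP_a1cc03_ag.FL.G1
import Pool.Agent.Lib.MP_a1cc03_ag.FL.G2

/-! Row fer-G3. `m - 1` disjoint pairs.

`exists_alg`, `exists_blocks`. The blocks are disjoint subsets of `ι`, so `∑ card β ≤ card ι ≤ 2 m + 1`; if `n` is the
number of blocks and `n2` the number of blocks with two elements then `2 n2 + 3 (n - n2) ≤ 2 m + 1` and `n ≥ m`, so
`n2 ≥ m - 1`. Take a sublist of length `m - 1` of the list of blocks with two elements, and write every `β = {i, j}`
(`Finset.card_eq_two`). Invariance: for `x ∈ W` the vector `pairScale i j g * x` is `x + (g - 1) • (x · 1_β) ∈ W`, so the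
image of `W` is contained in `W`, and equal to it (the same for `g⁻¹`, or the dimensions are equal).
`exists_rest`: a list of `m - 1` disjoint pairs uses `2 (m - 1) ≤ card ι - 2` elements, so there are two more.
-/

namespace Pool.Agent.FermatLin

/-- a set of disjoint two-element blocks gives a list of disjoint pairs -/
theorem G3_list {ι : Type} [Fintype ι] [DecidableEq ι] (T : Finset (Finset ι))
    (h2 : ∀ β ∈ T, β.card = 2) (hd : ∀ β ∈ T, ∀ γ ∈ T, β ≠ γ → Disjoint β γ) :
    ∃ l : List (ι × ι), IsPairs l ∧ l.length = T.card ∧ ∀ e ∈ l, ({e.1, e.2} : Finset ι) ∈ T := by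
  induction T using Finset.induction_on with
  | empty => exact ⟨[], ⟨by simp, List.Pairwise.nil⟩, by simp, by simp⟩
  | insert β T hβ ih =>
    obtain ⟨l, hl, hlen, hmem⟩ := ih (fun γ hγ => h2 γ (Finset.mem_insert_of_mem hγ))
      (fun γ hγ δ hδ => hd γ (Finset.mem_insert_of_mem hγ) δ (Finset.mem_insert_of_mem hδ))
    obtain ⟨i, j, hij, hβe⟩ := Finset.card_eq_two.mp (h2 β (Finset.mem_insert_self β T))
    refine ⟨(i, j) :: l, ⟨?_, ?_⟩, ?_, ?_⟩
    · intro e he
      rcases List.mem_cons.mp he with rfl | he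
      · exact hij
      · exact hl.1 e he
    · refine List.pairwise_cons.mpr ⟨?_, hl.2⟩
      intro q hq
      have hqT := hmem q hq
      have hne : β ≠ ({q.1, q.2} : Finset ι) := by
        intro h
        exact hβ (h ▸ hqT)
      have hdis := hd β (Finset.mem_insert_self β T) _ (Finset.mem_insert_of_mem hqT) hne
      rw [hβe] at hdis
      rw [Finset.disjoint_left] at hdis
      have h1 := hdis (a := i) (by simp)
      have h2 := hdis (a := j) (by simp)
      simp only [Finset.mem_insert, Finset.mem_singleton, not_or] at h1 h2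
      exact ⟨h1.1, h1.2, h2.1, h2.2⟩
    · rw [List.length_cons, hlen, Finset.card_insert_of_notMem hβ]
    · intro e he
      rcases List.mem_cons.mp he with rfl | he
      · exact Finset.mem_insert.mpr (Or.inl hβe.symm)
      · exact Finset.mem_insert_of_mem (hmem e he)

/-- invariance of `W` under the diagonal matrix of a block -/
theorem G3_le {ι K : Type} [Fintype ι] [DecidableEq ι] [Field K] (W : Submodule K (ι → K)) (i j : ι)
    (hinv : ∀ x ∈ W, (fun k => if k ∈ ({i, j} : Finset ι) then x k else 0) ∈ W) (g : K) :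
    W.map (LinearMap.mulLeft K (pairScale i j g)) ≤ W := by
  rintro _ ⟨x, hx, rfl⟩
  have e : LinearMap.mulLeft K (pairScale i j g) x =
      x + (g - 1) • (fun k => if k ∈ ({i, j} : Finset ι) then x k else 0) := by
    funext k
    simp only [LinearMap.mulLeft_apply, Pi.mul_apply, Pi.add_apply, Pi.smul_apply, smul_eq_mul, pairScale,
      Finset.mem_insert, Finset.mem_singleton]
    split_ifs
    · ring
    · ring
  rw [e]
  exact W.add_mem hx (W.smul_mem _ (hinv x hx))

theorem G3_eq {ι K : Type} [Fintype ι] [DecidableEq ι] [Field K] (W : Submodule K (ι → K)) (i j : ι)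
    (hinv : ∀ x ∈ W, (fun k => if k ∈ ({i, j} : Finset ι) then x k else 0) ∈ W) (g : K) (hg : g ≠ 0) :
    W.map (LinearMap.mulLeft K (pairScale i j g)) = W := by
  refine le_antisymm (G3_le W i j hinv g) ?_
  intro x hx
  have h1 : LinearMap.mulLeft K (pairScale i j g⁻¹) x ∈ W :=
    G3_le W i j hinv g⁻¹ ⟨x, hx, rfl⟩
  refine ⟨_, h1, ?_⟩
  funext k
  simp only [LinearMap.mulLeft_apply, Pi.mul_apply, pairScale]
  split_ifs
  · rw [← mul_assoc, mul_inv_cancel₀ hg, one_mul]
  · ring

theorem exists_pairs {ι K : Type} [Fintype ι] [DecidableEq ι] [Field K] [CharZero K] (d m : ℕ)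
    (h : (3 ≤ d ∧ Fintype.card ι = 2 * m) ∨ (4 ≤ d ∧ Fintype.card ι = 2 * m + 1))
    (W : Submodule K (ι → K)) (hW : IsLin d m W) :
    ∃ l : List (ι × ι), IsPairs l ∧ l.length = m - 1 ∧
      ∀ e ∈ l, ∀ g : K, g ≠ 0 → W.map (LinearMap.mulLeft K (pairScale e.1 e.2 g)) = W := by
  obtain ⟨w, hw, hw0, hmul⟩ := exists_alg d m h W hW
  obtain ⟨B, hdisj, hcard, hmB, hinv⟩ := exists_blocks d m (by omega) W hW w hw hw0 hmul
  have hsum : ∑ β ∈ B, β.card ≤ 2 * m + 1 := by
    have h1 : (B.biUnion id).card = ∑ β ∈ B, β.card := by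
      rw [Finset.card_biUnion]
      · rfl
      · intro β hβ γ hγ hne
        exact hdisj β hβ γ hγ hne
    rw [← h1]
    refine (Finset.card_le_univ _).trans ?_
    omega
  have hlow : 2 * (B.filter fun β => β.card = 2).card + 3 * (B.filter fun β => ¬ β.card = 2).card ≤
      ∑ β ∈ B, β.card := by
    rw [← Finset.sum_filter_add_sum_filter_not B (fun β => β.card = 2)]
    refine add_le_add ?_ ?_
    · rw [mul_comm, ← smul_eq_mul]
      refine Finset.card_nsmul_le_sum _ _ _ ?_
      intro β hβ
      exact hcard β (Finset.mem_filter.mp hβ).1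
    · rw [mul_comm, ← smul_eq_mul]
      refine Finset.card_nsmul_le_sum _ _ _ ?_
      intro β hβ
      have h1 := hcard β (Finset.mem_filter.mp hβ).1
      have h2 := (Finset.mem_filter.mp hβ).2
      omega
  have htot : (B.filter fun β => β.card = 2).card + (B.filter fun β => ¬ β.card = 2).card = B.card :=
    Finset.card_filter_add_card_filter_not _
  have hm1 : m - 1 ≤ (B.filter fun β => β.card = 2).card := by omega
  obtain ⟨T, hTB, hTc⟩ := Finset.exists_subset_card_eq hm1
  obtain ⟨l, hl, hlen, hmem⟩ := G3_list T (fun β hβ => (Finset.mem_filter.mp (hTB hβ)).2)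
    (fun β hβ γ hγ hne => hdisj β (Finset.mem_filter.mp (hTB hβ)).1 γ (Finset.mem_filter.mp (hTB hγ)).1 hne)
  refine ⟨l, hl, hlen.trans hTc, ?_⟩
  intro e he g hg
  exact G3_eq W e.1 e.2 (hinv _ (Finset.mem_filter.mp (hTB (hmem e he))).1) g hg

theorem exists_rest {ι : Type} [Fintype ι] [DecidableEq ι] (m : ℕ) (hm : 0 < m) (hcard : 2 * m ≤ Fintype.card ι)
    (l : List (ι × ι)) (hl : IsPairs l) (hlen : l.length = m - 1) : ∃ e : ι × ι, IsPairs (e :: l) := by
  have hU : (l.toFinset.biUnion fun e => ({e.1, e.2} : Finset ι)).card ≤ (m - 1) * 2 := by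
    refine Finset.card_biUnion_le.trans ?_
    refine (Finset.sum_le_card_nsmul _ _ 2 fun e _ => Finset.card_le_two).trans ?_
    rw [smul_eq_mul]
    refine Nat.mul_le_mul_right 2 ?_
    rw [← hlen]
    exact List.toFinset_card_le l
  have hc : 1 < ((l.toFinset.biUnion fun e => ({e.1, e.2} : Finset ι))ᶜ).card := by
    rw [Finset.card_compl]
    omega
  obtain ⟨a, ha, b, hb, hab⟩ := Finset.one_lt_card.mp hc
  refine ⟨(a, b), ?_, ?_⟩
  · intro e he
    rcases List.mem_cons.mp he with rfl | he
    · exact hab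
    · exact hl.1 e he
  · refine List.pairwise_cons.mpr ⟨?_, hl.2⟩
    intro q hq
    simp only [Finset.mem_compl, Finset.mem_biUnion, List.mem_toFinset, Finset.mem_insert, Finset.mem_singleton,
      not_exists, not_and, not_or] at ha hb
    exact ⟨(ha q hq).1, (ha q hq).2, (hb q hq).1, (hb q hq).2⟩

end Pool.Agent.FermatLin
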