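import Mathlib

/-! The commuting operators argument. -/

namespace Pool.Agent.FermatLin

theorem killer_aux {A : Type} [AddCommGroup A] (S : AddSubgroup A) {J : Type} (P : J → A →+ A)
    (hcomm : ∀ i j x, P i (P j x) = P j (P i x)) (hS : ∀ i, ∀ x ∈ S, P i x ∈ S) (n N : ℤ) {X : Type}
    [DecidableEq X] (b : X → A) (g : X → J) (z : A) (h : ∀ i, N • P i z ∈ S) (T : Finset X)
    (hg : ∀ x ∈ T, P (g x) (b x) = n • b x) :
    ∃ Q : A →+ A, (∀ i x, Q (P i x) = P i (Q x)) ∧ (∀ x ∈ S, Q x ∈ S) ∧ (∀ x ∈ T, Q (b x) = 0) ∧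
      N • (Q z - n ^ T.card • z) ∈ S := by
  induction T using Finset.induction_on with
  | empty => exact ⟨AddMonoidHom.id A, fun _ _ => rfl, fun _ hx => hx, by simp, by simp⟩
  | insert x0 T hx0 ih =>
    obtain ⟨Q, h1, h2, h3, h4⟩ := ih (fun x hx => hg x (Finset.mem_insert_of_mem hx))
    refine ⟨n • Q - (P (g x0)).comp Q, ?_, ?_, ?_, ?_⟩
    · intro i x
      simp only [AddMonoidHom.sub_apply, AddMonoidHom.coe_comp, Function.comp_apply, map_sub]
      have e1 : (n • Q) (P i x) = P i ((n • Q) x) := by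
        simp only [AddMonoidHom.coe_smul, Pi.smul_apply, h1, map_zsmul]
      rw [e1, h1, hcomm]
    · intro x hx
      simp only [AddMonoidHom.sub_apply, AddMonoidHom.coe_comp, Function.comp_apply, AddMonoidHom.coe_smul,
        Pi.smul_apply]
      exact S.sub_mem (S.zsmul_mem (h2 x hx) n) (hS _ _ (h2 x hx))
    · intro x hx
      simp only [AddMonoidHom.sub_apply, AddMonoidHom.coe_comp, Function.comp_apply, AddMonoidHom.coe_smul,
        Pi.smul_apply]
      rcases Finset.mem_insert.mp hx with rfl | hx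
      · rw [← h1, hg x (Finset.mem_insert_self _ _), map_zsmul, sub_self]
      · rw [h3 x hx, smul_zero, map_zero, sub_zero]
    · have e : N • ((n • Q - (P (g x0)).comp Q) z - n ^ (insert x0 T).card • z) =
          n • (N • (Q z - n ^ T.card • z)) - Q (N • P (g x0) z) := by
        rw [Finset.card_insert_of_notMem hx0]
        simp only [AddMonoidHom.sub_apply, AddMonoidHom.coe_comp, Function.comp_apply, AddMonoidHom.coe_smul,
          Pi.smul_apply, map_zsmul, h1, smul_sub, smul_smul]
        rw [pow_succ, mul_comm N n, show N * (n ^ T.card * n) = n * (N * n ^ T.card) by ring]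
        abel
      rw [e]
      exact S.sub_mem (S.zsmul_mem h4 n) (h2 _ (h _))

theorem killer {A : Type} [AddCommGroup A] (S : AddSubgroup A) {J : Type} (P : J → A →+ A)
    (hcomm : ∀ i j x, P i (P j x) = P j (P i x)) (hS : ∀ i, ∀ x ∈ S, P i x ∈ S) (n N : ℤ) {X : Type}
    (b : X → A) (g : X → J) (c : X →₀ ℤ) (hg : ∀ x ∈ c.support, P (g x) (b x) = n • b x)
    (h : ∀ i, N • P i (c.sum fun x k => k • b x) ∈ S) :
    (N * n ^ c.support.card) • (c.sum fun x k => k • b x) ∈ S := by
  classical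
  obtain ⟨Q, -, -, h3, h4⟩ := killer_aux S P hcomm hS n N b g _ h c.support hg
  have hQ : Q (c.sum fun x k => k • b x) = 0 := by
    rw [Finsupp.sum, map_sum]
    refine Finset.sum_eq_zero fun x hx => ?_
    rw [map_zsmul, h3 x hx, smul_zero]
  rw [hQ, zero_sub, smul_neg, smul_smul] at h4
  exact (S.neg_mem_iff).mp h4

end Pool.Agent.FermatLin
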