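import Pool.Agent.Lib.MP_a1cc03_ag.FL.E2
import Pool.Agent.Lib.MP_a1cc03_ag.FL.D3
import Pool.Agent.Lib.MP_a1cc03_ag.FL.D4
import Pool.Agent.Lib.MP_a1cc03_ag.FL.G3
import Pool.Agent.Lib.MP_a1cc03_ag.FL.H

/-! Assembly. -/

namespace Pool.Agent.FermatLin

open Polynomial

set_option linter.unusedSectionVars false
set_option linter.unusedSimpArgs false

variable {ι K : Type} [Fintype ι] [DecidableEq ι] [Field K]

/-- the group generated by the linear subspaces -/
noncomputable def LinCyc (ι K : Type) [Fintype ι] [Field K] (d m : ℕ) : AddSubgroup (Cyc ι K) :=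
  AddSubgroup.closure {z | ∃ W, IsLin d m W ∧ z = Finsupp.single W 1}

theorem mem_linCyc (d m : ℕ) (z : Cyc ι K) (hz : ∀ W ∈ z.support, IsLin d m W) : z ∈ LinCyc ι K d m := by
  rw [← Finsupp.sum_single z]
  refine AddSubgroup.sum_mem _ fun W hW => ?_
  have : (Finsupp.single W (z W) : Cyc ι K) = z W • Finsupp.single W 1 := by
    rw [Finsupp.smul_single, smul_eq_mul, mul_one]
  rw [this]
  refine AddSubgroup.zsmul_mem _ ?_ _
  exact AddSubgroup.subset_closure ⟨W, hz W hW, rfl⟩

/-! additivity -/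

/-- `proj` as a homomorphism -/
noncomputable def projHom (d : ℕ) (l : List (ι × ι × K)) : Cyc ι K →+ Cyc ι K where
  toFun := proj d l
  map_zero' := proj_zero d l
  map_add' := proj_add d l

/-- `act` as a homomorphism -/
noncomputable def actHom (c : ι → K) : Cyc ι K →+ Cyc ι K where
  toFun := act c
  map_zero' := act_zero c
  map_add' := act_add c

/-- `tsum_` as a homomorphism -/
noncomputable def tHom (d : ℕ) (i j : ι) : Cyc ι K →+ Cyc ι K :=
  ∑ r ∈ nthRootsFinset d (-1 : K), projHom d [(i, j, r)]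

/-- `dsum` as a homomorphism -/
noncomputable def dHom (d : ℕ) (i j : ι) : Cyc ι K →+ Cyc ι K :=
  ∑ g ∈ nthRootsFinset d (1 : K), actHom (pairScale i j g)

theorem tHom_apply (d : ℕ) (i j : ι) (z : Cyc ι K) : tHom d i j z = tsum_ d i j z := by
  unfold tHom tsum_
  rw [AddMonoidHom.finsetSum_apply]
  rfl

theorem dHom_apply (d : ℕ) (i j : ι) (z : Cyc ι K) : dHom d i j z = dsum d i j z := by
  unfold dHom dsum
  rw [AddMonoidHom.finsetSum_apply]
  rfl

/-- `dlist` as a homomorphism -/
noncomputable def dlHom (d : ℕ) : List (ι × ι) → (Cyc ι K →+ Cyc ι K)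
  | [] => AddMonoidHom.id _
  | e :: l => (dlHom d l).comp (dHom d e.1 e.2)

/-- `tlist` as a homomorphism -/
noncomputable def tlHom (d : ℕ) : List (ι × ι) → (Cyc ι K →+ Cyc ι K)
  | [] => AddMonoidHom.id _
  | e :: l => (tlHom d l).comp (tHom d e.1 e.2)

theorem pairScale_ne (i j : ι) (g : K) (hg : g ≠ 0) (k : ι) : pairScale i j g k ≠ 0 := by
  unfold pairScale
  split
  · exact hg
  · exact one_ne_zero

theorem pairScale_pow (d : ℕ) (i j : ι) (g : K) (hg : g ^ d = 1) (k : ι) : pairScale i j g k ^ d = 1 := by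
  unfold pairScale
  split
  · exact hg
  · exact one_pow _

theorem dHom_big (d m : ℕ) (hd : 0 < d) (i j : ι) (z : Cyc ι K) (hz : z ∈ Big ι K d m) :
    dHom d i j z ∈ Big ι K d m := by
  rw [dHom_apply]
  unfold dsum
  refine AddSubgroup.sum_mem _ fun g hg => ?_
  have hg1 : g ^ d = 1 := (mem_nthRootsFinset hd 1).mp hg
  have hg0 : g ≠ 0 := by
    rintro rfl
    rw [zero_pow (by omega)] at hg1
    exact zero_ne_one hg1
  exact act_big d m _ (pairScale_ne i j g hg0) (pairScale_pow d i j g hg1) z hz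

theorem dlHom_big (d m : ℕ) (hd : 0 < d) (l : List (ι × ι)) (z : Cyc ι K) (hz : z ∈ Big ι K d m) :
    dlHom d l z ∈ Big ι K d m := by
  induction l generalizing z with
  | nil => exact hz
  | cons e l ih => exact ih _ (dHom_big d m hd e.1 e.2 z hz)

theorem dHom_comm (d : ℕ) (i j i' j' : ι) (z : Cyc ι K) :
    dHom d i j (dHom d i' j' z) = dHom d i' j' (dHom d i j z) := by
  have key : ∀ (a b : ι → K) (y : Cyc ι K), actHom a (actHom b y) = actHom b (actHom a y) := by
    intro a b y
    change act a (act b y) = act b (act a y)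
    rw [act_act, act_act, mul_comm]
  unfold dHom
  simp only [AddMonoidHom.finsetSum_apply, map_sum]
  rw [Finset.sum_comm]
  refine Finset.sum_congr rfl fun g _ => Finset.sum_congr rfl fun g' _ => ?_
  rw [key]

theorem dHom_dlHom (d : ℕ) (i j : ι) (l : List (ι × ι)) (z : Cyc ι K) :
    dHom d i j (dlHom d l z) = dlHom d l (dHom d i j z) := by
  induction l generalizing z with
  | nil => rfl
  | cons e l ih =>
    simp only [dlHom, AddMonoidHom.coe_comp, Function.comp_apply]
    rw [ih, dHom_comm]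

theorem dlHom_comm (d : ℕ) (l l' : List (ι × ι)) (z : Cyc ι K) :
    dlHom d l (dlHom d l' z) = dlHom d l' (dlHom d l z) := by
  induction l generalizing z with
  | nil => rfl
  | cons e l ih =>
    simp only [dlHom, AddMonoidHom.coe_comp, Function.comp_apply]
    rw [dHom_dlHom, ih]

theorem tHom_linCyc [CharZero K] (d m : ℕ) (hd : 2 ≤ d) (hcard : Fintype.card ι ≤ 2 * m + 1) (i j : ι)
    (hij : i ≠ j) (z : Cyc ι K) (hz : z ∈ LinCyc ι K d m) : tHom d i j z ∈ LinCyc ι K d m := by
  unfold LinCyc at hz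
  induction hz using AddSubgroup.closure_induction with
  | mem z hz =>
    obtain ⟨W, hW, rfl⟩ := hz
    rw [tHom_apply]
    unfold tsum_
    refine AddSubgroup.sum_mem _ fun r hr => ?_
    have hr1 : r ^ d = -1 := (mem_nthRootsFinset (by omega) (-1)).mp hr
    rw [proj_single, one_mul]
    refine mem_linCyc d m _ fun W' hW' => ?_
    have := Finsupp.support_single_subset hW'
    rw [Finset.mem_singleton] at this
    rw [this]
    exact isLin_link d m hd hcard W hW i j hij r hr1
  | zero => rw [map_zero]; exact AddSubgroup.zero_mem _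
  | add x y _ _ hx hy => rw [map_add]; exact AddSubgroup.add_mem _ hx hy
  | neg x _ hx => rw [map_neg]; exact AddSubgroup.neg_mem _ hx

theorem relT_lin [IsAlgClosed K] [CharZero K] (d m : ℕ) (hd : 2 ≤ d) (hcard : Fintype.card ι ≤ 2 * m + 1)
    (i j : ι) (hij : i ≠ j) (z : Cyc ι K) (hz : z ∈ LinCyc ι K d m) :
    tHom d i j z + dHom d i j z ∈ Big ι K d m := by
  unfold LinCyc at hz
  induction hz using AddSubgroup.closure_induction with
  | mem z hz =>
    obtain ⟨W, hW, rfl⟩ := hz
    rw [tHom_apply, dHom_apply]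
    exact relT d m hd hcard W hW i j hij
  | zero => rw [map_zero, map_zero, add_zero]; exact AddSubgroup.zero_mem _
  | add x y _ _ hx hy =>
    rw [map_add, map_add, show tHom d i j x + tHom d i j y + (dHom d i j x + dHom d i j y) =
      (tHom d i j x + dHom d i j x) + (tHom d i j y + dHom d i j y) by abel]
    exact AddSubgroup.add_mem _ hx hy
  | neg x _ hx =>
    rw [map_neg, map_neg, ← neg_add]
    exact AddSubgroup.neg_mem _ hx

theorem tl_dl [IsAlgClosed K] [CharZero K] (d m : ℕ) (hd : 2 ≤ d) (hcard : Fintype.card ι ≤ 2 * m + 1)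
    (l : List (ι × ι)) (hl : ∀ e ∈ l, e.1 ≠ e.2) (z : Cyc ι K) (hz : z ∈ LinCyc ι K d m) :
    tlHom d l z - (-1 : ℤ) ^ l.length • dlHom d l z ∈ Big ι K d m := by
  induction l generalizing z with
  | nil => simp [tlHom, dlHom, AddSubgroup.zero_mem]
  | cons e l ih =>
    have hij : e.1 ≠ e.2 := hl e (by simp)
    have h1 := ih (fun e' he' => hl e' (by simp [he'])) (tHom d e.1 e.2 z) (tHom_linCyc d m hd hcard _ _ hij z hz)
    have h2 := dlHom_big d m (by omega) l _ (relT_lin d m hd hcard e.1 e.2 hij z hz)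
    rw [map_add] at h2
    have h3 := AddSubgroup.add_mem _ h1 (AddSubgroup.zsmul_mem _ h2 ((-1 : ℤ) ^ l.length))
    have e3 : tlHom d (e :: l) z - (-1 : ℤ) ^ (e :: l).length • dlHom d (e :: l) z =
        (tlHom d l (tHom d e.1 e.2 z) - (-1 : ℤ) ^ l.length • dlHom d l (tHom d e.1 e.2 z)) +
        (-1 : ℤ) ^ l.length • (dlHom d l (tHom d e.1 e.2 z) + dlHom d l (dHom d e.1 e.2 z)) := by
      simp only [tlHom, dlHom, AddMonoidHom.coe_comp, Function.comp_apply, List.length_cons, pow_succ, smul_add]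
      rw [mul_neg_one, neg_smul]
      abel
    rw [e3]
    exact h3

theorem proj_nil (d : ℕ) (z : Cyc ι K) : proj d ([] : List (ι × ι × K)) z = z := by
  have h1 : spineSpan ([] : List (ι × ι × K)) = ⊥ := by
    unfold spineSpan
    simp
  have h2 : spineHyp ([] : List (ι × ι × K)) = ⊤ := by
    ext x
    simp [spineHyp]
  unfold proj link
  rw [h1, h2]
  conv_rhs => rw [← Finsupp.sum_single z]
  refine Finsupp.sum_congr fun W _ => ?_
  rw [inf_top_eq, sup_bot_eq, inf_bot_eq, finrank_bot, pow_zero, mul_one]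

theorem tl_proj (d m : ℕ) (hd : 0 < d) (N : ℤ) (l : List (ι × ι)) (hl : IsPairs l) (z : Cyc ι K)
    (h : ∀ q : List (ι × ι × K), IsSpine d q → (q.map fun p => (p.1, p.2.1)) = l → N • proj d q z ∈ Big ι K d m) :
    N • tlHom d l z ∈ Big ι K d m := by
  induction l generalizing z with
  | nil =>
    have := h [] ⟨by simp, by simp⟩ rfl
    rw [proj_nil] at this
    exact this
  | cons e l ih =>
    have hl1 : IsPairs l := ⟨fun e' he' => hl.1 e' (by simp [he']), (List.pairwise_cons.mp hl.2).2⟩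
    simp only [tlHom, AddMonoidHom.coe_comp, Function.comp_apply]
    rw [tHom_apply]
    unfold tsum_
    rw [map_sum, Finset.smul_sum]
    refine AddSubgroup.sum_mem _ fun r hr => ?_
    have hr1 : r ^ d = -1 := (mem_nthRootsFinset hd (-1)).mp hr
    refine ih hl1 _ fun q hq hqm => ?_
    have hs : IsSpine d ((e.1, e.2, r) :: q) := by
      refine ⟨?_, ?_⟩
      · intro p hp
        rcases List.mem_cons.mp hp with rfl | hp
        · exact ⟨hl.1 e (by simp), hr1⟩
        · exact hq.1 p hp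
      · rw [List.pairwise_cons]
        refine ⟨fun p hp => ?_, hq.2⟩
        have := (List.pairwise_cons.mp hl.2).1 (p.1, p.2.1) (by
          rw [← hqm]
          exact List.mem_map.mpr ⟨p, hp, rfl⟩)
        exact this
    rw [← proj_cons d _ q hs]
    exact h _ hs (by simp [hqm])

theorem dHom_fix [IsAlgClosed K] [CharZero K] (d : ℕ) (hd : 0 < d) (i j : ι) (W : Submodule K (ι → K))
    (h : ∀ g : K, g ≠ 0 → W.map (LinearMap.mulLeft K (pairScale i j g)) = W) :
    dHom d i j (Finsupp.single W 1) = (d : ℤ) • (Finsupp.single W 1 : Cyc ι K) := by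
  rw [dHom_apply]
  unfold dsum
  rw [Finset.sum_congr rfl (g := fun _ => (Finsupp.single W 1 : Cyc ι K)), Finset.sum_const,
    card_nthRoots d hd 1 one_ne_zero, natCast_zsmul]
  intro g hg
  have hg1 : g ^ d = 1 := (mem_nthRootsFinset hd 1).mp hg
  have hg0 : g ≠ 0 := by
    rintro rfl
    rw [zero_pow (by omega)] at hg1
    exact zero_ne_one hg1
  rw [act_single, h g hg0]

theorem dlHom_fix [IsAlgClosed K] [CharZero K] (d : ℕ) (hd : 0 < d) (l : List (ι × ι)) (W : Submodule K (ι → K))
    (h : ∀ e ∈ l, ∀ g : K, g ≠ 0 → W.map (LinearMap.mulLeft K (pairScale e.1 e.2 g)) = W) :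
    dlHom d l (Finsupp.single W 1) = ((d : ℤ) ^ l.length) • (Finsupp.single W 1 : Cyc ι K) := by
  induction l with
  | nil => simp [dlHom]
  | cons e l ih =>
    simp only [dlHom, AddMonoidHom.coe_comp, Function.comp_apply]
    rw [dHom_fix d hd _ _ W (h e (by simp)), map_zsmul, ih (fun e' he' => h e' (by simp [he'])), smul_smul,
      List.length_cons, pow_succ, mul_comm]

theorem ratFam_le_big (d m : ℕ) : RatFam ι K d m ≤ Big ι K d m :=
  AddSubgroup.closure_mono Set.subset_union_right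

/-- `deg` as a homomorphism -/
noncomputable def degHom (ι K : Type) [Fintype ι] [Field K] : Cyc ι K →+ ℤ :=
  Finsupp.liftAddHom fun _ => AddMonoidHom.id ℤ

theorem degHom_apply (z : Cyc ι K) : degHom ι K z = deg z := rfl

theorem deg_cyc (S : Finset (Submodule K (ι → K))) : degHom ι K (cyc S) = S.card := by
  unfold cyc
  rw [map_sum]
  simp [degHom]

theorem deg_rat (d m : ℕ) (z : Cyc ι K) (hz : z ∈ Rat ι K d m) : degHom ι K z = 0 := by
  unfold Rat at hz
  induction hz using AddSubgroup.closure_induction with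
  | mem z hz =>
    rcases hz with ⟨a, b, S, T, hS, hT, rfl⟩ | hz
    · rw [map_sub, map_nsmul, map_nsmul, deg_cyc, deg_cyc, hS.2.1, hT.2.1]
      simp only [nsmul_eq_mul, Nat.cast_mul]
      ring
    · cases hz with
      | mk F hF W hW f hf hdeg => exact hdeg
  | zero => exact map_zero _
  | add x y _ _ hx hy => rw [map_add, hx, hy, add_zero]
  | neg x _ hx => rw [map_neg, hx, neg_zero]

theorem big_rat (d m : ℕ) (T : Finset (Submodule K (ι → K))) (hT : IsCI d m 1 T) (z : Cyc ι K)
    (hz : z ∈ Big ι K d m) : ∃ k : ℤ, z - k • cyc T ∈ Rat ι K d m := by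
  unfold Big at hz
  induction hz using AddSubgroup.closure_induction with
  | mem z hz =>
    rcases hz with ⟨a, S, hS, rfl⟩ | hz
    · refine ⟨a, AddSubgroup.subset_closure (Or.inl ⟨a, 1, S, T, hS, hT, ?_⟩)⟩
      rw [one_smul, natCast_zsmul]
    · refine ⟨0, ?_⟩
      rw [zero_smul, sub_zero]
      exact AddSubgroup.subset_closure (Or.inr hz)
  | zero => exact ⟨0, by simp [AddSubgroup.zero_mem]⟩
  | add x y _ _ hx hy =>
    obtain ⟨k, hk⟩ := hx
    obtain ⟨k', hk'⟩ := hy
    refine ⟨k + k', ?_⟩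
    have := AddSubgroup.add_mem _ hk hk'
    rw [add_smul]
    convert this using 1
    abel
  | neg x _ hx =>
    obtain ⟨k, hk⟩ := hx
    refine ⟨-k, ?_⟩
    have := AddSubgroup.neg_mem _ hk
    rw [neg_smul]
    convert this using 1
    abel

theorem big_deg_rat (d m : ℕ) (hd : 0 < d) (T : Finset (Submodule K (ι → K))) (hT : IsCI d m 1 T) (z : Cyc ι K)
    (hz : z ∈ Big ι K d m) (hdeg : deg z = 0) : z ∈ Rat ι K d m := by
  obtain ⟨k, hk⟩ := big_rat d m T hT z hz
  have h1 := deg_rat d m _ hk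
  rw [map_sub, map_zsmul, deg_cyc, hT.2.1, degHom_apply, hdeg, mul_one, zero_sub, neg_eq_zero, smul_eq_mul,
    mul_eq_zero] at h1
  rcases h1 with h1 | h1
  · rw [h1, zero_smul, sub_zero] at hk
    exact hk
  · exact absurd h1 (by exact_mod_cast hd.ne')

theorem main [IsAlgClosed K] [CharZero K] (d m : ℕ) (hm : 1 ≤ m)
    (h : (3 ≤ d ∧ Fintype.card ι = 2 * m) ∨ (4 ≤ d ∧ Fintype.card ι = 2 * m + 1)) (N : ℤ) (z : Cyc ι K)
    (hz : ∀ W ∈ z.support, IsLin d m W) (hdeg : deg z = 0)
    (hAJ : ∀ (a b : ι) (r : K) (l : List (ι × ι × K)), IsSpine d ((a, b, r) :: l) → l.length + 1 = m →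
      ∃ k : ℤ, N • proj d l z - k • planeCyc d l a b ∈ RatFam ι K d m) :
    ∃ e : ℕ, (N * (d : ℤ) ^ e) • z ∈ Rat ι K d m := by
  classical
  have hd : 3 ≤ d := by omega
  have hcard : Fintype.card ι ≤ 2 * m + 1 := by omega
  have hcard' : 2 * m ≤ Fintype.card ι := by omega
  by_cases hz0 : z = 0
  · exact ⟨0, by rw [hz0, smul_zero]; exact AddSubgroup.zero_mem _⟩
  obtain ⟨W0, hW0⟩ := Finsupp.support_nonempty_iff.mpr hz0
  choose! g hg1 hg2 hg3 using fun W (hW : IsLin d m W) => exists_pairs (K := K) d m h W hW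
  obtain ⟨ζ, hζ⟩ : ∃ ζ : K, ζ ^ d = -1 := by
    have := card_nthRoots d (by omega) (-1 : K) (by simp)
    obtain ⟨ζ, hζ⟩ := Finset.card_pos.mp (show 0 < (nthRootsFinset d (-1 : K)).card by omega)
    exact ⟨ζ, (mem_nthRootsFinset (by omega) _).mp hζ⟩
  have spine_of : ∀ l : List (ι × ι), IsPairs l → IsSpine d (l.map fun e => (e.1, e.2, ζ)) := by
    intro l hl
    refine ⟨?_, ?_⟩
    · intro p hp
      obtain ⟨e, he, rfl⟩ := List.mem_map.mp hp
      exact ⟨hl.1 e he, hζ⟩
    · rw [List.pairwise_map]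
      exact hl.2
  -- the reference plane section
  obtain ⟨e0, he0⟩ := exists_rest m hm hcard' (g W0) (hg1 W0 (hz W0 hW0)) (hg2 W0 (hz W0 hW0))
  obtain ⟨T, hT, -⟩ := planeCyc_isCI (K := K) d m (by omega) e0.1 e0.2 ζ ((g W0).map fun e => (e.1, e.2, ζ))
    (by simpa using spine_of _ he0) (by rw [List.length_map, hg2 W0 (hz W0 hW0)]; omega)
  -- complete lists kill z modulo Big
  have hkill : ∀ l : {l : List (ι × ι) // IsPairs l ∧ l.length = m - 1}, N • dlHom d l.1 z ∈ Big ι K d m := by
    rintro ⟨l, hl, hlen⟩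
    have h1 := tl_dl d m (by omega) hcard l hl.1 z (mem_linCyc d m z hz)
    have h2 : N • tlHom d l z ∈ Big ι K d m := by
      refine tl_proj d m (by omega) N l hl z fun q hq hqm => ?_
      have hql : q.length = m - 1 := by
        rw [← hlen, ← hqm, List.length_map]
      obtain ⟨e, he⟩ := exists_rest m hm hcard' l hl hlen
      have hs : IsSpine d ((e.1, e.2, ζ) :: q) := by
        refine ⟨?_, ?_⟩
        · intro p hp
          rcases List.mem_cons.mp hp with rfl | hp
          · exact ⟨he.1 e (by simp), hζ⟩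
          · exact hq.1 p hp
        · rw [List.pairwise_cons]
          refine ⟨fun p hp => ?_, hq.2⟩
          exact (List.pairwise_cons.mp he.2).1 (p.1, p.2.1) (by
            rw [← hqm]
            exact List.mem_map.mpr ⟨p, hp, rfl⟩)
      obtain ⟨k, hk⟩ := hAJ e.1 e.2 ζ q hs (by omega)
      obtain ⟨S, hS, hS'⟩ := planeCyc_isCI d m (by omega) e.1 e.2 ζ q hs (by omega)
      have h3 : k • planeCyc d q e.1 e.2 ∈ Big ι K d m := by
        rw [hS']
        refine AddSubgroup.zsmul_mem _ ?_ _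
        exact AddSubgroup.subset_closure (Or.inl ⟨1, S, hS, rfl⟩)
      have := AddSubgroup.add_mem _ (ratFam_le_big d m hk) h3
      rwa [sub_add_cancel] at this
    have h3 := AddSubgroup.zsmul_mem _ (AddSubgroup.sub_mem _ h2 (AddSubgroup.zsmul_mem _ h1 N))
      ((-1 : ℤ) ^ l.length)
    have e3 : (-1 : ℤ) ^ l.length • (N • tlHom d l z - N • (tlHom d l z - (-1 : ℤ) ^ l.length • dlHom d l z)) =
        N • dlHom d l z := by
      rw [smul_sub N, sub_sub_cancel, smul_comm N, smul_smul, ← mul_pow]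
      simp
    rwa [e3] at h3
  -- the commuting operators argument
  have hsum : (z.sum fun W k => k • (Finsupp.single W 1 : Cyc ι K)) = z := by
    conv_rhs => rw [← Finsupp.sum_single z]
    refine Finsupp.sum_congr fun W _ => ?_
    rw [Finsupp.smul_single, smul_eq_mul, mul_one]
  have hk := killer (Big ι K d m) (J := {l : List (ι × ι) // IsPairs l ∧ l.length = m - 1})
    (fun l => dlHom d l.1) (fun l l' x => dlHom_comm d l.1 l'.1 x)
    (fun l x hx => dlHom_big d m (by omega) l.1 x hx) ((d : ℤ) ^ (m - 1)) N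
    (fun W => (Finsupp.single W 1 : Cyc ι K))
    (fun W => if hW : IsLin d m W then ⟨g W, hg1 W hW, hg2 W hW⟩ else ⟨g W0, hg1 W0 (hz W0 hW0), hg2 W0 (hz W0 hW0)⟩)
    z (by
      intro W hW
      have hW' := hz W hW
      simp only [dif_pos hW']
      rw [dlHom_fix d (by omega) (g W) W (hg3 W hW'), hg2 W hW'])
    (by
      intro l
      rw [hsum]
      exact hkill l)
  rw [hsum, ← pow_mul] at hk
  refine ⟨_, big_deg_rat d m (by omega) T hT _ hk ?_⟩
  rw [← degHom_apply, map_zsmul, degHom_apply, hdeg, smul_zero]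

end Pool.Agent.FermatLin
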