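import Pool.Agent.Lib.MP_a1cc03_ag.FL.A1
import Pool.Agent.Lib.MP_a1cc03_ag.FL.A2

/-! Row fer-G1. `w⁻¹ W` is an algebra. -/

namespace Pool.Agent.FermatLin

theorem G1_span {ι K : Type} [Fintype ι] [Field K] (c : ι → K) (S T : Set (ι → K))
    (h : ∀ f ∈ S, ∀ g ∈ T, ∑ i, c i * f i * g i = 0) :
    ∀ f ∈ Submodule.span K S, ∀ g ∈ Submodule.span K T, ∑ i, c i * f i * g i = 0 := by
  have h1 : ∀ f ∈ Submodule.span K S, ∀ g ∈ T, ∑ i, c i * f i * g i = 0 := by
    intro f hf g hg
    induction hf using Submodule.span_induction with
    | mem x hx => exact h x hx g hg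
    | zero => simp
    | add x y _ _ hx hy =>
      have : ∑ i, c i * (x + y) i * g i = ∑ i, c i * x i * g i + ∑ i, c i * y i * g i := by
        rw [← Finset.sum_add_distrib]
        exact Finset.sum_congr rfl fun i _ => by simp only [Pi.add_apply]; ring
      rw [this, hx, hy, add_zero]
    | smul a x _ hx =>
      have : ∑ i, c i * (a • x) i * g i = a * ∑ i, c i * x i * g i := by
        rw [Finset.mul_sum]
        exact Finset.sum_congr rfl fun i _ => by simp only [Pi.smul_apply, smul_eq_mul]; ring
      rw [this, hx, mul_zero]
  intro f hf g hg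
  induction hg using Submodule.span_induction with
  | mem x hx => exact h1 f hf x hx
  | zero => simp
  | add x y _ _ hx hy =>
    have : ∑ i, c i * f i * (x + y) i = ∑ i, c i * f i * x i + ∑ i, c i * f i * y i := by
      rw [← Finset.sum_add_distrib]
      exact Finset.sum_congr rfl fun i _ => by simp only [Pi.add_apply]; ring
    rw [this, hx, hy, add_zero]
  | smul a x _ hx =>
    have : ∑ i, c i * f i * (a • x) i = a * ∑ i, c i * f i * x i := by
      rw [Finset.mul_sum]
      exact Finset.sum_congr rfl fun i _ => by simp only [Pi.smul_apply, smul_eq_mul]; ring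
    rw [this, hx, mul_zero]

theorem exists_alg {ι K : Type} [Fintype ι] [Field K] [CharZero K] (d m : ℕ)
    (h : (3 ≤ d ∧ Fintype.card ι = 2 * m) ∨ (4 ≤ d ∧ Fintype.card ι = 2 * m + 1))
    (W : Submodule K (ι → K)) (hW : IsLin d m W) :
    ∃ w ∈ W, (∀ i, w i = 0 → ∀ x ∈ W, x i = 0) ∧ ∀ x ∈ W, ∀ y ∈ W, (fun i => x i * y i / w i) ∈ W := by
  have : Infinite K := inferInstance
  obtain ⟨w, hw, hw0⟩ := exists_generic W
  refine ⟨w, hw, hw0, ?_⟩
  set S : Set (ι → K) := {f | ∃ x ∈ W, ∃ y ∈ W, f = fun i => x i * y i / w i} with hS
  have hWP : W ≤ Submodule.span K S := by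
    intro x hx
    refine Submodule.subset_span ⟨x, hx, w, hw, ?_⟩
    funext i
    by_cases hi : w i = 0
    · rw [hw0 i hi x hx]; simp
    · field_simp
  have hc : ∀ f ∈ Submodule.span K S, ∀ i, w i ^ (d - 2) = 0 → f i = 0 := by
    intro f hf i hi
    have hi0 : w i = 0 := by
      by_contra hne
      exact pow_ne_zero _ hne hi
    induction hf using Submodule.span_induction with
    | mem x hx =>
      obtain ⟨a, -, b, -, rfl⟩ := hx
      simp [hi0]
    | zero => rfl
    | add x y _ _ hx hy => rw [Pi.add_apply, hx, hy, add_zero]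
    | smul a x _ hx => rw [Pi.smul_apply, hx, smul_zero]
  have hle : Module.finrank K (Submodule.span K S) ≤ Module.finrank K W := by
    rw [hW.1]
    rcases h with ⟨hd, hcard⟩ | ⟨hd, hcard⟩
    · have h1 : ∀ f ∈ Submodule.span K S, ∀ g ∈ Submodule.span K (W : Set (ι → K)),
          ∑ i, w i ^ (d - 2) * f i * g i = 0 := by
        refine G1_span _ _ _ ?_
        rintro f ⟨x, hx, y, hy, rfl⟩ g hg
        have hp := polar d W hW.2 [x, y, g] (by
          intro z hz
          simp only [List.mem_cons, List.not_mem_nil, or_false] at hz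
          rcases hz with rfl | rfl | rfl
          · exact hx
          · exact hy
          · exact hg) hd w hw
        rw [← hp]
        refine Finset.sum_congr rfl fun i _ => ?_
        simp only [List.length_cons, List.length_nil, List.map_cons, List.map_nil, List.prod_cons,
          List.prod_nil, mul_one, zero_add]
        by_cases hi : w i = 0
        · rw [hw0 i hi x hx]; simp
        · have e : w i ^ (d - 2) = w i ^ (d - (1 + 1 + 1)) * w i := by
            rw [← pow_succ]; congr 1; omega
          rw [e]
          field_simp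
      rw [Submodule.span_eq] at h1
      have h2 := finrank_add_le (fun i => w i ^ (d - 2)) (Submodule.span K S) W hc h1
      rw [hW.1, hcard] at h2
      omega
    · have h1 : ∀ f ∈ Submodule.span K S, ∀ g ∈ Submodule.span K S,
          ∑ i, w i ^ (d - 2) * f i * g i = 0 := by
        refine G1_span _ _ _ ?_
        rintro f ⟨x, hx, y, hy, rfl⟩ g ⟨x', hx', y', hy', rfl⟩
        have hp := polar d W hW.2 [x, y, x', y'] (by
          intro z hz
          simp only [List.mem_cons, List.not_mem_nil, or_false] at hz
          rcases hz with rfl | rfl | rfl | rfl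
          · exact hx
          · exact hy
          · exact hx'
          · exact hy') hd w hw
        rw [← hp]
        refine Finset.sum_congr rfl fun i _ => ?_
        simp only [List.length_cons, List.length_nil, List.map_cons, List.map_nil, List.prod_cons,
          List.prod_nil, mul_one, zero_add]
        by_cases hi : w i = 0
        · rw [hw0 i hi x hx]; simp
        · have e : w i ^ (d - 2) = w i ^ (d - (1 + 1 + 1 + 1)) * w i * w i := by
            rw [← pow_succ, ← pow_succ]; congr 1; omega
          rw [e]
          field_simp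
      have h2 := finrank_add_le (fun i => w i ^ (d - 2)) (Submodule.span K S) (Submodule.span K S) hc h1
      rw [hcard] at h2
      omega
  have heq : W = Submodule.span K S := Submodule.eq_of_le_of_finrank_le hWP hle
  intro x hx y hy
  rw [heq]
  exact Submodule.subset_span ⟨x, hx, y, hy, rfl⟩

end Pool.Agent.FermatLin
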